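import Pool.Agent.Y957.MC.Spec

/-!
Project MC (helper957), second part: several parameters, unrestricted boxes, linear forms (MP_f720ae_an).
-/

set_option autoImplicit false

namespace Pool.Agent.Y957.MC

open MeasureTheory Filter Finset

universe u

/-- the box `[1, M_1] × ... × [1, M_k]` -/
def box {k : ℕ} (M : Fin k → ℕ) : Finset (Fin k → ℕ) := Fintype.piFinset fun i => Icc 1 (M i)

/-- the average over the box -/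
noncomputable def bavg {k : ℕ} (M : Fin k → ℕ) (h : (Fin k → ℕ) → ℂ) : ℂ :=
  (1 / ((∏ i, M i : ℕ) : ℂ)) * ∑ m ∈ box M, h m

/-- a linear form -/
noncomputable def lin {k : ℕ} (c : Fin k → ℝ) (m : Fin k → ℕ) : ℝ := ∑ i, c i * (m i : ℝ)

/-- `h M` tends to zero when all sides of the box tend to infinity and the side `i` is the longest -/
def TZ {k : ℕ} (i : Fin k) (h : (Fin k → ℕ) → ℂ) : Prop :=
  ∀ ε : ℝ, 0 < ε → ∃ N₀ : ℕ, ∀ M : Fin k → ℕ, (∀ l, N₀ ≤ M l) → (∀ l, M l ≤ M i) → ‖h M‖ ≤ ε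

/-- (EXPC) exponential sums with the phases `κ log (c n + b)`, uniformly in `b` -/
def S_EXPC : Prop := ∀ (c C₁ ε : ℝ) (Q : ℕ), c ≠ 0 → 0 < C₁ → 0 < ε → ∃ δ : ℝ, 0 < δ ∧ ∃ C : ℝ, 0 < C ∧
    ∀ᶠ N : ℕ in atTop, ∀ b κ : ℝ, |b| ≤ C₁ * N → κ ≠ 0 → |κ| ≤ (N : ℝ) ^ Q →
    ‖∑ n ∈ (Icc 1 N).filter (fun n : ℕ => ε * N ≤ c * n + b),
      Complex.exp (((κ * Real.log (c * n + b) : ℝ) : ℂ) * Complex.I)‖ ≤ C * (N / |κ| + (N : ℝ) ^ (1 - δ))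

/-- (ESTC) the mean square bound, uniform in the coefficients and in the shift `b` -/
def S_ESTC : Prop := ∀ c C₁ : ℝ, c ≠ 0 → 0 < C₁ → ∀ (X : Type u) [MeasurableSpace X] (μ : Measure X)
    [IsProbabilityMeasure μ] (T : X → X) (F : X → ℝ → ℂ), Nice μ T F → ∀ ε A : ℝ, 0 < ε → 0 < A →
    ∃ (R : ℕ → X → ℝ) (C δ : ℝ), 0 < δ ∧ (∀ N, Measurable (R N)) ∧ (∀ N x, 0 ≤ R N x) ∧
      (∀ᶠ N : ℕ in atTop, Integrable (R N) μ ∧ ∫ x, R N x ∂μ ≤ C * (N : ℝ) ^ (-δ)) ∧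
      ∀ᶠ N : ℕ in atTop, ∀ (x : X) (B : ℕ → ℂ) (b : ℝ), (∀ n, ‖B n‖ ≤ 1) → |b| ≤ C₁ * N →
        ∫ a in A..2 * A, ‖(1 / (N : ℂ)) * ∑ n ∈ (Icc 1 N).filter (fun n : ℕ => ε * N ≤ c * n + b),
          B n * F x (a * (c * n + b))‖ ^ 2 ≤ R N x

/-- (NICEC) boxes, nice families -/
def S_NICEC : Prop := ∀ (k : ℕ) (c : Fin k → ℝ) (i : Fin k), c i ≠ 0 → ∀ (X : Type u) [MeasurableSpace X]
    (μ : Measure X) [IsProbabilityMeasure μ] (T : X → X) (F : X → ℝ → ℂ), Nice μ T F →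
    ∀ᵐ x ∂μ, ∀ B : (Fin k → ℕ) → ℂ, (∀ m, ‖B m‖ ≤ 1) → ∀ᵐ a : ℝ ∂(volume.restrict (Set.Ioi (0 : ℝ))),
      TZ i (fun M => bavg M (fun m => if 0 < lin c m then B m * F x (a * lin c m) else 0))

/-- (SGLC) boxes, control of a nonnegative process with stationary covariance -/
def S_SGLC : Prop := ∀ (k : ℕ) (c : Fin k → ℝ) (i : Fin k), c i ≠ 0 → ∃ K : ℝ → ℝ, (∀ ε, 0 < K ε) ∧
    ∀ (X : Type u) [MeasurableSpace X]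
    (μ : Measure X) [IsProbabilityMeasure μ] (F : X → ℝ → ℝ) (R : ℝ → ℝ), Measurable (fun q : X × ℝ => F q.1 q.2) →
    (∀ x v, 0 ≤ F x v ∧ F x v ≤ 1) → (∀ v w, 1 ≤ v → v ≤ w → ∫ x, F x v * F x w ∂μ = R (w - v)) →
    ∀ᵐ x ∂μ, ∀ᵐ a : ℝ ∂(volume.restrict (Set.Ioi (0 : ℝ))), ∀ ε L : ℝ, 0 < ε →
      (∀ᶠ V : ℝ in atTop, (1 / V) * ∫ v in (0 : ℝ)..V, F x v ≤ L) →
      ∃ N₀ : ℕ, ∀ M : Fin k → ℕ, (∀ l, N₀ ≤ M l) → (∀ l, M l ≤ M i) →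
        (1 / ((∏ l, M l : ℕ) : ℝ)) * ∑ m ∈ box M, (if 0 < lin c m then F x (a * lin c m) else 0) ≤ ε + K ε * L

/-- (FLW1C) boxes, smooth coboundaries of a flow -/
def S_FLW1C : Prop := ∀ (k : ℕ) (c : Fin k → ℝ) (i : Fin k), c i ≠ 0 → ∀ (X : Type u) [MeasurableSpace X]
    (μ : Measure X) [IsProbabilityMeasure μ] (τ : ℝ → X → X) (g : X → ℝ), IsFlow μ τ → Measurable g →
    (∃ C, ∀ x, |g x| ≤ C) → ∀ δ S : ℝ, 0 < δ → 0 < S →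
    ∀ᵐ x ∂μ, ∀ B : (Fin k → ℕ) → ℂ, (∀ m, ‖B m‖ ≤ 1) → ∀ᵐ a : ℝ ∂(volume.restrict (Set.Ioi (0 : ℝ))),
      TZ i (fun M => bavg M (fun m => if 0 < lin c m then B m *
        (((smo τ g δ (τ (a * lin c m) x) - smo τ (smo τ g δ) S (τ (a * lin c m) x) : ℝ)) : ℂ) else 0))

/-- (FLW2C) boxes, the error term -/
def S_FLW2C : Prop := ∀ (k : ℕ) (c : Fin k → ℝ) (i : Fin k), c i ≠ 0 → ∃ K : ℝ → ℝ, (∀ ε, 0 < K ε) ∧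
    ∀ (X : Type u) [MeasurableSpace X]
    (μ : Measure X) [IsProbabilityMeasure μ] (τ : ℝ → X → X) (e : X → ℝ), IsFlow μ τ → Measurable e →
    (∀ x, 0 ≤ e x ∧ e x ≤ 1) → ∀ᵐ x ∂μ, ∀ᵐ a : ℝ ∂(volume.restrict (Set.Ioi (0 : ℝ))), ∀ ε : ℝ, 0 < ε →
      ∃ N₀ : ℕ, ∀ M : Fin k → ℕ, (∀ l, N₀ ≤ M l) → (∀ l, M l ≤ M i) →
        (1 / ((∏ l, M l : ℕ) : ℝ)) * ∑ m ∈ box M, (if 0 < lin c m then e (τ (a * lin c m) x) else 0) ≤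
          ε + K ε * (μ[e | flowInv τ]) x

/-- (FLWP) boxes, one flow, the part of the box where the form is positive -/
def S_FLWP : Prop := ∀ (k : ℕ) (c : Fin k → ℝ) (i : Fin k), c i ≠ 0 → ∀ (X : Type u) [MeasurableSpace X]
    (μ : Measure X) [IsProbabilityMeasure μ] (τ : ℝ → X → X) (g : X → ℝ), IsFlow μ τ → Measurable g →
    (∃ C, ∀ x, |g x| ≤ C) →
    ∀ᵐ x ∂μ, ∀ B : (Fin k → ℕ) → ℂ, (∀ m, ‖B m‖ ≤ 1) → ∀ᵐ a : ℝ ∂(volume.restrict (Set.Ioi (0 : ℝ))),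
      TZ i (fun M => bavg M (fun m => if 0 < lin c m then B m *
        (((g (τ (a * lin c m) x) - (μ[g | flowInv τ]) x : ℝ)) : ℂ) else 0))

/-- (FLWC) boxes, one flow, every bounded array of weights -/
def S_FLWC : Prop := ∀ (k : ℕ) (c : Fin k → ℝ) (i : Fin k), c i ≠ 0 → ∀ (X : Type u) [MeasurableSpace X]
    (μ : Measure X) [IsProbabilityMeasure μ] (τ : ℝ → X → X) (g : X → ℝ), IsFlow μ τ → Measurable g →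
    (∃ C, ∀ x, |g x| ≤ C) →
    ∀ᵐ x ∂μ, ∀ B : (Fin k → ℕ) → ℂ, (∀ m, ‖B m‖ ≤ 1) → ∀ᵐ a : ℝ,
      TZ i (fun M => bavg M (fun m => B m * (((g (τ (a * lin c m) x) - (μ[g | flowInv τ]) x : ℝ)) : ℂ)))

/-- (PRODC) products over unrestricted boxes -/
def S_PRODC : Prop := ∀ (X : Type u) [MeasurableSpace X] (μ : Measure X) [IsProbabilityMeasure μ] (k n : ℕ)
    (ν : Measure ℝ) [SigmaFinite ν] (S : Fin n → Finset (Fin k)) (φ : Fin n → X → ℝ → (Fin k → ℕ) → ℝ)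
    (g : Fin n → X → ℝ), (∀ j, (S j).Nonempty) →
    (∀ j x a m m', (∀ i ∈ S j, m i = m' i) → φ j x a m = φ j x a m') →
    (∀ j m, Measurable (fun q : X × ℝ => φ j q.1 q.2 m)) → (∀ j, Measurable (g j)) →
    (∃ C, ∀ j x a m, |φ j x a m| ≤ C) → (∃ C, ∀ j x, |g j x| ≤ C) →
    (∀ j, ∀ i ∈ S j, ∀ᵐ x ∂μ, ∀ B : (Fin k → ℕ) → ℂ, (∀ m, ‖B m‖ ≤ 1) → ∀ᵐ a : ℝ ∂ν,
      TZ i (fun M => bavg M (fun m => B m * (((φ j x a m - g j x : ℝ)) : ℂ)))) →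
    ∀ᵐ a : Fin n → ℝ ∂(Measure.pi fun _ => ν), ∀ᵐ x ∂μ, ∀ ε : ℝ, 0 < ε → ∃ N₀ : ℕ, ∀ M : Fin k → ℕ,
      (∀ l, N₀ ≤ M l) →
      |(1 / ((∏ l, M l : ℕ) : ℝ)) * ∑ m ∈ box M, ∏ j, φ j x (a j) m - ∏ j, g j x| ≤ ε

end Pool.Agent.Y957.MC
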