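import Pool.Agent.Y957.MC.Cx
import Pool.Agent.Y259.MC.Prodc

set_option autoImplicit false

/-! Several flows, linear forms, unrestricted boxes. -/

namespace Pool.Agent.Y957.MC

open MeasureTheory Filter Finset

universe u

/-- the support of a linear form -/
noncomputable def supp {k : ℕ} (c : Fin k → ℝ) : Finset (Fin k) := by
  classical exact univ.filter fun i => c i ≠ 0

lemma mem_supp {k : ℕ} {c : Fin k → ℝ} {i : Fin k} : i ∈ supp c ↔ c i ≠ 0 := by
  simp [supp]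

lemma supp_nonempty {k : ℕ} {c : Fin k → ℝ} (h : c ≠ 0) : (supp c).Nonempty := by
  by_contra hne
  rw [Finset.not_nonempty_iff_eq_empty] at hne
  apply h
  funext i
  by_contra hi
  have : i ∈ supp c := mem_supp.mpr hi
  rw [hne] at this
  simp at this

lemma lin_congr {k : ℕ} {c : Fin k → ℝ} {m m' : Fin k → ℕ} (h : ∀ i ∈ supp c, m i = m' i) : lin c m = lin c m' := by
  unfold lin
  refine sum_congr rfl fun i _ => ?_
  by_cases hi : c i = 0
  · rw [hi, zero_mul, zero_mul]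
  · rw [h i (mem_supp.mpr hi)]

theorem boxes_real (hC : S_FLWC.{u}) {X : Type u} [MeasurableSpace X] {μ : Measure X} [IsProbabilityMeasure μ] {k n : ℕ}
    {τ : Fin n → ℝ → X → X} (hτ : ∀ j, IsFlow μ (τ j)) {c : Fin n → Fin k → ℝ} (hc : ∀ j, c j ≠ 0)
    {f : Fin n → X → ℝ} (hf : ∀ j, Measurable (f j)) (hfb : ∃ C, ∀ j x, |f j x| ≤ C) :
    ∀ᵐ a : Fin n → ℝ, ∀ᵐ x ∂μ, Tendsto (fun M : Fin k → ℕ => (1 / ((∏ l, M l : ℕ) : ℝ)) * ∑ m ∈ box M,
      ∏ j, f j (τ j (a j * lin (c j) m) x)) atTop (nhds (∏ j, (μ[f j | flowInv (τ j)]) x)) := by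
  obtain ⟨C0, hC0⟩ := hfb
  set C : ℝ := max C0 0 with hCdef
  have hCnn : 0 ≤ C := le_max_right _ _
  have hCb : ∀ j x, |f j x| ≤ C := fun j x => (hC0 j x).trans (le_max_left _ _)
  set g : Fin n → X → ℝ := fun j x => trunc C ((μ[f j | flowInv (τ j)]) x) with hg
  have hgm : ∀ j, Measurable (g j) := by
    intro j
    have h1 : Measurable (μ[f j | flowInv (τ j)]) :=
      (stronglyMeasurable_condExp.mono (flowInv_le (τ j))).measurable
    exact (measurable_trunc C).comp h1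
  have hgeq : ∀ᵐ x ∂μ, ∀ j, g j x = (μ[f j | flowInv (τ j)]) x := by
    rw [ae_all_iff]
    intro j
    filter_upwards [condExp_bd (m := flowInv (τ j)) (μ := μ) hCnn (hCb j)] with x hx
    exact trunc_eq hx
  have hmain := Pool.Agent.Y259.MC.prodc X μ k n volume (fun j => supp (c j))
    (fun j x a m => f j (τ j (a * lin (c j) m) x)) g
    (fun j => supp_nonempty (hc j)) (fun j x a m m' h => by
      have := lin_congr h
      simp only [this]) (fun j m => ?_) hgm ⟨C, fun j x a m => hCb j _⟩ ⟨C, fun j x => trunc_bd hCnn _⟩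
    (fun j i hi => ?_)
  · have hv : (Measure.pi fun _ : Fin n => (volume : Measure ℝ)) = volume := rfl
    rw [hv] at hmain
    filter_upwards [hmain] with a ha
    filter_upwards [ha, hgeq] with x hx hxg
    rw [Metric.tendsto_atTop]
    intro ε hε
    obtain ⟨N₀, hN₀⟩ := hx (ε / 2) (by positivity)
    refine ⟨fun _ => N₀, fun M hM => ?_⟩
    have h1 := hN₀ M (fun l => hM l)
    rw [Real.dist_eq]
    simp only [hxg] at h1
    linarith
  · have h1 : Measurable fun q : X × ℝ => (q.2 * lin (c j) m, q.1) :=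
      (measurable_snd.mul_const _).prodMk measurable_fst
    exact (hf j).comp ((hτ j).meas.comp h1)
  · have hi' : c j i ≠ 0 := mem_supp.mp hi
    filter_upwards [hC k (c j) i hi' X μ (τ j) (f j) (hτ j) (hf j) ⟨C, hCb j⟩, hgeq] with x hx hxg B hB
    filter_upwards [hx B hB] with a ha
    simpa only [hxg j] using ha

theorem boxes_Linf (hC : S_FLWC.{u}) {X : Type u} [MeasurableSpace X] {μ : Measure X} [IsProbabilityMeasure μ] {k n : ℕ}
    {τ : Fin n → ℝ → X → X} (hτ : ∀ j, IsFlow μ (τ j)) {c : Fin n → Fin k → ℝ} (hc : ∀ j, c j ≠ 0)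
    {f : Fin n → X → ℂ} (hf : ∀ j, AEStronglyMeasurable (f j) μ) (hfb : ∀ j, ∃ C : ℝ, ∀ᵐ x ∂μ, ‖f j x‖ ≤ C) :
    ∀ᵐ a : Fin n → ℝ, ∀ᵐ x ∂μ, Tendsto (fun M : Fin k → ℕ => (1 / ((∏ l, M l : ℕ) : ℂ)) * ∑ m ∈ box M,
      ∏ j, f j (τ j (a j * lin (c j) m) x)) atTop (nhds (∏ j, (μ[f j | flowInv (τ j)]) x)) := by
  choose g hgm hgb hfg using fun j => exists_version (hf j) (hfb j)
  choose C hC' using hgb
  have hb : ∃ C' : ℝ, ∀ j x, ‖g j x‖ ≤ C' := by
    refine ⟨∑ j, |C j|, fun j x => (hC' j x).trans ((le_abs_self _).trans ?_)⟩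
    exact Finset.single_le_sum (f := fun j => |C j|) (fun i _ => abs_nonneg _) (Finset.mem_univ j)
  have h1 := cx_gen (μ := μ) (atTop : Filter (Fin k → ℕ)) box (fun M => 1 / ((∏ l, M l : ℕ) : ℝ))
    (volume : Measure (Fin n → ℝ)) (fun j a m => τ j (a * lin (c j) m)) (fun j => flowInv (τ j))
    (fun g hg hgb => boxes_real hC hτ hc hg hgb) hgm hb
  have h2 : ∀ᵐ x ∂μ, ∀ j, (μ[f j | flowInv (τ j)]) x = (μ[g j | flowInv (τ j)]) x := by
    rw [ae_all_iff]
    exact fun j => condExp_congr_ae (hfg j)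
  filter_upwards [h1] with a ha
  have h3 : ∀ᵐ x ∂μ, ∀ (m : Fin k → ℕ) (j : Fin n), f j (τ j (a j * lin (c j) m) x) =
      g j (τ j (a j * lin (c j) m) x) := by
    rw [ae_all_iff]
    intro m
    rw [ae_all_iff]
    intro j
    exact ((hτ j).mp (a j * lin (c j) m)).quasiMeasurePreserving.ae (hfg j)
  filter_upwards [ha, h2, h3] with x hx hx2 hx3
  simp only [hx2, hx3]
  refine hx.congr fun M => ?_
  push_cast
  rfl

/-- actions of `ℝ ^ d`: almost every tuple of vectors, all integer linear forms -/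
theorem boxes_act (hC : S_FLWC.{u}) {X : Type u} [MeasurableSpace X] {μ : Measure X} [IsProbabilityMeasure μ]
    {k n d : ℕ} {σ : (Fin d → ℝ) → X → X} (hσ : IsAct μ σ)
    {f : Fin n → X → ℂ} (hf : ∀ j, AEStronglyMeasurable (f j) μ) (hfb : ∀ j, ∃ C : ℝ, ∀ᵐ x ∂μ, ‖f j x‖ ≤ C) :
    ∀ᵐ v : Fin n → Fin d → ℝ, ∀ c : Fin n → Fin k → ℤ, (∀ j, c j ≠ 0) → ∀ᵐ x ∂μ, ∃ L : ℂ,
      Tendsto (fun M : Fin k → ℕ => (1 / ((∏ l, M l : ℕ) : ℂ)) * ∑ m ∈ box M,
        ∏ j, f j (σ (((∑ i, c j i * (m i : ℤ) : ℤ) : ℝ) • v j) x)) atTop (nhds L) := by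
  choose g hgm hgb hfg using fun j => exists_version (hf j) (hfb j)
  rw [ae_all_iff]
  intro c
  by_cases hc : ∀ j, c j ≠ 0
  swap
  · exact ae_of_all _ fun v h => absurd h hc
  have key : ∀ᵐ v : Fin n → Fin d → ℝ, ∀ᵐ x ∂μ, ∃ L : ℂ,
      Tendsto (fun M : Fin k → ℕ => (1 / ((∏ l, M l : ℕ) : ℂ)) * ∑ m ∈ box M,
        ∏ j, g j (σ (((∑ i, c j i * (m i : ℤ) : ℤ) : ℝ) • v j) x)) atTop (nhds L) := by
    refine ae_of_dil ?_ ?_
    · have hm : ∀ M : Fin k → ℕ, Measurable fun q : (Fin n → Fin d → ℝ) × X => (1 / ((∏ l, M l : ℕ) : ℂ)) *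
          ∑ m ∈ box M, ∏ j, g j (σ (((∑ i, c j i * (m i : ℤ) : ℤ) : ℝ) • q.1 j) q.2) := by
        intro M
        refine measurable_const.mul (Finset.measurable_sum _ fun m _ => Finset.measurable_prod _ fun j _ => ?_)
        refine (hgm j).comp (hσ.meas.comp (Measurable.prodMk ?_ measurable_snd))
        have hj : Measurable fun q : (Fin n → Fin d → ℝ) × X => q.1 j := (measurable_pi_apply j).comp measurable_fst
        exact hj.const_smul ((∑ i, c j i * (m i : ℤ) : ℤ) : ℝ)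
      have h1 := measurableSet_exists_tendsto (l := atTop) hm
      have h2 : Measurable fun v : Fin n → Fin d → ℝ => μ (Prod.mk v ⁻¹' {q : (Fin n → Fin d → ℝ) × X | ∃ L : ℂ,
        Tendsto (fun M : Fin k → ℕ => (1 / ((∏ l, M l : ℕ) : ℂ)) * ∑ m ∈ box M,
          ∏ j, g j (σ (((∑ i, c j i * (m i : ℤ) : ℤ) : ℝ) • q.1 j) q.2)) atTop (nhds L)}ᶜ) :=
        measurable_measure_prodMk_left h1.compl
      exact h2 (measurableSet_singleton 0)
    · intro v
      have h1 := boxes_Linf hC (μ := μ) (τ := fun j t => σ (t • v j)) (fun j => hσ.flow (v j))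
        (c := fun j i => (c j i : ℝ)) (fun j h => hc j (by
          funext i
          have := congrFun h i
          simpa using this)) (f := g) (fun j => (hgm j).aestronglyMeasurable) (fun j => by
            obtain ⟨C, hC⟩ := hgb j
            exact ⟨C, ae_of_all _ hC⟩)
      filter_upwards [h1] with a ha
      filter_upwards [ha] with x hx
      refine ⟨_, hx.congr fun M => ?_⟩
      congr 1
      refine sum_congr rfl fun m _ => prod_congr rfl fun j _ => ?_
      have e1 : lin (fun i => (c j i : ℝ)) m = ((∑ i, c j i * (m i : ℤ) : ℤ) : ℝ) := by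
        unfold lin
        push_cast
        rfl
      rw [e1, smul_smul, mul_comm]
  filter_upwards [key] with v hv _
  have h3 : ∀ᵐ x ∂μ, ∀ (m : Fin k → ℕ) (j : Fin n), f j (σ (((∑ i, c j i * (m i : ℤ) : ℤ) : ℝ) • v j) x) =
      g j (σ (((∑ i, c j i * (m i : ℤ) : ℤ) : ℝ) • v j) x) := by
    rw [ae_all_iff]
    intro m
    rw [ae_all_iff]
    intro j
    exact (hσ.mp _).quasiMeasurePreserving.ae (hfg j)
  filter_upwards [hv, h3] with x hx hx3
  simpa only [hx3] using hx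

end Pool.Agent.Y957.MC
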