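import Mathlib

/-!
Project MC (helper957, MP_4d8f14_an): multiple ergodic averages of arbitrary (not commuting) flows and measure
preserving maps at the times `a_j p_j(n)`, for almost all `(a_1, ..., a_k)` and all sequences `p_j` of polynomial
growth (polynomials, powers).

Definitions and statements of the steps.
-/

set_option autoImplicit false

namespace Pool.Agent.Y957.MC

open MeasureTheory Filter Finset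

universe u

/-- the `k`-th Fourier coefficient of `s ↦ F (M e^s)` on `[0, Λ]` -/
noncomputable def cf (Λ : ℝ) (F : ℝ → ℂ) (M : ℝ) (k : ℤ) : ℂ :=
  (1 / (Λ : ℂ)) * ∫ s in (0 : ℝ)..Λ, F (M * Real.exp s) *
    Complex.exp (-((2 * Real.pi * k / Λ * s : ℝ) : ℂ) * Complex.I)

/-- the exponential sum attached to the coefficients `B`, the indices `I` and the points `y n` -/
noncomputable def bt (Λ : ℝ) (B : ℕ → ℂ) (I : Finset ℕ) (y : ℕ → ℝ) (N : ℕ) (k : ℤ) : ℂ :=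
  (1 / (N : ℂ)) * ∑ n ∈ I, B n * Complex.exp (((2 * Real.pi * k / Λ * Real.log (y n) : ℝ) : ℂ) * Complex.I)

/-- (OSC) the oscillatory integral -/
def S_OSC : Prop := ∀ b : ℝ, 1 ≤ b → ∃ C : ℝ, 0 < C ∧ ∀ M T h t t' α β : ℝ, 0 < M → 0 < T → T ≤ |t| → T ≤ |t'| →
    h ≠ 0 → M ≤ α → α ≤ β → β ≤ b * M → M ≤ α + h → β + h ≤ b * M →
    ‖∫ r in α..β, ((1 / (r * (r + h)) : ℝ) : ℂ) *
        Complex.exp (((-t * Real.log r + t' * Real.log (r + h) : ℝ) : ℂ) * Complex.I)‖ ≤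
      C / Real.sqrt (M * T * |h|)

/-- stationary families of functions on the half line: `F (T x) u = F x (u + 1)` -/
structure Stat {X : Type u} [MeasurableSpace X] (μ : Measure X) (T : X → X) (F : X → ℝ → ℂ) : Prop where
  mp : MeasurePreserving T μ μ
  meas : Measurable (fun p : X × ℝ => F p.1 p.2)
  bdd : ∀ x v, ‖F x v‖ ≤ 1
  shift : ∀ x v, 0 ≤ v → F (T x) v = F x (v + 1)

/-- (SUP) the coefficients of high order of a stationary family are uniformly small on average -/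
def S_SUP : Prop := ∀ Λ : ℝ, 1 ≤ Λ → ∃ C : ℝ, 0 < C ∧ ∀ (X : Type u) [MeasurableSpace X] (μ : Measure X)
    [IsProbabilityMeasure μ] (T : X → X) (F : X → ℝ → ℂ), Stat μ T F → ∀ (M T₀ : ℝ) (κ : X → ℤ), 1 ≤ M → 1 ≤ T₀ →
    Measurable κ → (∀ x, T₀ ≤ |(κ x : ℝ)|) →
    ∫ x, ‖cf Λ (F x) M (κ x)‖ ^ 2 ∂μ ≤ C * (1 / Real.sqrt T₀ + 1 / M)

/-- (PAR) Parseval for one block -/
def S_PAR : Prop := ∀ (Λ : ℝ) (F : ℝ → ℂ) (B : ℕ → ℂ) (I : Finset ℕ) (y : ℕ → ℝ) (A U : ℝ) (N : ℕ), 1 ≤ Λ →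
    Measurable F → (∀ v, ‖F v‖ ≤ 1) → 0 < A → 0 < U → 1 ≤ N → (∀ n ∈ I, 1 ≤ y n ∧ Real.log (2 * y n) ≤ Λ) →
    Summable (fun k : ℤ => ‖cf Λ F (A * U) k‖ ^ 2) ∧ ∑' k : ℤ, ‖cf Λ F (A * U) k‖ ^ 2 ≤ 1 ∧
    ∫ a in A..2 * A, ‖(1 / (N : ℂ)) * ∑ n ∈ I, B n * F (a * (U * y n))‖ ^ 2 ≤
      2 * Λ * A * ∑' k : ℤ, ‖cf Λ F (A * U) k‖ ^ 2 * ‖bt Λ B I y N k‖ ^ 2

/-- (LV) large values of the exponential sums -/
def S_LV : Prop := ∀ (Λ : ℝ) (I : Finset ℕ) (y : ℕ → ℝ) (B : ℕ → ℂ) (N K : ℕ) (D E s : ℝ) (c : ℤ → ℝ)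
    (R : Finset ℤ), 0 < Λ → 1 ≤ N → 1 ≤ K → I.card ≤ N → (∀ n, ‖B n‖ ≤ 1) → 0 ≤ D → 0 ≤ E → 0 ≤ s →
    (∀ k ∈ R, |k| ≤ K) →
    (∀ j : ℤ, j ≠ 0 → |j| ≤ 2 * K →
      ‖∑ n ∈ I, Complex.exp (((2 * Real.pi * j / Λ * Real.log (y n) : ℝ) : ℂ) * Complex.I)‖ ≤
        D * N / |(j : ℝ)| + E) →
    (∀ k ∈ R, 0 ≤ c k ∧ c k ≤ s) → ∑ k ∈ R, c k ≤ 1 →
    ∑ k ∈ R, c k * ‖bt Λ B I y N k‖ ^ 2 ≤ 2 * E / N + 2 * s * (1 + 2 * D * (1 + Real.log (2 * K)))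

/-- (LOW) coefficients of low order -/
def S_LOW : Prop := ∀ (Λ : ℝ) (F : ℝ → ℂ) (G : ℝ), 1 ≤ Λ → Measurable F → (∀ v, ‖F v‖ ≤ 1) →
    (∀ v, 0 ≤ v → ‖∫ s in (0 : ℝ)..v, F s‖ ≤ G) → ∀ M : ℝ, 0 < M → ∀ k : ℤ,
    ‖cf Λ F M k‖ ≤ 7 * G * (1 + |(k : ℝ)|) / M

/-- modulus of continuity in the mean at the scale `M` -/
def Mod (Λ : ℝ) (F : ℝ → ℂ) (C M : ℝ) : Prop :=
  ∀ h : ℝ, 0 < h → h ≤ 1 → ∫ s in (0 : ℝ)..Λ, ‖F (M * Real.exp (s + h)) - F (M * Real.exp s)‖ ≤ C * M * h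

/-- (TAIL) coefficients of very high order -/
def S_TAIL : Prop := ∀ Λ : ℝ, 1 ≤ Λ → ∃ C₀ : ℝ, 0 < C₀ ∧ ∀ (F : ℝ → ℂ) (C M : ℝ) (K : ℕ), Measurable F →
    (∀ v, ‖F v‖ ≤ 1) → 1 ≤ C → 1 ≤ M → Mod Λ F C M → 1 ≤ K → ∀ S : Finset ℤ, (∀ k ∈ S, (K : ℤ) < |k|) →
    ∑ k ∈ S, ‖cf Λ F M k‖ ^ 2 ≤ C₀ * C * M / K

/-- a stationary family with bounded primitives and a modulus of continuity -/
structure Nice {X : Type u} [MeasurableSpace X] (μ : Measure X) (T : X → X) (F : X → ℝ → ℂ) : Prop where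
  stat : Stat μ T F
  prim : ∃ G : ℝ, ∀ x v, 0 ≤ v → ‖∫ s in (0 : ℝ)..v, F x s‖ ≤ G
  mod : ∀ Λ : ℝ, 1 ≤ Λ → ∃ C : ℝ, ∀ x M, 1 ≤ M → Mod Λ (F x) C M

/-- the sequences of times -/
structure Good (p : ℕ → ℝ) : Prop where
  low : ∃ c : ℝ, 0 < c ∧ ∀ᶠ N : ℕ in atTop, (N : ℝ) ^ c ≤ p N
  upp : ∃ D : ℕ, ∀ᶠ N : ℕ in atTop, p N ≤ (N : ℝ) ^ D
  inc : ∀ ε : ℝ, 0 < ε → ∃ c : ℝ, 0 < c ∧ ∀ᶠ N : ℕ in atTop, ∀ n : ℕ, ε * N ≤ n → n ≤ N →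
    c * p N ≤ p n ∧ c * p N / N ≤ p (n + 1) - p n ∧ p (n + 1) - p n ≤ p N / (c * N)
  exp : ∀ (ε : ℝ) (Q : ℕ), 0 < ε → ∃ δ : ℝ, 0 < δ ∧ ∃ C : ℝ, 0 < C ∧ ∀ᶠ N : ℕ in atTop, ∀ κ : ℝ, κ ≠ 0 →
    |κ| ≤ (N : ℝ) ^ Q → ‖∑ n ∈ Ioc ⌊ε * N⌋₊ N, Complex.exp (((κ * Real.log (p n) : ℝ) : ℂ) * Complex.I)‖ ≤
      C * (N / |κ| + (N : ℝ) ^ (1 - δ))

/-- a smooth phase with the derivatives of `d log x` -/
def Phase (φ : ℕ → ℝ → ℝ) (d : ℝ) : Prop := 0 < d ∧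
  (∃ x₀ : ℝ, ∀ (m : ℕ) (x : ℝ), x₀ ≤ x → HasDerivAt (φ m) (φ (m + 1) x) x) ∧
  ∀ m : ℕ, Tendsto (fun x : ℝ => (-1) ^ m * (x ^ (m + 1) * φ (m + 1) x)) atTop (nhds (m.factorial * d))

/-- (EXPG) exponential sums with such phases -/
def S_EXPG : Prop := ∀ (φ : ℕ → ℝ → ℝ) (d : ℝ), Phase φ d → ∀ (ε : ℝ) (Q : ℕ), 0 < ε → ∃ δ : ℝ, 0 < δ ∧
    ∃ C : ℝ, 0 < C ∧ ∀ᶠ N : ℕ in atTop, ∀ κ : ℝ, κ ≠ 0 →
    |κ| ≤ (N : ℝ) ^ Q → ‖∑ n ∈ Ioc ⌊ε * N⌋₊ N, Complex.exp (((κ * φ 0 n : ℝ) : ℂ) * Complex.I)‖ ≤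
      C * (N / |κ| + (N : ℝ) ^ (1 - δ))

/-- functions of polynomial growth: positive near infinity, with a logarithm which is such a phase -/
def Adm (p : ℝ → ℝ) : Prop := ∃ (φ : ℕ → ℝ → ℝ) (d x₀ : ℝ), Phase φ d ∧ ∀ x, x₀ ≤ x → 0 < p x ∧ φ 0 x = Real.log (p x)

/-- (GOODG) -/
def S_GOODG : Prop := ∀ p : ℝ → ℝ, Adm p → Good (fun n : ℕ => p n)

/-- (POLY) -/
def S_POLY : Prop := ∀ P : Polynomial ℝ, 0 < P.natDegree → 0 < P.leadingCoeff → Adm (fun x => P.eval x)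

/-- (POW) -/
def S_POW : Prop := ∀ θ : ℝ, 0 < θ → Adm (fun x => x ^ θ)

/-- (EST) the mean square bound, uniform in the coefficients -/
def S_EST : Prop := ∀ p : ℕ → ℝ, Good p → ∀ (X : Type u) [MeasurableSpace X] (μ : Measure X)
    [IsProbabilityMeasure μ] (T : X → X) (F : X → ℝ → ℂ), Nice μ T F → ∀ ε A : ℝ, 0 < ε → 0 < A →
    ∃ (R : ℕ → X → ℝ) (C δ : ℝ), 0 < δ ∧ (∀ N, Measurable (R N)) ∧ (∀ N x, 0 ≤ R N x) ∧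
      (∀ᶠ N : ℕ in atTop, Integrable (R N) μ ∧ ∫ x, R N x ∂μ ≤ C * (N : ℝ) ^ (-δ)) ∧
      ∀ᶠ N : ℕ in atTop, ∀ (x : X) (B : ℕ → ℂ), (∀ n, ‖B n‖ ≤ 1) →
        ∫ a in A..2 * A, ‖(1 / (N : ℂ)) * ∑ n ∈ Ioc ⌊ε * N⌋₊ N, B n * F x (a * p n)‖ ^ 2 ≤ R N x

/-- (NICE) for almost every `x`: for every bounded sequence `B`, for almost every `a > 0` the sequence
`F x (a p n)` is orthogonal to `B` -/
def S_NICE : Prop := ∀ p : ℕ → ℝ, Good p → ∀ (X : Type u) [MeasurableSpace X] (μ : Measure X)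
    [IsProbabilityMeasure μ] (T : X → X) (F : X → ℝ → ℂ), Nice μ T F → ∀ᵐ x ∂μ, ∀ B : ℕ → ℂ, (∀ n, ‖B n‖ ≤ 1) →
    ∀ᵐ a : ℝ ∂(volume.restrict (Set.Ioi (0 : ℝ))),
      Tendsto (fun N : ℕ => (1 / (N : ℂ)) * ∑ n ∈ Icc 1 N, B n * F x (a * p n)) atTop (nhds 0)

/-- (SGL) averages of a nonnegative process with stationary covariance at the times `a p n` are controlled by its
averages over intervals; `K` depends only on `p` -/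
def S_SGL : Prop := ∀ p : ℕ → ℝ, Good p → ∃ K : ℝ → ℝ, (∀ ε, 0 < K ε) ∧ ∀ (X : Type u) [MeasurableSpace X]
    (μ : Measure X) [IsProbabilityMeasure μ] (F : X → ℝ → ℝ) (R : ℝ → ℝ), Measurable (fun q : X × ℝ => F q.1 q.2) →
    (∀ x v, 0 ≤ F x v ∧ F x v ≤ 1) → (∀ v w, 1 ≤ v → v ≤ w → ∫ x, F x v * F x w ∂μ = R (w - v)) →
    ∀ᵐ x ∂μ, ∀ᵐ a : ℝ ∂(volume.restrict (Set.Ioi (0 : ℝ))), ∀ ε L : ℝ, 0 < ε →
      (∀ᶠ V : ℝ in atTop, (1 / V) * ∫ v in (0 : ℝ)..V, F x v ≤ L) →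
      ∀ᶠ N : ℕ in atTop, (1 / (N : ℝ)) * ∑ n ∈ Icc 1 N, F x (a * p n) ≤ ε + K ε * L

/-- (BTY1) Beatty times, coboundaries -/
def S_BTY1 : Prop := ∀ p : ℕ → ℝ, Good p → ∀ (X : Type u) [MeasurableSpace X] (μ : Measure X)
    [IsProbabilityMeasure μ] (T : X → X) (g : X → ℝ), MeasurePreserving T μ μ → Measurable g →
    (∃ C, ∀ x, |g x| ≤ C) → ∀ m : ℕ, 1 ≤ m →
    ∀ᵐ x ∂μ, ∀ B : ℕ → ℂ, (∀ n, ‖B n‖ ≤ 1) → ∀ᵐ a : ℝ ∂(volume.restrict (Set.Ioi (0 : ℝ))),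
      Tendsto (fun N : ℕ => (1 / (N : ℂ)) * ∑ n ∈ Icc 1 N, B n *
        (((g (T^[⌊a * p n⌋₊] x) - (1 / (m : ℝ)) * ∑ i ∈ range m, g (T^[⌊a * p n⌋₊ + i] x) : ℝ)) : ℂ))
        atTop (nhds 0)

/-- (BTY2) Beatty times, the error term -/
def S_BTY2 : Prop := ∀ p : ℕ → ℝ, Good p → ∃ K : ℝ → ℝ, (∀ ε, 0 < K ε) ∧ ∀ (X : Type u) [MeasurableSpace X]
    (μ : Measure X) [IsProbabilityMeasure μ] (T : X → X) (e : X → ℝ), MeasurePreserving T μ μ → Measurable e →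
    (∀ x, 0 ≤ e x ∧ e x ≤ 1) → ∀ᵐ x ∂μ, ∀ᵐ a : ℝ ∂(volume.restrict (Set.Ioi (0 : ℝ))), ∀ ε : ℝ, 0 < ε →
      ∀ᶠ N : ℕ in atTop, (1 / (N : ℝ)) * ∑ n ∈ Icc 1 N, e (T^[⌊a * p n⌋₊] x) ≤
        ε + K ε * (μ[e | MeasurableSpace.invariants T]) x

/-- (BTY) Beatty times, one arbitrary map, every bounded sequence of weights -/
def S_BTY : Prop := ∀ p : ℕ → ℝ, Good p → ∀ (X : Type u) [MeasurableSpace X] (μ : Measure X)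
    [IsProbabilityMeasure μ] (T : X → X) (g : X → ℝ), MeasurePreserving T μ μ → Measurable g →
    (∃ C, ∀ x, |g x| ≤ C) →
    ∀ᵐ x ∂μ, ∀ B : ℕ → ℂ, (∀ n, ‖B n‖ ≤ 1) → ∀ᵐ a : ℝ ∂(volume.restrict (Set.Ioi (0 : ℝ))),
      Tendsto (fun N : ℕ => (1 / (N : ℂ)) * ∑ n ∈ Icc 1 N, B n *
        (((g (T^[⌊a * p n⌋₊] x) - (μ[g | MeasurableSpace.invariants T]) x : ℝ)) : ℂ)) atTop (nhds 0)

/-- measurable measure preserving flows -/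
structure IsFlow {X : Type u} [MeasurableSpace X] (μ : Measure X) (τ : ℝ → X → X) : Prop where
  meas : Measurable (fun p : ℝ × X => τ p.1 p.2)
  zero : ∀ x, τ 0 x = x
  add : ∀ s t x, τ (s + t) x = τ s (τ t x)
  mp : ∀ t, MeasurePreserving (τ t) μ μ

/-- the σ-algebra of the measurable sets invariant under a flow -/
@[instance_reducible]
def flowInv {X : Type u} [MeasurableSpace X] (τ : ℝ → X → X) : MeasurableSpace X :=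
  ⨅ t : ℝ, MeasurableSpace.invariants (τ t)

/-- the average of `h` over `[0, δ]` along the flow -/
noncomputable def smo {X : Type u} (τ : ℝ → X → X) (h : X → ℝ) (δ : ℝ) (x : X) : ℝ :=
  (1 / δ) * ∫ r in (0 : ℝ)..δ, h (τ r x)

/-- (FLWB) the ergodic theorem for flows -/
def S_FLWB : Prop := ∀ (X : Type u) [MeasurableSpace X] (μ : Measure X) [IsProbabilityMeasure μ]
    (τ : ℝ → X → X) (g : X → ℝ), IsFlow μ τ → Measurable g → (∃ C, ∀ x, |g x| ≤ C) →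
    ∀ᵐ x ∂μ, Tendsto (fun V : ℝ => smo τ g V x) atTop (nhds ((μ[g | flowInv τ]) x))

/-- (FLW1) times of a flow, smooth coboundaries -/
def S_FLW1 : Prop := ∀ p : ℕ → ℝ, Good p → ∀ (X : Type u) [MeasurableSpace X] (μ : Measure X)
    [IsProbabilityMeasure μ] (τ : ℝ → X → X) (g : X → ℝ), IsFlow μ τ → Measurable g → (∃ C, ∀ x, |g x| ≤ C) →
    ∀ δ S : ℝ, 0 < δ → 0 < S →
    ∀ᵐ x ∂μ, ∀ B : ℕ → ℂ, (∀ n, ‖B n‖ ≤ 1) → ∀ᵐ a : ℝ ∂(volume.restrict (Set.Ioi (0 : ℝ))),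
      Tendsto (fun N : ℕ => (1 / (N : ℂ)) * ∑ n ∈ Icc 1 N, B n *
        (((smo τ g δ (τ (a * p n) x) - smo τ (smo τ g δ) S (τ (a * p n) x) : ℝ)) : ℂ)) atTop (nhds 0)

/-- (FLW2) times of a flow, the error term -/
def S_FLW2 : Prop := ∀ p : ℕ → ℝ, Good p → ∃ K : ℝ → ℝ, (∀ ε, 0 < K ε) ∧ ∀ (X : Type u) [MeasurableSpace X]
    (μ : Measure X) [IsProbabilityMeasure μ] (τ : ℝ → X → X) (e : X → ℝ), IsFlow μ τ → Measurable e →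
    (∀ x, 0 ≤ e x ∧ e x ≤ 1) → ∀ᵐ x ∂μ, ∀ᵐ a : ℝ ∂(volume.restrict (Set.Ioi (0 : ℝ))), ∀ ε : ℝ, 0 < ε →
      ∀ᶠ N : ℕ in atTop, (1 / (N : ℝ)) * ∑ n ∈ Icc 1 N, e (τ (a * p n) x) ≤
        ε + K ε * (μ[e | flowInv τ]) x

/-- (FLW) times of a flow, every bounded sequence of weights -/
def S_FLW : Prop := ∀ p : ℕ → ℝ, Good p → ∀ (X : Type u) [MeasurableSpace X] (μ : Measure X)
    [IsProbabilityMeasure μ] (τ : ℝ → X → X) (g : X → ℝ), IsFlow μ τ → Measurable g → (∃ C, ∀ x, |g x| ≤ C) →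
    ∀ᵐ x ∂μ, ∀ B : ℕ → ℂ, (∀ n, ‖B n‖ ≤ 1) → ∀ᵐ a : ℝ ∂(volume.restrict (Set.Ioi (0 : ℝ))),
      Tendsto (fun N : ℕ => (1 / (N : ℂ)) * ∑ n ∈ Icc 1 N, B n *
        (((g (τ (a * p n) x) - (μ[g | flowInv τ]) x : ℝ)) : ℂ)) atTop (nhds 0)

/-- (PROD) products: from one factor and all bounded weights to products of `k` factors with independent
parameters -/
def S_PROD : Prop := ∀ (X : Type u) [MeasurableSpace X] (μ : Measure X) [IsProbabilityMeasure μ] (k : ℕ)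
    (ν : Measure ℝ) [SigmaFinite ν] (φ : Fin k → X → ℝ → ℕ → ℝ) (g : Fin k → X → ℝ),
    (∀ j n, Measurable (fun q : X × ℝ => φ j q.1 q.2 n)) → (∀ j, Measurable (g j)) →
    (∃ C, ∀ j x a n, |φ j x a n| ≤ C) → (∃ C, ∀ j x, |g j x| ≤ C) →
    (∀ j, ∀ᵐ x ∂μ, ∀ B : ℕ → ℂ, (∀ n, ‖B n‖ ≤ 1) → ∀ᵐ a : ℝ ∂ν,
      Tendsto (fun N : ℕ => (1 / (N : ℂ)) * ∑ n ∈ Icc 1 N, B n * (((φ j x a n - g j x : ℝ)) : ℂ)) atTop (nhds 0)) →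
    ∀ᵐ a : Fin k → ℝ ∂(Measure.pi fun _ => ν), ∀ᵐ x ∂μ,
      Tendsto (fun N : ℕ => (1 / (N : ℝ)) * ∑ n ∈ Icc 1 N, ∏ j, φ j x (a j) n) atTop (nhds (∏ j, g j x))

end Pool.Agent.Y957.MC
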