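import Pool.Agent.Y48.MC.Flwb

set_option autoImplicit false

/-! Smooth coboundaries along a flow. -/

namespace Pool.Agent.Y957.MC

open MeasureTheory Filter Finset
open Pool.Agent.Y48.MC (orb_meas orb_int orb_bd orb_shift smo_meas smo_bd)

universe u

section
variable {X : Type u} [MeasurableSpace X] {μ : Measure X} {τ : ℝ → X → X} {g : X → ℝ} {C : ℝ}

lemma smo_lip (hτ : IsFlow μ τ) (hg : Measurable g) (hC : ∀ x, |g x| ≤ C) {δ : ℝ} (hδ : 0 < δ) (x : X)
    (u v : ℝ) : |smo τ g δ (τ u x) - smo τ g δ (τ v x)| ≤ 2 * C / δ * |u - v| := by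
  have hI := fun a b => orb_int hτ hg hC x a b
  unfold smo
  rw [orb_shift hτ, orb_shift hτ, ← mul_sub, abs_mul, abs_of_pos (by positivity : (0 : ℝ) < 1 / δ)]
  have e : (∫ r in (0 + u)..(δ + u), g (τ r x)) - ∫ r in (0 + v)..(δ + v), g (τ r x) =
      (∫ r in (δ + v)..(δ + u), g (τ r x)) - ∫ r in (0 + v)..(0 + u), g (τ r x) := by
    have h1 := intervalIntegral.integral_add_adjacent_intervals (hI (0 + v) (δ + v)) (hI (δ + v) (δ + u))
    have h2 := intervalIntegral.integral_add_adjacent_intervals (hI (0 + v) (0 + u)) (hI (0 + u) (δ + u))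
    linarith
  rw [e]
  have b1 := orb_bd (τ := τ) hC x (δ + v) (δ + u)
  have b2 := orb_bd (τ := τ) hC x (0 + v) (0 + u)
  rw [show δ + u - (δ + v) = u - v by ring] at b1
  rw [show 0 + u - (0 + v) = u - v by ring] at b2
  calc _ ≤ 1 / δ * (C * |u - v| + C * |u - v|) := by
        gcongr
        exact (abs_sub _ _).trans (add_le_add b1 b2)
    _ = _ := by ring

lemma prim_bd (hτ : IsFlow μ τ) (hg : Measurable g) (hC : ∀ x, |g x| ≤ C) {S : ℝ} (hS : 0 < S) (x : X)
    {v : ℝ} (hv : 0 ≤ v) : |∫ u in (0 : ℝ)..v, (g (τ u x) - smo τ g S (τ u x))| ≤ 2 * C * S := by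
  have hC0 : 0 ≤ C := (abs_nonneg _).trans (hC x)
  have hI := fun a b => orb_int hτ hg hC x a b
  have hm : Measurable fun u => smo τ g S (τ u x) := orb_meas hτ (smo_meas hτ hg hS.le) x
  have hI2 : IntervalIntegrable (fun u => smo τ g S (τ u x)) volume 0 v :=
    orb_int hτ (smo_meas hτ hg hS.le) (smo_bd hC0 hC hS.le) x 0 v
  rw [intervalIntegral.integral_sub (hI 0 v) hI2]
  have e1 : ∫ u in (0 : ℝ)..v, smo τ g S (τ u x) = (1 / S) * ∫ r in (0 : ℝ)..S, ∫ u in (0 : ℝ)..v, g (τ (r + u) x) := by
    unfold smo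
    rw [intervalIntegral.integral_const_mul]
    congr 1
    have hmm : Measurable (Function.uncurry fun u r : ℝ => g (τ (r + u) x)) := by
      have : Measurable fun q : ℝ × ℝ => g (τ (q.2 + q.1) x) :=
        (orb_meas hτ hg x).comp (measurable_snd.add measurable_fst)
      exact this
    have hsw := intervalIntegral_intervalIntegral_swap (F := fun u r => g (τ (r + u) x)) (a := 0) (b := v)
      (c := 0) (d := S) (by
        refine Measure.integrableOn_of_bounded (M := C) ?_ hmm.aestronglyMeasurable ?_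
        · rw [Measure.volume_eq_prod, Measure.prod_prod]
          rw [Set.uIoc_of_le hv, Set.uIoc_of_le hS.le, Real.volume_Ioc, Real.volume_Ioc]
          exact ENNReal.mul_ne_top ENNReal.ofReal_ne_top ENNReal.ofReal_ne_top
        · exact ae_of_all _ fun q => by rw [Real.norm_eq_abs]; exact hC _)
    rw [← hsw]
    refine intervalIntegral.integral_congr fun u _ => intervalIntegral.integral_congr fun r _ => ?_
    simp only [hτ.add]
  have e2 : ∫ u in (0 : ℝ)..v, g (τ u x) = (1 / S) * ∫ r in (0 : ℝ)..S, ∫ u in (0 : ℝ)..v, g (τ u x) := by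
    rw [intervalIntegral.integral_const, smul_eq_mul]
    field_simp
    ring
  have hcont : Continuous fun r : ℝ => ∫ u in (0 : ℝ)..v, g (τ (r + u) x) := by
    have h1 : ∀ r : ℝ, ∫ u in (0 : ℝ)..v, g (τ (r + u) x) = 
        (∫ u in (0 : ℝ)..(r + v), g (τ u x)) - ∫ u in (0 : ℝ)..r, g (τ u x) := by
      intro r
      rw [intervalIntegral.integral_comp_add_left (fun u => g (τ u x)) r, add_zero]
      have := intervalIntegral.integral_add_adjacent_intervals (hI 0 r) (hI r (r + v))
      linarith
    simp_rw [h1]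
    have hp : Continuous fun r : ℝ => ∫ u in (0 : ℝ)..r, g (τ u x) :=
      intervalIntegral.continuous_primitive (fun a b => hI a b) 0
    exact (hp.comp (continuous_id.add continuous_const)).sub hp
  rw [e1, e2, ← mul_sub, ← intervalIntegral.integral_sub (intervalIntegrable_const) (hcont.intervalIntegrable 0 S),
    abs_mul, abs_of_pos (by positivity : (0 : ℝ) < 1 / S)]
  have h3 : |∫ r in (0 : ℝ)..S, ((∫ u in (0 : ℝ)..v, g (τ u x)) - ∫ u in (0 : ℝ)..v, g (τ (r + u) x))| ≤
      (2 * C * S) * |S - 0| := by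
    rw [← Real.norm_eq_abs]
    refine intervalIntegral.norm_integral_le_of_norm_le_const fun r hr => ?_
    rw [Set.uIoc_of_le hS.le] at hr
    rw [Real.norm_eq_abs, intervalIntegral.integral_comp_add_left (fun u => g (τ u x)) r, add_zero]
    have e : (∫ u in (0 : ℝ)..v, g (τ u x)) - ∫ u in r..(r + v), g (τ u x) =
        (∫ u in (0 : ℝ)..r, g (τ u x)) - ∫ u in v..(r + v), g (τ u x) := by
      have h1 := intervalIntegral.integral_add_adjacent_intervals (hI 0 r) (hI r (r + v))
      have h2 := intervalIntegral.integral_add_adjacent_intervals (hI 0 v) (hI v (r + v))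
      linarith
    rw [e]
    have b1 := orb_bd (τ := τ) hC x 0 r
    have b2 := orb_bd (τ := τ) hC x v (r + v)
    rw [sub_zero, abs_of_pos hr.1] at b1
    rw [show r + v - v = r by ring, abs_of_pos hr.1] at b2
    calc _ ≤ C * r + C * r := (abs_sub _ _).trans (add_le_add b1 b2)
      _ = 2 * C * r := by ring
      _ ≤ 2 * C * S := by
        have := hr.2
        gcongr
  rw [sub_zero, abs_of_pos hS] at h3
  calc _ ≤ 1 / S * (2 * C * S * S) := by gcongr
    _ = _ := by field_simp

end

theorem flw1 (h : S_NICE.{u}) : S_FLW1.{u} := by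
  intro p hp X _ μ _ τ g hτ hg hgb δ S hδ hS
  obtain ⟨C, hC⟩ := hgb
  obtain ⟨x0⟩ : Nonempty X := by
    by_contra hne
    rw [not_nonempty_iff] at hne
    have := measure_univ (μ := μ)
    rw [Set.eq_empty_of_isEmpty (Set.univ : Set X), measure_empty] at this
    exact zero_ne_one this
  have hC0 : 0 ≤ C := (abs_nonneg _).trans (hC x0)
  set D : ℝ := 2 * C + 1 with hD
  have hD0 : 0 < D := by positivity
  set k : X → ℝ := smo τ g δ with hk
  have hkm : Measurable k := smo_meas hτ hg hδ.le
  have hkb : ∀ x, |k x| ≤ C := smo_bd hC0 hC hδ.le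
  set f : X → ℝ := fun x => k x - smo τ k S x with hf
  have hfm : Measurable f := hkm.sub (smo_meas hτ hkm hS.le)
  have hfb : ∀ x, |f x| ≤ 2 * C := by
    intro x
    have h1 := hkb x
    have h2 := smo_bd (τ := τ) hC0 hkb hS.le x
    calc |f x| ≤ |k x| + |smo τ k S x| := abs_sub _ _
      _ ≤ 2 * C := by linarith
  set L : ℝ := 2 * C / δ + 2 * C / S with hL
  have hL0 : 0 ≤ L := by positivity
  have hlip : ∀ x u v, |f (τ u x) - f (τ v x)| ≤ L * |u - v| := by
    intro x u v
    have h1 := smo_lip hτ hg hC hδ x u v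
    have h2 := smo_lip hτ hkm hkb hS x u v
    have e : f (τ u x) - f (τ v x) = (smo τ g δ (τ u x) - smo τ g δ (τ v x)) -
        (smo τ k S (τ u x) - smo τ k S (τ v x)) := by simp only [hf, hk]; ring
    rw [e]
    calc _ ≤ 2 * C / δ * |u - v| + 2 * C / S * |u - v| := (abs_sub _ _).trans (add_le_add h1 h2)
      _ = _ := by ring
  set F : X → ℝ → ℂ := fun x u => ((f (τ u x) / D : ℝ) : ℂ) with hF
  have hnorm : ∀ x u, ‖F x u‖ = |f (τ u x)| / D := by
    intro x u
    simp only [hF]
    rw [Complex.norm_real, Real.norm_eq_abs, abs_div, abs_of_pos hD0]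
  have hstat : Stat μ (τ 1) F := by
    refine ⟨hτ.mp 1, ?_, ?_, ?_⟩
    · have h1 : Measurable fun q : X × ℝ => f (τ q.2 q.1) := hfm.comp (hτ.meas.comp measurable_swap)
      exact Complex.measurable_ofReal.comp (h1.div_const D)
    · intro x v
      rw [hnorm, div_le_one hD0]
      exact (hfb _).trans (by rw [hD]; linarith)
    · intro x v _
      simp only [hF]
      rw [hτ.add]
  have hnice : Nice μ (τ 1) F := by
    refine ⟨hstat, ⟨2 * C * S / D, ?_⟩, ?_⟩
    · intro x v hv
      have e : ∫ s in (0 : ℝ)..v, F x s = (((∫ s in (0 : ℝ)..v, (k (τ s x) - smo τ k S (τ s x))) / D : ℝ) : ℂ) := by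
        simp only [hF, hf]
        rw [intervalIntegral.integral_ofReal, intervalIntegral.integral_div]
      rw [e, Complex.norm_real, Real.norm_eq_abs, abs_div, abs_of_pos hD0]
      have := prim_bd hτ hkm hkb hS x hv
      gcongr
    · intro Λ hΛ
      refine ⟨L / D * (2 * Real.exp Λ) * Λ, fun x M hM t ht0 ht1 => ?_⟩
      have h1 : ‖∫ s in (0 : ℝ)..Λ, ‖F x (M * Real.exp (s + t)) - F x (M * Real.exp s)‖‖ ≤
          (L / D * (2 * Real.exp Λ) * M * t) * |Λ - 0| := by
        refine intervalIntegral.norm_integral_le_of_norm_le_const fun s hs => ?_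
        rw [Set.uIoc_of_le (by linarith)] at hs
        rw [norm_norm]
        have e1 : F x (M * Real.exp (s + t)) - F x (M * Real.exp s) =
            (((f (τ (M * Real.exp (s + t)) x) - f (τ (M * Real.exp s) x)) / D : ℝ) : ℂ) := by
          simp only [hF]; push_cast; ring
        rw [e1, Complex.norm_real, Real.norm_eq_abs, abs_div, abs_of_pos hD0]
        have h2 := hlip x (M * Real.exp (s + t)) (M * Real.exp s)
        have h3 : |M * Real.exp (s + t) - M * Real.exp s| ≤ M * Real.exp Λ * (2 * t) := by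
          have e2 : M * Real.exp (s + t) - M * Real.exp s = M * Real.exp s * (Real.exp t - 1) := by
            rw [Real.exp_add]; ring
          have h4 : Real.exp t - 1 ≤ 2 * t := by
            have h5 : |Real.exp t - 1 - t| ≤ t ^ 2 := Real.abs_exp_sub_one_sub_id_le (by rw [abs_of_pos ht0]; exact ht1)
            have h6 := (abs_le.mp h5).2
            nlinarith
          have h5 : 0 ≤ Real.exp t - 1 := by
            have := Real.add_one_le_exp t; linarith
          rw [e2, abs_of_nonneg (by positivity)]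
          have h6 : Real.exp s ≤ Real.exp Λ := Real.exp_le_exp.mpr hs.2
          gcongr
        calc |f (τ (M * Real.exp (s + t)) x) - f (τ (M * Real.exp s) x)| / D ≤
              (L * (M * Real.exp Λ * (2 * t))) / D := by
              gcongr
              exact h2.trans (by gcongr)
          _ = _ := by ring
      rw [sub_zero, abs_of_pos (by linarith : 0 < Λ)] at h1
      calc _ ≤ ‖∫ s in (0 : ℝ)..Λ, ‖F x (M * Real.exp (s + t)) - F x (M * Real.exp s)‖‖ := Real.le_norm_self _
        _ ≤ _ := h1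
        _ = _ := by ring
  have hmain := h p hp X μ (τ 1) F hnice
  filter_upwards [hmain] with x hx B hB
  filter_upwards [hx B hB] with a ha
  have h2 := ha.const_mul (D : ℂ)
  rw [mul_zero] at h2
  refine h2.congr fun N => ?_
  rw [← mul_assoc, mul_comm (D : ℂ), mul_assoc, mul_sum]
  congr 1
  refine sum_congr rfl fun n _ => ?_
  simp only [hF, hf, hk]
  have hDc : (D : ℂ) ≠ 0 := by exact_mod_cast hD0.ne'
  push_cast
  field_simp

end Pool.Agent.Y957.MC
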