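import Pool.Agent.Y957.MC.Spec

set_option autoImplicit false

/-! Measurability of the coefficients, measurable choice of a maximum. -/

namespace Pool.Agent.Y957.MC

open MeasureTheory Filter Finset

universe u

lemma measurable_sel {X : Type u} [MeasurableSpace X] {β : Type*} [MeasurableSpace β] (u : ℤ → X → β)
    (hu : ∀ k, Measurable (u k)) {κ : X → ℤ} (hκ : Measurable κ) : Measurable fun x => u (κ x) x := by
  have h : Measurable (fun q : X × ℤ => u q.2 q.1) := measurable_from_prod_countable_left (fun k => hu k)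
  exact h.comp (measurable_id.prodMk hκ)

/-- argmax over a finite set -/
lemma exists_argmax {X : Type u} [MeasurableSpace X] (u : ℤ → X → ℝ) (hu : ∀ k, Measurable (u k)) (S : Finset ℤ)
    (hS : S.Nonempty) : ∃ κ : X → ℤ, Measurable κ ∧ (∀ x, κ x ∈ S) ∧ ∀ x, ∀ k ∈ S, u k x ≤ u (κ x) x := by
  classical
  induction hS using Finset.Nonempty.cons_induction with
  | singleton a =>
    exact ⟨fun _ => a, measurable_const, fun _ => by simp, fun x k hk => by
      rw [mem_singleton] at hk; rw [hk]⟩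
  | cons a s ha hs ih =>
    obtain ⟨κ, h1, h2, h3⟩ := ih
    have hm : Measurable fun x => u (κ x) x := measurable_sel u hu h1
    refine ⟨fun x => if u (κ x) x ≤ u a x then a else κ x, ?_, ?_, ?_⟩
    · exact Measurable.ite (measurableSet_le hm (hu a)) measurable_const h1
    · intro x
      by_cases h : u (κ x) x ≤ u a x
      · simp [h]
      · simp [h, h2 x]
    · intro x k hk
      rw [mem_cons] at hk
      by_cases h : u (κ x) x ≤ u a x
      · simp only [h, if_true]
        rcases hk with rfl | hk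
        · exact le_rfl
        · exact (h3 x k hk).trans h
      · simp only [h, if_false]
        rcases hk with rfl | hk
        · exact (not_le.mp h).le
        · exact h3 x k hk

lemma measurable_cf {X : Type u} [MeasurableSpace X] {F : X → ℝ → ℂ} (hF : Measurable (fun p : X × ℝ => F p.1 p.2))
    {Λ : ℝ} (hΛ : 0 ≤ Λ) (M : ℝ) (k : ℤ) : Measurable fun x => cf Λ (F x) M k := by
  unfold cf
  refine measurable_const.mul ?_
  simp_rw [intervalIntegral.integral_of_le hΛ]
  have h : Measurable (fun q : X × ℝ => F q.1 (M * Real.exp q.2) *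
      Complex.exp (-((2 * Real.pi * k / Λ * q.2 : ℝ) : ℂ) * Complex.I)) := by
    refine Measurable.mul ?_ ?_
    · exact hF.comp (measurable_fst.prodMk (measurable_const.mul (Real.measurable_exp.comp measurable_snd)))
    · fun_prop
  exact (h.stronglyMeasurable.integral_prod_right' (ν := volume.restrict (Set.Ioc 0 Λ))).measurable

lemma cf_norm_le {F : ℝ → ℂ} (hF : ∀ v, ‖F v‖ ≤ 1) {Λ : ℝ} (hΛ : 1 ≤ Λ) (M : ℝ) (k : ℤ) : ‖cf Λ F M k‖ ≤ 1 := by
  unfold cf
  have h1 : ‖∫ s in (0 : ℝ)..Λ, F (M * Real.exp s) * Complex.exp (-((2 * Real.pi * k / Λ * s : ℝ) : ℂ) * Complex.I)‖ ≤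
      1 * |Λ - 0| := by
    refine intervalIntegral.norm_integral_le_of_norm_le_const fun s _ => ?_
    rw [norm_mul]
    have : ‖Complex.exp (-((2 * Real.pi * k / Λ * s : ℝ) : ℂ) * Complex.I)‖ = 1 := by
      rw [← Complex.ofReal_neg, Complex.norm_exp_ofReal_mul_I]
    rw [this, mul_one]
    exact hF _
  rw [norm_mul]
  have h2 : ‖(1 / (Λ : ℂ))‖ = 1 / Λ := by
    rw [norm_div, norm_one, Complex.norm_real, Real.norm_of_nonneg (by linarith)]
  rw [h2]
  rw [sub_zero, abs_of_nonneg (by linarith), one_mul] at h1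
  calc 1 / Λ * _ ≤ 1 / Λ * Λ := by gcongr
    _ = 1 := by field_simp

lemma bt_norm_le {Λ : ℝ} {B : ℕ → ℂ} (hB : ∀ n, ‖B n‖ ≤ 1) {I : Finset ℕ} {y : ℕ → ℝ} {N : ℕ} (hN : 1 ≤ N)
    (hI : I.card ≤ N) (k : ℤ) : ‖bt Λ B I y N k‖ ≤ 1 := by
  unfold bt
  have hN' : (0 : ℝ) < N := by exact_mod_cast hN
  have h1 : ‖∑ n ∈ I, B n * Complex.exp (((2 * Real.pi * k / Λ * Real.log (y n) : ℝ) : ℂ) * Complex.I)‖ ≤ N := by
    refine (norm_sum_le _ _).trans ?_
    calc _ ≤ ∑ n ∈ I, (1 : ℝ) := by
          refine sum_le_sum fun n _ => ?_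
          rw [norm_mul, Complex.norm_exp_ofReal_mul_I, mul_one]
          exact hB n
      _ = I.card := by simp
      _ ≤ N := by exact_mod_cast hI
  rw [norm_mul, norm_div, norm_one, Complex.norm_natCast]
  calc 1 / (N : ℝ) * _ ≤ 1 / (N : ℝ) * N := by gcongr
    _ = 1 := by field_simp

end Pool.Agent.Y957.MC
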