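import Pool.Agent.Y957.MC.Spec

/-!
Project MC (helper957), third part: discrete and continuous multiple averages at almost all times, weights
with power saving against all `n^{it}` (MP_9721b5_an).
-/

set_option autoImplicit false

namespace Pool.Agent.Y957.MC

open MeasureTheory Filter Finset

universe u

/-- `B - b` is orthogonal to all `n^{iκ}`, with a power saving, uniformly for `|κ| ≤ N^Q` -/
def PSav (B : ℕ → ℂ) (b : ℂ) : Prop := ∀ (ε : ℝ) (Q : ℕ), 0 < ε → ∃ δ : ℝ, 0 < δ ∧ ∃ C : ℝ, 0 < C ∧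
    ∀ᶠ N : ℕ in atTop, ∀ κ : ℝ, |κ| ≤ (N : ℝ) ^ Q →
    ‖∑ n ∈ Ioc ⌊ε * N⌋₊ N, (B n - b) * Complex.exp (((κ * Real.log n : ℝ) : ℂ) * Complex.I)‖ ≤
      C * (N : ℝ) ^ (1 - δ)

/-- (DET) deterministic functions -/
def S_DET : Prop := ∀ (B : ℕ → ℂ) (b : ℂ), PSav B b → (∃ C : ℝ, ∀ n, ‖B n‖ ≤ C) → ∀ F : ℝ → ℂ, Measurable F →
    (∀ v, ‖F v‖ ≤ 1) → (∀ Λ : ℝ, 1 ≤ Λ → ∃ C : ℝ, ∀ M : ℝ, 1 ≤ M → Mod Λ F C M) →
    ∀ᵐ a : ℝ ∂(volume.restrict (Set.Ioi (0 : ℝ))),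
      Tendsto (fun N : ℕ => (1 / (N : ℂ)) * ∑ n ∈ Icc 1 N, (B n - b) * F (a * n)) atTop (nhds 0)

/-- (PSQ) multiples of `q` -/
def S_PSQ : Prop := ∀ q : ℕ, 1 ≤ q → PSav (fun n => if q ∣ n then (q : ℂ) else 0) 1

/-- (PSE) exponentials -/
def S_PSE : Prop := ∀ α : ℝ, (∀ k : ℤ, α ≠ k) →
    PSav (fun n => Complex.exp (((2 * Real.pi * α * n : ℝ) : ℂ) * Complex.I)) 0

/-- (RIE) discrete and continuous averages of Lipschitz functions -/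
def S_RIE : Prop := ∀ (F : ℝ → ℂ) (L : ℝ), (∀ v, ‖F v‖ ≤ 1) → (∀ v w, ‖F v - F w‖ ≤ L * |v - w|) →
    ∀ᵐ a : ℝ ∂(volume.restrict (Set.Ioi (0 : ℝ))),
      Tendsto (fun N : ℕ => (1 / (N : ℂ)) * ∑ n ∈ Icc 1 N, F (a * n) -
        (1 / ((a * N : ℝ) : ℂ)) * ∫ v in (0 : ℝ)..(a * N), F v) atTop (nhds 0)

/-- (MUL) several flows, speeds `c j`, one common time parameter `a` -/
def S_MUL : Prop := ∀ (B : ℕ → ℂ) (b : ℂ), PSav B b → (∃ C : ℝ, ∀ n, ‖B n‖ ≤ C) →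
    ∀ (X : Type u) [MeasurableSpace X] (μ : Measure X) [IsProbabilityMeasure μ] (m : ℕ) (τ : Fin m → ℝ → X → X)
    (c : Fin m → ℝ) (f : Fin m → X → ℝ), (∀ j, IsFlow μ (τ j)) → (∀ j, c j ≠ 0) → (∀ j, Measurable (f j)) →
    (∃ C, ∀ j x, |f j x| ≤ C) →
    ∀ᵐ x ∂μ, ∀ᵐ a : ℝ ∂(volume.restrict (Set.Ioi (0 : ℝ))),
      Tendsto (fun N : ℕ => (1 / (N : ℂ)) * ∑ n ∈ Icc 1 N, B n * ((∏ j, f j (τ j (c j * (a * n)) x) : ℝ) : ℂ) -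
        b * (((1 / (a * N)) * ∫ v in (0 : ℝ)..(a * N), ∏ j, f j (τ j (c j * v) x) : ℝ) : ℂ)) atTop (nhds 0)

end Pool.Agent.Y957.MC
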