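import Pool.Agent.Y957.MC.Fin3
import Pool.Agent.Y932.MC.Det3
import Pool.Agent.Y220.MC.PSE
import Pool.Agent.Y941.MC.Rie
import Pool.Agent.Y256.MC.Mul

set_option autoImplicit false

/-! Discrete and continuous multiple averages at almost all times: complex, essentially bounded functions. -/

namespace Pool.Agent.Y957.MC

open MeasureTheory Filter Finset

universe u

theorem det_all : S_DET := Pool.Agent.Y932.MC.det3 Pool.Agent.Y259.MC.par Pool.Agent.Y259.MC.tail

theorem flw2_all : S_FLW2.{u} := Pool.Agent.Y405.MC.flw2 Pool.Agent.Y261.MC.sgl Pool.Agent.Y48.MC.flwb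

theorem mul_all : S_MUL.{u} :=
  Pool.Agent.Y256.MC.mul det_all (Pool.Agent.Y941.MC.rie det_all Pool.Agent.Y220.MC.PS.psq) flw2_all
    Pool.Agent.Y48.MC.flwb

lemma orb_prod_meas {X : Type u} [MeasurableSpace X] {μ : Measure X} {m : ℕ}
    {τ : Fin m → ℝ → X → X} (hτ : ∀ j, IsFlow μ (τ j)) {f : Fin m → X → ℂ} (hf : ∀ j, Measurable (f j)) :
    Measurable fun q : ℝ × X => ∏ j, f j (τ j q.1 q.2) :=
  Finset.measurable_prod _ fun j _ => (hf j).comp (hτ j).meas

/-- from real to complex functions -/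
theorem mul_cx {B : ℕ → ℂ} {b : ℂ} (hB : PSav B b) (hBb : ∃ C : ℝ, ∀ n, ‖B n‖ ≤ C) {X : Type u}
    [MeasurableSpace X] {μ : Measure X} [IsProbabilityMeasure μ] {m : ℕ} {τ : Fin m → ℝ → X → X}
    (hτ : ∀ j, IsFlow μ (τ j)) {f : Fin m → X → ℂ} (hf : ∀ j, Measurable (f j))
    (hfb : ∃ C : ℝ, ∀ j x, ‖f j x‖ ≤ C) :
    ∀ᵐ x ∂μ, ∀ᵐ a : ℝ ∂(volume.restrict (Set.Ioi (0 : ℝ))),
      Tendsto (fun N : ℕ => (1 / (N : ℂ)) * ∑ n ∈ Icc 1 N, B n * ∏ j, f j (τ j (a * n) x) -
        b * ((1 / ((a * N : ℝ) : ℂ)) * ∫ v in (0 : ℝ)..(a * N), ∏ j, f j (τ j v x))) atTop (nhds 0) := by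
  obtain ⟨C, hC⟩ := hfb
  have h1 : ∀ t : Finset (Fin m), ∀ᵐ x ∂μ, ∀ᵐ a : ℝ ∂(volume.restrict (Set.Ioi (0 : ℝ))),
      Tendsto (fun N : ℕ => (1 / (N : ℂ)) * ∑ n ∈ Icc 1 N, B n *
          ((∏ j, (if j ∈ t then (f j (τ j (a * n) x)).re else (f j (τ j (a * n) x)).im) : ℝ) : ℂ) -
        b * (((1 / (a * N)) * ∫ v in (0 : ℝ)..(a * N),
          ∏ j, (if j ∈ t then (f j (τ j v x)).re else (f j (τ j v x)).im) : ℝ) : ℂ)) atTop (nhds 0) := by
    intro t
    have h2 := mul_all B b hB hBb X μ m τ (fun _ => 1)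
      (fun j => if j ∈ t then (fun y => (f j y).re) else (fun y => (f j y).im)) hτ (fun _ => one_ne_zero) ?_ ?_
    · filter_upwards [h2] with x hx
      filter_upwards [hx] with a ha
      have e2 : ∀ j y, (if j ∈ t then (fun y => (f j y).re) else (fun y => (f j y).im)) y =
          if j ∈ t then (f j y).re else (f j y).im := by
        intro j y; split_ifs <;> rfl
      simp only [e2, one_mul] at ha
      exact ha
    · intro j
      split_ifs
      · exact Complex.measurable_re.comp (hf j)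
      · exact Complex.measurable_im.comp (hf j)
    · refine ⟨C, fun j x => ?_⟩
      split_ifs
      · exact (Complex.abs_re_le_norm _).trans (hC j x)
      · exact (Complex.abs_im_le_norm _).trans (hC j x)
  have h2 := ae_all_iff.2 h1
  filter_upwards [h2] with x hx
  filter_upwards [ae_all_iff.2 hx] with a ha
  have hf' : ∀ j y, f j y = (((f j y).re : ℝ) : ℂ) + Complex.I * (((f j y).im : ℝ) : ℂ) := by
    intro j y; rw [mul_comm]; exact (Complex.re_add_im _).symm
  have e : ∀ v : ℝ, ∏ j, f j (τ j v x) = ∑ t ∈ (univ : Finset (Fin m)).powerset, Complex.I ^ (univ \ t).card *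
      ((∏ j, (if j ∈ t then (f j (τ j v x)).re else (f j (τ j v x)).im) : ℝ) : ℂ) := by
    intro v
    rw [← prod_expand]
    exact prod_congr rfl fun j _ => hf' j _
  have hmeas : ∀ t : Finset (Fin m), Measurable fun v : ℝ =>
      ∏ j, (if j ∈ t then (f j (τ j v x)).re else (f j (τ j v x)).im) := by
    intro t
    refine Finset.measurable_prod _ fun j _ => ?_
    have h3 : Measurable fun v : ℝ => f j (τ j v x) :=
      (hf j).comp ((hτ j).meas.comp (measurable_id.prodMk measurable_const))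
    split_ifs
    · exact Complex.measurable_re.comp h3
    · exact Complex.measurable_im.comp h3
  have hbd : ∀ (t : Finset (Fin m)) (v : ℝ),
      |∏ j, (if j ∈ t then (f j (τ j v x)).re else (f j (τ j v x)).im)| ≤ C ^ m := by
    intro t v
    rw [Finset.abs_prod]
    have : ∏ j : Fin m, |(if j ∈ t then (f j (τ j v x)).re else (f j (τ j v x)).im)| ≤ ∏ j : Fin m, C := by
      refine Finset.prod_le_prod (fun j _ => abs_nonneg _) fun j _ => ?_
      split_ifs
      · exact (Complex.abs_re_le_norm _).trans (hC j _)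
      · exact (Complex.abs_im_le_norm _).trans (hC j _)
    simpa using this
  have hii : ∀ (t : Finset (Fin m)) (V : ℝ), IntervalIntegrable (fun v : ℝ =>
      ((∏ j, (if j ∈ t then (f j (τ j v x)).re else (f j (τ j v x)).im) : ℝ) : ℂ)) volume 0 V := by
    intro t V
    rw [intervalIntegrable_iff]
    refine Measure.integrableOn_of_bounded (M := C ^ m) (by simp)
      (Complex.measurable_ofReal.comp (hmeas t)).aestronglyMeasurable (ae_of_all _ fun r => ?_)
    rw [Complex.norm_real, Real.norm_eq_abs]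
    exact hbd t r
  have h5 : (fun N : ℕ => (1 / (N : ℂ)) * ∑ n ∈ Icc 1 N, B n * ∏ j, f j (τ j (a * n) x) -
        b * ((1 / ((a * N : ℝ) : ℂ)) * ∫ v in (0 : ℝ)..(a * N), ∏ j, f j (τ j v x))) = fun N : ℕ =>
      ∑ t ∈ (univ : Finset (Fin m)).powerset, Complex.I ^ (univ \ t).card *
        ((1 / (N : ℂ)) * ∑ n ∈ Icc 1 N, B n *
          ((∏ j, (if j ∈ t then (f j (τ j (a * n) x)).re else (f j (τ j (a * n) x)).im) : ℝ) : ℂ) -
        b * (((1 / (a * N)) * ∫ v in (0 : ℝ)..(a * N),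
          ∏ j, (if j ∈ t then (f j (τ j v x)).re else (f j (τ j v x)).im) : ℝ) : ℂ)) := by
    funext N
    simp only [e]
    rw [intervalIntegral.integral_finsetSum (fun t _ => (hii t _).const_mul _)]
    simp only [mul_sub, Finset.sum_sub_distrib]
    congr 1
    · simp only [Finset.mul_sum]
      rw [Finset.sum_comm]
      refine Finset.sum_congr rfl fun t _ => ?_
      refine Finset.sum_congr rfl fun n _ => ?_
      ring
    · rw [Finset.mul_sum, Finset.mul_sum]
      refine Finset.sum_congr rfl fun t _ => ?_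
      rw [intervalIntegral.integral_const_mul, intervalIntegral.integral_ofReal]
      push_cast
      ring
  rw [h5]
  have h6 : Tendsto (fun N : ℕ => ∑ t ∈ (univ : Finset (Fin m)).powerset, Complex.I ^ (univ \ t).card *
        ((1 / (N : ℂ)) * ∑ n ∈ Icc 1 N, B n *
          ((∏ j, (if j ∈ t then (f j (τ j (a * n) x)).re else (f j (τ j (a * n) x)).im) : ℝ) : ℂ) -
        b * (((1 / (a * N)) * ∫ v in (0 : ℝ)..(a * N),
          ∏ j, (if j ∈ t then (f j (τ j v x)).re else (f j (τ j v x)).im) : ℝ) : ℂ))) atTop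
      (nhds (∑ t ∈ (univ : Finset (Fin m)).powerset, Complex.I ^ (univ \ t).card * 0)) :=
    tendsto_finsetSum _ fun t _ => (ha t).const_mul _
  simpa using h6

/-- essentially bounded functions, almost every time first -/
theorem mul_Linf {B : ℕ → ℂ} {b : ℂ} (hB : PSav B b) (hBb : ∃ C : ℝ, ∀ n, ‖B n‖ ≤ C) {X : Type u}
    [MeasurableSpace X] {μ : Measure X} [IsProbabilityMeasure μ] {m : ℕ} {τ : Fin m → ℝ → X → X}
    (hτ : ∀ j, IsFlow μ (τ j)) {f : Fin m → X → ℂ} (hf : ∀ j, AEStronglyMeasurable (f j) μ)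
    (hfb : ∀ j, ∃ C : ℝ, ∀ᵐ x ∂μ, ‖f j x‖ ≤ C) :
    ∀ᵐ a : ℝ, 0 < a → ∀ᵐ x ∂μ,
      Tendsto (fun N : ℕ => (1 / (N : ℂ)) * ∑ n ∈ Icc 1 N, B n * ∏ j, f j (τ j (a * n) x) -
        b * ((1 / ((a * N : ℝ) : ℂ)) * ∫ v in (0 : ℝ)..(a * N), ∏ j, f j (τ j v x))) atTop (nhds 0) := by
  choose g hgm hgb hfg using fun j => exists_version (hf j) (hfb j)
  choose C hC' using hgb
  have hb : ∃ C' : ℝ, ∀ j x, ‖g j x‖ ≤ C' := by
    refine ⟨∑ j, |C j|, fun j x => (hC' j x).trans ((le_abs_self _).trans ?_)⟩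
    exact Finset.single_le_sum (f := fun j => |C j|) (fun i _ => abs_nonneg _) (Finset.mem_univ j)
  have h1 := mul_cx (μ := μ) hB hBb hτ hgm hb
  -- measurability
  have hG := orb_prod_meas hτ hgm
  have hEm : ∀ N : ℕ, Measurable fun q : ℝ × X => (1 / (N : ℂ)) * ∑ n ∈ Icc 1 N, B n *
      ∏ j, g j (τ j (q.1 * n) q.2) -
        b * ((1 / ((q.1 * N : ℝ) : ℂ)) *
          ∫ v : ℝ, (Set.Ioc 0 (q.1 * N)).indicator (fun v => ∏ j, g j (τ j v q.2)) v) := by
    intro N
    refine Measurable.sub ?_ ?_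
    · refine measurable_const.mul (Finset.measurable_sum _ fun n _ => measurable_const.mul ?_)
      exact hG.comp ((measurable_fst.mul_const _).prodMk measurable_snd)
    · refine measurable_const.mul (Measurable.mul ?_ ?_)
      · exact measurable_const.div (Complex.measurable_ofReal.comp (measurable_fst.mul_const _))
      · have h2 : Measurable fun r : (ℝ × X) × ℝ =>
            (Set.Ioc 0 (r.1.1 * N)).indicator (fun v => ∏ j, g j (τ j v r.1.2)) r.2 := by
          have hset : MeasurableSet {r : (ℝ × X) × ℝ | 0 < r.2 ∧ r.2 ≤ r.1.1 * N} :=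
            (measurableSet_lt measurable_const measurable_snd).inter
              (measurableSet_le measurable_snd ((measurable_fst.comp measurable_fst).mul_const _))
          have h3 : Measurable fun r : (ℝ × X) × ℝ => ∏ j, g j (τ j r.2 r.1.2) :=
            hG.comp (measurable_snd.prodMk (measurable_snd.comp measurable_fst))
          have h4 := Measurable.indicator h3 hset
          have h5 : (fun r : (ℝ × X) × ℝ =>
              (Set.Ioc 0 (r.1.1 * N)).indicator (fun v => ∏ j, g j (τ j v r.1.2)) r.2) =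
              {r : (ℝ × X) × ℝ | 0 < r.2 ∧ r.2 ≤ r.1.1 * N}.indicator fun r => ∏ j, g j (τ j r.2 r.1.2) := by
            funext r
            by_cases hr : 0 < r.2 ∧ r.2 ≤ r.1.1 * N
            · rw [Set.indicator_of_mem (show r.2 ∈ Set.Ioc 0 (r.1.1 * N) from hr),
                Set.indicator_of_mem (show r ∈ {r : (ℝ × X) × ℝ | 0 < r.2 ∧ r.2 ≤ r.1.1 * N} from hr)]
            · rw [Set.indicator_of_notMem (show r.2 ∉ Set.Ioc 0 (r.1.1 * N) from hr),
                Set.indicator_of_notMem (show r ∉ {r : (ℝ × X) × ℝ | 0 < r.2 ∧ r.2 ≤ r.1.1 * N} from hr)]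
          rw [h5]
          exact h4
        exact (h2.stronglyMeasurable.integral_prod_right').measurable
  have hint : ∀ (a : ℝ) (x : X) (N : ℕ), 0 < a → ∫ v : ℝ, (Set.Ioc 0 (a * N)).indicator
      (fun v => ∏ j, g j (τ j v x)) v = ∫ v in (0 : ℝ)..(a * N), ∏ j, g j (τ j v x) := by
    intro a x N ha
    rw [integral_indicator measurableSet_Ioc, intervalIntegral.integral_of_le (by positivity)]
  have h2 : ∀ᵐ x ∂μ, ∀ᵐ a : ℝ ∂(volume.restrict (Set.Ioi (0 : ℝ))),
      Tendsto (fun N : ℕ => (1 / (N : ℂ)) * ∑ n ∈ Icc 1 N, B n *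
      ∏ j, g j (τ j (a * n) x) -
        b * ((1 / ((a * N : ℝ) : ℂ)) *
          ∫ v : ℝ, (Set.Ioc 0 (a * N)).indicator (fun v => ∏ j, g j (τ j v x)) v)) atTop (nhds 0) := by
    filter_upwards [h1] with x hx
    filter_upwards [hx, ae_restrict_mem measurableSet_Ioi] with a ha ha0
    refine ha.congr fun N => ?_
    rw [hint a x N ha0]
  have h3 := (Measure.ae_ae_comm (μ := volume.restrict (Set.Ioi (0 : ℝ))) (ν := μ)
    (measurableSet_tendsto (nhds (0 : ℂ)) hEm)).2 h2
  rw [ae_restrict_iff' measurableSet_Ioi] at h3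
  -- the versions
  have h4 : ∀ᵐ x ∂μ, ∀ᵐ v : ℝ, ∀ j, f j (τ j v x) = g j (τ j v x) := by
    have h5 : ∀ j, ∀ᵐ x ∂μ, ∀ᵐ v : ℝ, f j (τ j v x) = g j (τ j v x) := by
      intro j
      obtain ⟨E, hE, hEm, hE0⟩ : ∃ E : Set X, {x | ¬ f j x = g j x} ⊆ E ∧ MeasurableSet E ∧ μ E = 0 :=
        exists_measurable_superset_of_null (ae_iff.mp (hfg j))
      have h5 : ∀ᵐ x ∂μ, ∀ᵐ t : ℝ, τ j t x ∉ E := by
        have hset : MeasurableSet {q : ℝ × X | τ j q.1 q.2 ∉ E} := (hτ j).meas hEm.compl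
        rw [← Measure.ae_ae_comm hset]
        refine ae_of_all _ fun t => ?_
        exact ((hτ j).mp t).quasiMeasurePreserving.ae (show ∀ᵐ x ∂μ, x ∉ E from by rw [ae_iff]; simpa using hE0)
      filter_upwards [h5] with x hx
      filter_upwards [hx] with t ht
      by_contra hne
      exact ht (hE hne)
    filter_upwards [ae_all_iff.2 h5] with x hx
    exact ae_all_iff.2 hx
  filter_upwards [h3] with a ha ha0
  have h6 : ∀ᵐ x ∂μ, ∀ (n : ℕ) (j : Fin m), f j (τ j (a * n) x) = g j (τ j (a * n) x) := by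
    rw [ae_all_iff]
    intro n
    rw [ae_all_iff]
    intro j
    exact ((hτ j).mp (a * n)).quasiMeasurePreserving.ae (hfg j)
  filter_upwards [ha ha0, h4, h6] with x hx hx4 hx6
  refine hx.congr fun N => ?_
  rw [hint a x N ha0]
  simp only [hx6]
  congr 3
  refine intervalIntegral.integral_congr_ae ?_
  filter_upwards [hx4] with v hv _
  simp only [hv]

end Pool.Agent.Y957.MC
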