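import Pool.Agent.Y957.MC.Spec

/-!
Project MC (helper957), fourth part: polynomial times of flows with one common parameter: comparison with the
continuous averages (MP_4d8f14_an).
-/

set_option autoImplicit false

namespace Pool.Agent.Y957.MC

open MeasureTheory Filter Finset

universe u

/-- the exponential sum minus the exponential integral attached to the points `y n`, `n ∈ I`, and `y v`,
`α ≤ v ≤ β` -/
noncomputable def btm (Λ : ℝ) (I : Finset ℕ) (y : ℝ → ℝ) (α β : ℝ) (N : ℕ) (k : ℤ) : ℂ :=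
  (1 / (N : ℂ)) * (∑ n ∈ I, Complex.exp (((2 * Real.pi * k / Λ * Real.log (y n) : ℝ) : ℂ) * Complex.I) -
    ∫ v in α..β, Complex.exp (((2 * Real.pi * k / Λ * Real.log (y v) : ℝ) : ℂ) * Complex.I))

/-- (PARM) Parseval for one block, a sum minus an integral -/
def S_PARM : Prop := ∀ (Λ : ℝ) (F : ℝ → ℂ) (I : Finset ℕ) (y : ℝ → ℝ) (A U α β : ℝ) (N : ℕ), 1 ≤ Λ →
    Measurable F → (∀ v, ‖F v‖ ≤ 1) → 0 < A → 0 < U → 1 ≤ N → α ≤ β → Measurable y →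
    (∀ n ∈ I, 1 ≤ y n ∧ Real.log (2 * y n) ≤ Λ) → (∀ v ∈ Set.Icc α β, 1 ≤ y v ∧ Real.log (2 * y v) ≤ Λ) →
    ∫ a in A..2 * A, ‖(1 / (N : ℂ)) * (∑ n ∈ I, F (a * (U * y n)) - ∫ v in α..β, F (a * (U * y v)))‖ ^ 2 ≤
      2 * Λ * A * ∑' k : ℤ, ‖cf Λ F (A * U) k‖ ^ 2 * ‖btm Λ I y α β N k‖ ^ 2

/-- (PSG) the exponential sums with the phases `κ log p(n)` are close to the exponential integrals -/
def S_PSG : Prop := ∀ p : ℝ → ℝ, Adm p → Measurable p → ∀ (ε : ℝ) (Q : ℕ), 0 < ε → ε ≤ 1 →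
    ∃ δ : ℝ, 0 < δ ∧ ∃ C : ℝ, 0 < C ∧ ∀ᶠ N : ℕ in atTop, ∀ κ : ℝ, |κ| ≤ (N : ℝ) ^ Q →
      ‖∑ n ∈ Ioc ⌊ε * N⌋₊ N, Complex.exp (((κ * Real.log (p n) : ℝ) : ℂ) * Complex.I) -
        ∫ v in (⌊ε * N⌋₊ : ℝ)..N, Complex.exp (((κ * Real.log (p v) : ℝ) : ℂ) * Complex.I)‖ ≤
      C * (N : ℝ) ^ (1 - δ)

/-- (DETG) discrete and continuous averages of a deterministic function at the times `a p(n)` and `a p(v)` -/
def S_DETG : Prop := ∀ p : ℝ → ℝ, Adm p → Measurable p → ∀ F : ℝ → ℂ, Measurable F → (∀ v, ‖F v‖ ≤ 1) →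
    (∀ Λ : ℝ, 1 ≤ Λ → ∃ C : ℝ, ∀ M : ℝ, 1 ≤ M → Mod Λ F C M) →
    ∀ᵐ a : ℝ ∂(volume.restrict (Set.Ioi (0 : ℝ))),
      Tendsto (fun N : ℕ => (1 / (N : ℂ)) * (∑ n ∈ Icc 1 N, F (a * p n) - ∫ v in (0 : ℝ)..N, F (a * p v)))
        atTop (nhds 0)

/-- (REGC) averages along `a p(v)` are controlled by averages over intervals -/
def S_REGC : Prop := ∀ p : ℝ → ℝ, Adm p → Measurable p → ∃ K : ℝ, 0 < K ∧ ∀ a : ℝ, 0 < a → ∀ G : ℝ → ℂ,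
    Continuous G → (∀ v, ‖G v‖ ≤ 1) → ∀ (L : ℂ) (η : ℝ), 0 ≤ η →
    (∀ᶠ V : ℝ in atTop, ‖(1 / (V : ℂ)) * (∫ v in (0 : ℝ)..V, G v) - L‖ ≤ η) → ∀ ε : ℝ, 0 < ε →
    ∀ᶠ N : ℕ in atTop, ‖(1 / (N : ℂ)) * (∫ v in (0 : ℝ)..N, G (a * p v)) - L‖ ≤ ε + K * η

/-- (PTI) several flows at the same polynomial times: convergence of the continuous averages implies
convergence along `a p(n)` for almost every `a` -/
def S_PTI : Prop := ∀ p : ℝ → ℝ, Adm p → Measurable p → ∀ (X : Type u) [MeasurableSpace X] (μ : Measure X)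
    [IsProbabilityMeasure μ] (m : ℕ) (τ : Fin m → ℝ → X → X) (f : Fin m → X → ℂ), (∀ j, IsFlow μ (τ j)) →
    (∀ j, Measurable (f j)) → (∃ C : ℝ, ∀ j x, ‖f j x‖ ≤ C) →
    ∀ᵐ x ∂μ, ∀ᵐ a : ℝ ∂(volume.restrict (Set.Ioi (0 : ℝ))), ∀ L : ℂ,
      Tendsto (fun V : ℝ => (1 / (V : ℂ)) * ∫ v in (0 : ℝ)..V, ∏ j, f j (τ j v x)) atTop (nhds L) →
      Tendsto (fun N : ℕ => (1 / (N : ℂ)) * ∑ n ∈ Icc 1 N, ∏ j, f j (τ j (a * p n) x)) atTop (nhds L)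

end Pool.Agent.Y957.MC
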