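import Pool.Agent.Y957.MC.Est2
import Pool.Agent.Y957.MC.Flw1
import Pool.Agent.Y484.MC.Osc
import Pool.Agent.Y574.MC.Sup
import Pool.Agent.Y259.MC.Par
import Pool.Agent.Y259.MC.Tail
import Pool.Agent.Y779.MC.LV
import Pool.Agent.Y888.MC.Low
import Pool.Agent.Y614.MC.Expg
import Pool.Agent.Y571.MC.Goodg
import Pool.Agent.Y571.MC.Poly
import Pool.Agent.Y86.MC.NiceB
import Pool.Agent.Y261.MC.Sgl
import Pool.Agent.Y220.MC.BTY1
import Pool.Agent.Y925.MC.Bty2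
import Pool.Agent.Y571.MC.Bty3
import Pool.Agent.Y405.MC.Flw2
import Pool.Agent.Y312.MC.Flw3
import Pool.Agent.Y571.MC.Prod

set_option autoImplicit false

/-! All steps together. -/

namespace Pool.Agent.Y957.MC

open MeasureTheory Filter Finset

universe u

theorem est_all : S_EST.{u} :=
  est (Pool.Agent.Y574.MC.sup Pool.Agent.Y484.MC.osc) Pool.Agent.Y259.MC.par Pool.Agent.Y779.MC.lv
    Pool.Agent.Y888.MC.low Pool.Agent.Y259.MC.tail

theorem nice_all : S_NICE.{u} := Pool.Agent.Y86.MC.nice est_all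

theorem bty_all : S_BTY.{u} :=
  Pool.Agent.Y571.MC.bty (Pool.Agent.Y220.MC.bty1 nice_all) (Pool.Agent.Y925.MC.bty2 Pool.Agent.Y261.MC.sgl)

theorem flw_all : S_FLW.{u} :=
  Pool.Agent.Y312.MC.flw (flw1 nice_all) (Pool.Agent.Y405.MC.flw2 Pool.Agent.Y261.MC.sgl Pool.Agent.Y48.MC.flwb)
    Pool.Agent.Y48.MC.flwb

theorem good_of_adm {p : ℝ → ℝ} (h : Adm p) : Good (fun n : ℕ => p n) :=
  Pool.Agent.Y571.MC.goodg Pool.Agent.Y614.MC.expg p h

theorem good_poly {P : Polynomial ℝ} (h1 : 0 < P.natDegree) (h2 : 0 < P.leadingCoeff) :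
    Good (fun n : ℕ => P.eval (n : ℝ)) := good_of_adm (Pool.Agent.Y571.MC.poly P h1 h2)

theorem good_pow {θ : ℝ} (h : 0 < θ) : Good (fun n : ℕ => (n : ℝ) ^ θ) := good_of_adm (Pool.Agent.Y571.MC.pow θ h)

end Pool.Agent.Y957.MC
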