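import Pool.Agent.Y957.MC.Est2
import Pool.Agent.Y957.MC.Spec2

set_option autoImplicit false

/-! The mean square bound for linear forms, uniform in the shift: proof of `S_ESTC`. -/

namespace Pool.Agent.Y957.MC

open MeasureTheory Filter Finset

universe u

lemma sqrt_le_self_of_one_le {m : ℝ} (h : 1 ≤ m) : Real.sqrt m ≤ m := by
  rw [Real.sqrt_le_left (by linarith)]
  nlinarith

lemma sum_le_four_sq {m a b : ℝ} (h : 1 ≤ m) (h1 : a ≤ m) (h2 : b ≤ m ^ 2 + 1) : a + b + 1 ≤ 4 * m ^ 2 := by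
  nlinarith

theorem estc (hSUP : S_SUP.{u}) (hPAR : S_PAR) (hLV : S_LV) (hLOW : S_LOW) (hTAIL : S_TAIL) (hEXPC : S_EXPC) :
    S_ESTC.{u} := by
  intro c C₁ hc hC₁ X _ μ _ T F hF ε A hε hA
  set Y : ℝ := (|c| + C₁) / ε with hYdef
  have hY0 : 0 < Y := by positivity
  set Λ : ℝ := max 1 (Real.log (2 * Y)) with hΛdef
  have hΛ : 1 ≤ Λ := le_max_left _ _
  obtain ⟨δ, hδ, Ce, hCe, hexp⟩ := hEXPC c C₁ ε 3 hc hC₁ hε
  obtain ⟨Cs, hCs, hsup⟩ := hSUP Λ hΛ
  obtain ⟨C₀, hC₀, htail⟩ := hTAIL Λ hΛ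
  obtain ⟨G, hG⟩ := hF.prim
  obtain ⟨Cm0, hCm0⟩ := hF.mod Λ hΛ
  set Cm : ℝ := max Cm0 1 with hCmdef
  have hCm : 1 ≤ Cm := le_max_right _ _
  have hFm : ∀ x, Measurable (F x) := fun x => hF.stat.meas.comp (measurable_const.prodMk measurable_id)
  have hmod : ∀ x M, 1 ≤ M → Mod Λ (F x) Cm M := by
    intro x M hM h h0 h1
    refine (hCm0 x M hM h h0 h1).trans ?_
    have : Cm0 ≤ Cm := le_max_left _ _
    gcongr
  -- the parameters of the block
  set M : ℕ → ℝ := fun N => A * (ε * N) with hM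
  set K₀ : ℕ → ℕ := fun N => ⌊Real.sqrt (M N)⌋₊ with hK₀
  set K : ℕ → ℕ := fun N => K₀ N + ⌈(M N) ^ 2⌉₊ + 1 with hK
  set S : ℕ → Finset ℤ := fun N => (Icc (-(K N : ℤ)) (K N)).filter (fun k => (K₀ N : ℤ) < |k|) with hS
  have hSne : ∀ N, (S N).Nonempty := by
    intro N
    refine ⟨(K N : ℤ), ?_⟩
    simp only [hS, mem_filter, mem_Icc, hK]
    refine ⟨⟨neg_le_self (by positivity), le_rfl⟩, ?_⟩
    rw [abs_of_nonneg (by positivity)]
    push_cast
    have : (0 : ℤ) ≤ (⌈(M N) ^ 2⌉₊ : ℤ) := by positivity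
    omega
  have hu : ∀ N k, Measurable (fun x => ‖cf Λ (F x) (M N) k‖ ^ 2) := fun N k =>
    ((measurable_cf hF.stat.meas (by linarith) (M N) k).norm).pow_const 2
  choose κ hκm hκS hκmax using fun N => exists_argmax (fun k x => ‖cf Λ (F x) (M N) k‖ ^ 2) (hu N) (S N) (hSne N)
  set s : ℕ → X → ℝ := fun N x => ‖cf Λ (F x) (M N) (κ N x)‖ ^ 2 with hs
  have hsm : ∀ N, Measurable (s N) := fun N =>
    measurable_sel (fun k x => ‖cf Λ (F x) (M N) k‖ ^ 2) (hu N) (hκm N)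
  have hs0 : ∀ N x, 0 ≤ s N x := fun N x => by positivity
  have hs1 : ∀ N x, s N x ≤ 1 := fun N x => by
    have := cf_norm_le (hF.stat.bdd x) hΛ (M N) (κ N x)
    calc s N x ≤ 1 ^ 2 := by simp only [hs]; gcongr
      _ = 1 := one_pow 2
  set a : ℕ → ℝ := fun N => |2 * Λ * A * ((2 * (K₀ N : ℝ) + 1) * (7 * G * (1 + (K₀ N : ℝ)) / M N) ^ 2 +
    2 * (Ce * (N : ℝ) ^ (1 - δ)) / N + C₀ * Cm * M N / K N)| with ha
  set b : ℕ → ℝ := fun N => |2 * Λ * A * (2 * (1 + 2 * (Ce * Λ) * (1 + Real.log (2 * K N))))| with hb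
  have ha0 : ∀ N, 0 ≤ a N := fun N => abs_nonneg _
  have hb0 : ∀ N, 0 ≤ b N := fun N => abs_nonneg _
  -- eventual facts
  have hev : ∀ᶠ N : ℕ in atTop, 1 ≤ N ∧ 1 ≤ A * ε * (N : ℝ) ^ (1 : ℝ) ∧ 104 * (A ^ 2 * ε ^ 2) ≤ N := by
    have h0 : Tendsto (fun N : ℕ => A * ε * (N : ℝ) ^ (1 : ℝ)) atTop atTop := by
      simp only [Real.rpow_one]
      exact Tendsto.const_mul_atTop (by positivity) tendsto_natCast_atTop_atTop
    filter_upwards [eventually_ge_atTop 1, h0.eventually_ge_atTop 1,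
      (tendsto_natCast_atTop_atTop (R := ℝ)).eventually_ge_atTop (104 * (A ^ 2 * ε ^ 2))] with N h1 h4 h5
    exact ⟨h1, h4, h5⟩
  have hbasic : ∀ N : ℕ, (1 ≤ N ∧ 1 ≤ A * ε * (N : ℝ) ^ (1 : ℝ) ∧ 104 * (A ^ 2 * ε ^ 2) ≤ N) →
      0 < (N : ℝ) ∧ 1 ≤ M N ∧ A * ε * (N : ℝ) ^ (1 : ℝ) ≤ M N ∧ 26 * (K N : ℝ) ≤ (N : ℝ) ^ 3 := by
    rintro N ⟨h1, h4, h5⟩
    have hN' : (0 : ℝ) < N := by exact_mod_cast h1
    have hN1 : (1 : ℝ) ≤ N := by exact_mod_cast h1
    have h6 : A * ε * (N : ℝ) ^ (1 : ℝ) ≤ M N := by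
      simp only [hM, Real.rpow_one]
      exact le_of_eq (by ring)
    have h7 : 1 ≤ M N := h4.trans h6
    refine ⟨hN', h7, h6, ?_⟩
    have h8 : (K₀ N : ℝ) ≤ M N := by
      have h81 : (K₀ N : ℝ) ≤ Real.sqrt (M N) := Nat.floor_le (Real.sqrt_nonneg _)
      exact h81.trans (sqrt_le_self_of_one_le h7)
    have h9 : (⌈(M N) ^ 2⌉₊ : ℝ) ≤ (M N) ^ 2 + 1 := (Nat.ceil_lt_add_one (by positivity)).le
    have h10 : (K N : ℝ) ≤ 4 * (M N) ^ 2 := by
      have h101 : (K N : ℝ) = (K₀ N : ℝ) + (⌈(M N) ^ 2⌉₊ : ℝ) + 1 := by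
        simp only [hK]
        push_cast
        ring
      rw [h101]
      exact sum_le_four_sq h7 h8 h9
    have h11 : (M N) ^ 2 = A ^ 2 * ε ^ 2 * (N : ℝ) ^ 2 := by
      simp only [hM]
      ring
    calc 26 * (K N : ℝ) ≤ 26 * (4 * (M N) ^ 2) := by gcongr
      _ = (104 * (A ^ 2 * ε ^ 2)) * (N : ℝ) ^ 2 := by rw [h11]; ring
      _ ≤ N * (N : ℝ) ^ 2 := by gcongr
      _ = (N : ℝ) ^ 3 := by ring
  -- the bound on the mean
  have hT0 : ∀ N x, ((K₀ N : ℝ) + 1) ≤ |(κ N x : ℝ)| := by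
    intro N x
    have h1 := hκS N x
    simp only [hS, mem_filter] at h1
    have h2 : (K₀ N : ℤ) + 1 ≤ |κ N x| := by omega
    have h3 : (((K₀ N : ℤ) + 1 : ℤ) : ℝ) ≤ ((|κ N x| : ℤ) : ℝ) := by exact_mod_cast h2
    push_cast at h3
    exact h3
  have hmean : ∀ᶠ N : ℕ in atTop, ∫ x, s N x ∂μ ≤ Cs * (1 / Real.sqrt (K₀ N + 1) + 1 / M N) := by
    filter_upwards [hev] with N hN
    obtain ⟨hpN, hM1, -, -⟩ := hbasic N hN
    refine hsup X μ T F hF.stat (M N) (K₀ N + 1) (κ N) hM1 ?_ (hκm N) (hT0 N)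
    have : (0 : ℝ) ≤ K₀ N := Nat.cast_nonneg _
    linarith
  have hint : ∀ N, Integrable (fun x => a N + b N * s N x) μ := by
    intro N
    refine (integrable_const _).add (Integrable.const_mul ?_ _)
    refine Integrable.of_bound (hsm N).aestronglyMeasurable 1 (Eventually.of_forall fun x => ?_)
    rw [Real.norm_of_nonneg (hs0 N x)]
    exact hs1 N x
  set γ : ℝ := min δ ((1 : ℝ) / 8) with hγ
  have hγ0 : 0 < γ := lt_min hδ (by positivity)
  set H1 : ℝ := 2 * Λ * A * (2 * Ce) with hH1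
  set H2 : ℝ := 2 * Λ * A * (588 * G ^ 2 + C₀ * Cm) + 
        2 * Λ * A * (2 * (1 + 2 * (Ce * Λ) * (1 + (3 : ℕ)))) * (2 * Cs) with hH2
  set H3 : ℝ := (1 + 8 / (1 : ℝ)) * (1 / Real.sqrt (Real.sqrt (A * ε))) with hH3
  have hH10 : 0 ≤ H1 := by rw [hH1]; positivity
  have hH20 : 0 ≤ H2 := by rw [hH2]; positivity
  have hH30 : 0 ≤ H3 := by rw [hH3]; positivity
  refine ⟨fun N x => a N + b N * s N x, H1 + H2 * H3, γ, hγ0, fun N => (measurable_const.add ((hsm N).const_mul _)),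
    fun N x => add_nonneg (ha0 N) (mul_nonneg (hb0 N) (hs0 N x)), ?_, ?_⟩
  · filter_upwards [hev, hmean] with N hN hmN
    refine ⟨hint N, ?_⟩
    obtain ⟨hpN, hM1, hMlow, hKQ⟩ := hbasic N hN
    have hN1 : 1 ≤ N := hN.1
    have hN' : (0 : ℝ) < N := by exact_mod_cast hN1
    have hN1' : (1 : ℝ) ≤ N := by exact_mod_cast hN1
    have hG0 : 0 ≤ G := by
      obtain ⟨x⟩ : Nonempty X := by
        by_contra hne
        rw [not_nonempty_iff] at hne
        have := measure_univ (μ := μ)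
        rw [Set.eq_empty_of_isEmpty (Set.univ : Set X), measure_empty] at this
        exact zero_ne_one this
      exact (norm_nonneg _).trans (hG x 0 le_rfl)
    have hi : ∫ x, (a N + b N * s N x) ∂μ = a N + b N * ∫ x, s N x ∂μ := by
      rw [integral_add (integrable_const _) ?_, integral_const, integral_const_mul]
      · simp
      · have := (hint N).sub (integrable_const (a N))
        refine this.congr (Eventually.of_forall fun x => ?_)
        simp
    rw [hi]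
    have h1 : a N + b N * ∫ x, s N x ∂μ ≤ a N + b N * (Cs * (1 / Real.sqrt (K₀ N + 1) + 1 / M N)) := by
      have := mul_le_mul_of_nonneg_left hmN (hb0 N)
      linarith
    refine h1.trans ?_
    have hKQ' : 2 * (K N : ℝ) ≤ (N : ℝ) ^ 3 := by
      have : (0 : ℝ) ≤ K N := Nat.cast_nonneg _
      linarith
    have h2 := num_bound (N := N) hN1 (Q := 3) (G := G) (Ce := Ce) (Λ := Λ) (A := A) (C₀ := C₀) (Cm := Cm) (Cs := Cs)
      (M := M N) (δ := δ) (K₀ := K₀ N) (K := K N) hCe hΛ hA hC₀ hCm hCs hM1 hG0 rfl rfl hKQ'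
    refine h2.trans ?_
    have h3 := log_bound hN1 (a := A * ε) (γ := 1) (M := M N) (by positivity) one_pos hMlow
    have h4 : (N : ℝ) ^ (-((1 : ℝ) / 8)) ≤ (N : ℝ) ^ (-γ) :=
      Real.rpow_le_rpow_of_exponent_le hN1' (by have := min_le_right δ ((1 : ℝ) / 8); linarith)
    have h5 : (N : ℝ) ^ (-δ) ≤ (N : ℝ) ^ (-γ) :=
      Real.rpow_le_rpow_of_exponent_le hN1' (by have := min_le_left δ ((1 : ℝ) / 8); linarith)
    calc _ ≤ H1 * (N : ℝ) ^ (-δ) + H2 * (H3 * (N : ℝ) ^ (-((1 : ℝ) / 8))) := by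
          refine add_le_add le_rfl (mul_le_mul_of_nonneg_left h3 hH20)
      _ ≤ H1 * (N : ℝ) ^ (-γ) + H2 * (H3 * (N : ℝ) ^ (-γ)) := by gcongr
      _ = _ := by ring
  · filter_upwards [hev, hexp] with N hN hexpN x B b hB hb'
    obtain ⟨hpN, hM1, hMlow, hKQ⟩ := hbasic N hN
    have hN1 : 1 ≤ N := hN.1
    have hN' : (0 : ℝ) < N := by exact_mod_cast hN1
    set U : ℝ := ε * N with hU
    have hU0 : 0 < U := by positivity
    have hMU : M N = A * U := rfl
    set y : ℕ → ℝ := fun n => (c * n + b) / U with hy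
    have hUy : ∀ n : ℕ, U * y n = c * n + b := fun n => by simp only [hy]; field_simp
    set I : Finset ℕ := (Icc 1 N).filter (fun n : ℕ => ε * N ≤ c * n + b) with hI
    have hIcard : I.card ≤ N := by
      calc I.card ≤ (Icc 1 N).card := card_le_card (filter_subset _ _)
        _ = N := by rw [Nat.card_Icc]; omega
    have hylog : ∀ n ∈ I, 1 ≤ y n ∧ Real.log (2 * y n) ≤ Λ := by
      intro n hn
      rw [hI, mem_filter, mem_Icc] at hn
      have h6 : 1 ≤ y n := by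
        simp only [hy]
        rw [le_div_iff₀ hU0, one_mul]; exact hn.2
      refine ⟨h6, ?_⟩
      have hnN : (n : ℝ) ≤ N := by exact_mod_cast hn.1.2
      have hn0 : (0 : ℝ) ≤ n := Nat.cast_nonneg n
      have h7 : c * n + b ≤ (|c| + C₁) * N := by
        have e1 : c * n ≤ |c| * N := by
          calc c * n ≤ |c| * n := by gcongr; exact le_abs_self c
            _ ≤ |c| * N := by gcongr
        have e2 : b ≤ C₁ * N := (le_abs_self b).trans hb'
        linarith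
      have h8 : y n ≤ Y := by
        simp only [hy, hYdef, hU]
        rw [div_le_div_iff₀ (by positivity) hε]
        nlinarith
      exact (Real.log_le_log (by linarith) (by linarith)).trans (le_max_right _ _)
    have hexpj : ∀ j : ℤ, j ≠ 0 → |j| ≤ 2 * K N →
        ‖∑ n ∈ I, Complex.exp (((2 * Real.pi * j / Λ * Real.log (y n) : ℝ) : ℂ) * Complex.I)‖ ≤
          (Ce * Λ) * N / |(j : ℝ)| + Ce * (N : ℝ) ^ (1 - δ) := by
      intro j hj hjK
      set κ' : ℝ := 2 * Real.pi * j / Λ with hκ'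
      have hjR : (j : ℝ) ≠ 0 := by exact_mod_cast hj
      have hjpos : 0 < |(j : ℝ)| := abs_pos.mpr hjR
      have hκ0 : κ' ≠ 0 := by
        rw [hκ']
        have := Real.pi_ne_zero
        have hΛ0 : Λ ≠ 0 := by linarith
        positivity
      have habs : |κ'| = 2 * Real.pi * |(j : ℝ)| / Λ := by
        rw [hκ', abs_div, abs_mul, abs_of_pos (by positivity : (0 : ℝ) < 2 * Real.pi), abs_of_pos (by linarith : 0 < Λ)]
      have hjK' : |(j : ℝ)| ≤ 2 * K N := by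
        have : ((|j| : ℤ) : ℝ) ≤ ((2 * (K N : ℤ) : ℤ) : ℝ) := by exact_mod_cast hjK
        simpa using this
      have hκQ : |κ'| ≤ (N : ℝ) ^ 3 := by
        rw [habs]
        have hpi : Real.pi ≤ 3.15 := by have := Real.pi_lt_d2; linarith
        calc 2 * Real.pi * |(j : ℝ)| / Λ ≤ 2 * Real.pi * |(j : ℝ)| := div_le_self (by positivity) hΛ
          _ ≤ 2 * 3.15 * (2 * K N) := by gcongr
          _ ≤ 26 * (K N : ℝ) := by nlinarith [Nat.cast_nonneg (α := ℝ) (K N)]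
          _ ≤ _ := hKQ
      have h1 := hexpN b κ' hb' hκ0 hκQ
      have h2 : ∑ n ∈ I, Complex.exp (((κ' * Real.log (y n) : ℝ) : ℂ) * Complex.I) =
          Complex.exp (((-(κ' * Real.log U) : ℝ) : ℂ) * Complex.I) *
          ∑ n ∈ I, Complex.exp (((κ' * Real.log (c * n + b) : ℝ) : ℂ) * Complex.I) := by
        rw [mul_sum]
        refine sum_congr rfl fun n hn => ?_
        rw [← Complex.exp_add, ← add_mul, ← Complex.ofReal_add]
        congr 3
        have h3 := (hylog n hn).1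
        have hpn : c * (n : ℝ) + b ≠ 0 := by
          rw [← hUy n]; positivity
        simp only [hy]
        rw [Real.log_div hpn hU0.ne']
        ring
      rw [h2, norm_mul, Complex.norm_exp_ofReal_mul_I, one_mul]
      refine h1.trans ?_
      rw [mul_add]
      refine add_le_add ?_ le_rfl
      have h3 : (N : ℝ) / |κ'| ≤ Λ * N / |(j : ℝ)| := by
        rw [habs]
        rw [div_div_eq_mul_div, div_le_div_iff₀ (by positivity) hjpos]
        have hpi : 1 ≤ 2 * Real.pi := by have := Real.pi_gt_three; linarith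
        have h0 : 0 ≤ Λ * N * |(j : ℝ)| := by positivity
        nlinarith
      calc Ce * (N / |κ'|) ≤ Ce * (Λ * N / |(j : ℝ)|) := by gcongr
        _ = _ := by ring
    have hK1 : 1 ≤ K N := by simp only [hK]; omega
    have hmain := det_bound hPAR hLV hLOW hΛ (C₀ := C₀) (fun F C M K h1 h2 h3 h4 h5 h6 S h7 =>
      htail F C M K h1 h2 h3 h4 h5 h6 S h7) (hFm x) (hF.stat.bdd x) (hG x) hCm hA hU0 (by rw [← hMU]; exact hM1)
      (by rw [← hMU]; exact hmod x (M N) hM1) (I := I) (y := y) (N := N) (K₀ := K₀ N) (K := K N) hN1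
      hK1 hIcard hylog (D := Ce * Λ) (E := Ce * (N : ℝ) ^ (1 - δ)) (s := s N x) (by positivity)
      (by positivity) hexpj (hs0 N x) (by
        intro k hk1 hk2
        refine hκmax N x k ?_
        simp only [hS, mem_filter, mem_Icc]
        exact ⟨abs_le.mp hk2, hk1⟩) hB
    simp only [hUy] at hmain
    refine hmain.trans ?_
    rw [← hMU]
    have e1 : 2 * Λ * A * ((2 * (K₀ N : ℝ) + 1) * (7 * G * (1 + (K₀ N : ℝ)) / M N) ^ 2 +
        (2 * (Ce * (N : ℝ) ^ (1 - δ)) / N + 2 * s N x * (1 + 2 * (Ce * Λ) * (1 + Real.log (2 * K N)))) +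
        C₀ * Cm * M N / K N) = 
        2 * Λ * A * ((2 * (K₀ N : ℝ) + 1) * (7 * G * (1 + (K₀ N : ℝ)) / M N) ^ 2 +
        2 * (Ce * (N : ℝ) ^ (1 - δ)) / N + C₀ * Cm * M N / K N) +
        2 * Λ * A * (2 * (1 + 2 * (Ce * Λ) * (1 + Real.log (2 * K N)))) * s N x := by ring
    rw [e1]
    refine add_le_add (le_abs_self _) (mul_le_mul_of_nonneg_right (le_abs_self _) (hs0 N x))

end Pool.Agent.Y957.MC
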