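import Pool.Agent.Y957.MC.Fin3
import Pool.Agent.Y957.MC.Estc
import Pool.Agent.Y932.MC.Expc
import Pool.Agent.Y932.MC.Sglc
import Pool.Agent.Y86.MC.NiceC
import Pool.Agent.Y79.MC.Flw1c
import Pool.Agent.Y405.MC.Flw2c
import Pool.Agent.Y405.MC.Flw3c
import Pool.Agent.Y259.MC.Prodc

set_option autoImplicit false

/-! Unrestricted boxes: all steps together. -/

namespace Pool.Agent.Y957.MC

open MeasureTheory Filter Finset

universe u

theorem estc_all : S_ESTC.{u} :=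
  estc (Pool.Agent.Y574.MC.sup Pool.Agent.Y484.MC.osc) Pool.Agent.Y259.MC.par Pool.Agent.Y779.MC.lv
    Pool.Agent.Y888.MC.low Pool.Agent.Y259.MC.tail Pool.Agent.Y932.MC.expc

theorem flwc_all : S_FLWC.{u} :=
  Pool.Agent.Y405.MC3.flwc (Pool.Agent.Y405.MC3.flwp (Pool.Agent.Y79.MC.flw1c (Pool.Agent.Y86.MC.nicec estc_all))
    (Pool.Agent.Y405.MC.flw2c Pool.Agent.Y932.MC.sglc Pool.Agent.Y48.MC.flwb) Pool.Agent.Y48.MC.flwb)

end Pool.Agent.Y957.MC
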