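import Pool.Agent.Y957.MC.Fin3
import Pool.Agent.Y957.MC.Spec2

set_option autoImplicit false

/-! From real to complex functions, general averages. -/

namespace Pool.Agent.Y957.MC

open MeasureTheory Filter Finset

universe u

/-- from real to complex functions -/
theorem cx_gen {X : Type u} [mX : MeasurableSpace X] {μ : Measure X} [IsProbabilityMeasure μ] {m : ℕ}
    {ι Idx : Type*} (l : Filter ι) (E : ι → Finset Idx) (W : ι → ℝ)
    (ν : Measure (Fin m → ℝ)) (w : Fin m → ℝ → Idx → X → X) (𝓜 : Fin m → MeasurableSpace X)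
    (hreal : ∀ f : Fin m → X → ℝ, (∀ j, Measurable (f j)) → (∃ C, ∀ j x, |f j x| ≤ C) →
      ∀ᵐ a ∂ν, ∀ᵐ x ∂μ, Tendsto (fun N => W N * ∑ n ∈ E N, ∏ j, f j (w j (a j) n x)) l
        (nhds (∏ j, (μ[f j | 𝓜 j]) x)))
    {f : Fin m → X → ℂ} (hf : ∀ j, Measurable (f j)) (hfb : ∃ C, ∀ j x, ‖f j x‖ ≤ C) :
    ∀ᵐ a ∂ν, ∀ᵐ x ∂μ, Tendsto (fun N => ((W N : ℝ) : ℂ) * ∑ n ∈ E N, ∏ j, f j (w j (a j) n x)) l
        (nhds (∏ j, (μ[f j | 𝓜 j]) x)) := by
  obtain ⟨C, hC⟩ := hfb
  have hint : ∀ j, Integrable (f j) μ := fun j =>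
    Integrable.of_bound (hf j).aestronglyMeasurable C (ae_of_all _ (hC j))
  have h1 : ∀ t : Finset (Fin m), ∀ᵐ a ∂ν, ∀ᵐ x ∂μ, Tendsto (fun N => W N * ∑ n ∈ E N,
      ∏ j, (if j ∈ t then (f j (w j (a j) n x)).re else (f j (w j (a j) n x)).im)) l
        (nhds (∏ j, (if j ∈ t then (μ[fun y => (f j y).re | 𝓜 j]) x else (μ[fun y => (f j y).im | 𝓜 j]) x))) := by
    intro t
    have h2 := hreal (fun j => if j ∈ t then (fun y => (f j y).re) else (fun y => (f j y).im)) ?_ ?_
    · filter_upwards [h2] with a ha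
      filter_upwards [ha] with x hx
      have e1 : ∀ j, (μ[(if j ∈ t then (fun y => (f j y).re) else (fun y => (f j y).im)) | 𝓜 j]) x =
          if j ∈ t then (μ[fun y => (f j y).re | 𝓜 j]) x else (μ[fun y => (f j y).im | 𝓜 j]) x := by
        intro j; split_ifs <;> rfl
      have e2 : ∀ j y, (if j ∈ t then (fun y => (f j y).re) else (fun y => (f j y).im)) y =
          if j ∈ t then (f j y).re else (f j y).im := by
        intro j y; split_ifs <;> rfl
      simp only [e1, e2] at hx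
      exact hx
    · intro j
      split_ifs
      · exact Complex.measurable_re.comp (hf j)
      · exact Complex.measurable_im.comp (hf j)
    · refine ⟨C, fun j x => ?_⟩
      split_ifs
      · exact (Complex.abs_re_le_norm _).trans (hC j x)
      · exact (Complex.abs_im_le_norm _).trans (hC j x)
  have h2 : ∀ᵐ a ∂ν, ∀ t : Finset (Fin m), ∀ᵐ x ∂μ, Tendsto (fun N => W N * ∑ n ∈ E N,
      ∏ j, (if j ∈ t then (f j (w j (a j) n x)).re else (f j (w j (a j) n x)).im)) l
        (nhds (∏ j, (if j ∈ t then (μ[fun y => (f j y).re | 𝓜 j]) x else (μ[fun y => (f j y).im | 𝓜 j]) x))) := by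
    rw [ae_all_iff]
    exact h1
  have h3 : ∀ᵐ x ∂μ, ∀ j, (μ[f j | 𝓜 j]) x = (((μ[fun y => (f j y).re | 𝓜 j]) x : ℝ) : ℂ) +
      Complex.I * (((μ[fun y => (f j y).im | 𝓜 j]) x : ℝ) : ℂ) := by
    rw [ae_all_iff]
    exact fun j => condExp_re_im (hint j)
  filter_upwards [h2] with a ha
  have h4 : ∀ᵐ x ∂μ, ∀ t : Finset (Fin m), Tendsto (fun N => W N * ∑ n ∈ E N,
      ∏ j, (if j ∈ t then (f j (w j (a j) n x)).re else (f j (w j (a j) n x)).im)) l
        (nhds (∏ j, (if j ∈ t then (μ[fun y => (f j y).re | 𝓜 j]) x else (μ[fun y => (f j y).im | 𝓜 j]) x))) := by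
    rw [ae_all_iff]
    exact ha
  filter_upwards [h4, h3] with x hx hx3
  simp only [hx3]
  rw [prod_expand]
  have hf' : ∀ j y, f j y = (((f j y).re : ℝ) : ℂ) + Complex.I * (((f j y).im : ℝ) : ℂ) := by
    intro j y; rw [mul_comm]; exact (Complex.re_add_im _).symm
  have h5 : (fun N => ((W N : ℝ) : ℂ) * ∑ n ∈ E N, ∏ j, f j (w j (a j) n x)) = fun N =>
      ∑ t ∈ (univ : Finset (Fin m)).powerset, Complex.I ^ (univ \ t).card *
        ((W N * ∑ n ∈ E N,
          ∏ j, (if j ∈ t then (f j (w j (a j) n x)).re else (f j (w j (a j) n x)).im) : ℝ) : ℂ) := by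
    funext N
    have e : ∀ n, ∏ j, f j (w j (a j) n x) = ∑ t ∈ (univ : Finset (Fin m)).powerset, Complex.I ^ (univ \ t).card *
        ((∏ j, (if j ∈ t then (f j (w j (a j) n x)).re else (f j (w j (a j) n x)).im) : ℝ) : ℂ) := by
      intro n
      rw [← prod_expand]
      exact prod_congr rfl fun j _ => hf' j _
    simp only [e]
    rw [sum_comm, mul_sum]
    refine sum_congr rfl fun t _ => ?_
    rw [← mul_sum, mul_left_comm]
    congr 1
    push_cast
    rfl
  rw [h5]
  refine tendsto_finsetSum _ fun t ht => ?_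
  refine Tendsto.const_mul _ ?_
  exact (Complex.continuous_ofReal.tendsto _).comp (hx t)

end Pool.Agent.Y957.MC
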