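import Pool.Agent.Y957.MC.Arg

set_option autoImplicit false

/-! The deterministic part of the mean square bound. -/

namespace Pool.Agent.Y957.MC

open MeasureTheory Filter Finset

universe u

lemma det_bound (hPAR : S_PAR) (hLV : S_LV) (hLOW : S_LOW) {Λ : ℝ} (hΛ : 1 ≤ Λ) {C₀ : ℝ} 
    (hTAIL : ∀ (F : ℝ → ℂ) (C M : ℝ) (K : ℕ), Measurable F →
      (∀ v, ‖F v‖ ≤ 1) → 1 ≤ C → 1 ≤ M → Mod Λ F C M → 1 ≤ K → ∀ S : Finset ℤ, (∀ k ∈ S, (K : ℤ) < |k|) →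
      ∑ k ∈ S, ‖cf Λ F M k‖ ^ 2 ≤ C₀ * C * M / K)
    {f : ℝ → ℂ} (hf : Measurable f) (hf1 : ∀ v, ‖f v‖ ≤ 1) {G : ℝ}
    (hG : ∀ v, 0 ≤ v → ‖∫ s in (0 : ℝ)..v, f s‖ ≤ G) {Cm : ℝ} (hCm : 1 ≤ Cm) {A U : ℝ} (hA : 0 < A) (hU : 0 < U)
    (hM : 1 ≤ A * U) (hmod : Mod Λ f Cm (A * U)) {I : Finset ℕ} {y : ℕ → ℝ} {N K₀ K : ℕ} (hN : 1 ≤ N) (hK : 1 ≤ K)
    (hI : I.card ≤ N) (hy : ∀ n ∈ I, 1 ≤ y n ∧ Real.log (2 * y n) ≤ Λ) {D E s : ℝ} (hD : 0 ≤ D) (hE : 0 ≤ E)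
    (hexp : ∀ j : ℤ, j ≠ 0 → |j| ≤ 2 * K →
      ‖∑ n ∈ I, Complex.exp (((2 * Real.pi * j / Λ * Real.log (y n) : ℝ) : ℂ) * Complex.I)‖ ≤
        D * N / |(j : ℝ)| + E) (hs0 : 0 ≤ s)
    (hs : ∀ k : ℤ, (K₀ : ℤ) < |k| → |k| ≤ K → ‖cf Λ f (A * U) k‖ ^ 2 ≤ s) {B : ℕ → ℂ} (hB : ∀ n, ‖B n‖ ≤ 1) :
    ∫ a in A..2 * A, ‖(1 / (N : ℂ)) * ∑ n ∈ I, B n * f (a * (U * y n))‖ ^ 2 ≤
      2 * Λ * A * ((2 * K₀ + 1) * (7 * G * (1 + K₀) / (A * U)) ^ 2 +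
        (2 * E / N + 2 * s * (1 + 2 * D * (1 + Real.log (2 * K)))) + C₀ * Cm * (A * U) / K) := by
  classical
  obtain ⟨h1, h2, h3⟩ := hPAR Λ f B I y A U N hΛ hf hf1 hA hU hN hy
  refine h3.trans ?_
  have hpos : 0 ≤ 2 * Λ * A := by positivity
  refine mul_le_mul_of_nonneg_left ?_ hpos
  set M := A * U with hMdef
  have hM0 : 0 < M := by linarith
  have hb : ∀ k, ‖bt Λ B I y N k‖ ^ 2 ≤ 1 := by
    intro k
    have := bt_norm_le (Λ := Λ) (y := y) hB hN hI k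
    calc ‖bt Λ B I y N k‖ ^ 2 ≤ 1 ^ 2 := by gcongr
      _ = 1 := one_pow 2
  have hle : ∀ k, ‖cf Λ f M k‖ ^ 2 * ‖bt Λ B I y N k‖ ^ 2 ≤ ‖cf Λ f M k‖ ^ 2 := fun k =>
    mul_le_of_le_one_right (by positivity) (hb k)
  have hsum : Summable fun k : ℤ => ‖cf Λ f M k‖ ^ 2 * ‖bt Λ B I y N k‖ ^ 2 :=
    Summable.of_nonneg_of_le (fun k => by positivity) hle h1
  refine hsum.tsum_le_of_sum_le fun S => ?_
  -- split the finite sum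
  have hsplit : ∑ k ∈ S, ‖cf Λ f M k‖ ^ 2 * ‖bt Λ B I y N k‖ ^ 2 =
      ∑ k ∈ S with |k| ≤ (K₀ : ℤ), ‖cf Λ f M k‖ ^ 2 * ‖bt Λ B I y N k‖ ^ 2 +
      (∑ k ∈ S with ¬ |k| ≤ (K₀ : ℤ) ∧ |k| ≤ (K : ℤ), ‖cf Λ f M k‖ ^ 2 * ‖bt Λ B I y N k‖ ^ 2 +
       ∑ k ∈ S with ¬ |k| ≤ (K₀ : ℤ) ∧ ¬ |k| ≤ (K : ℤ), ‖cf Λ f M k‖ ^ 2 * ‖bt Λ B I y N k‖ ^ 2) := by
    rw [← sum_filter_add_sum_filter_not S (fun k => |k| ≤ (K₀ : ℤ))]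
    congr 1
    rw [← sum_filter_add_sum_filter_not (S.filter fun k => ¬ |k| ≤ (K₀ : ℤ)) (fun k => |k| ≤ (K : ℤ))]
    rw [filter_filter, filter_filter]
  rw [hsplit]
  have hA1 : ∑ k ∈ S with |k| ≤ (K₀ : ℤ), ‖cf Λ f M k‖ ^ 2 * ‖bt Λ B I y N k‖ ^ 2 ≤
      (2 * K₀ + 1) * (7 * G * (1 + K₀) / M) ^ 2 := by
    have hG0 : 0 ≤ G := (norm_nonneg _).trans (hG 0 le_rfl)
    calc _ ≤ ∑ k ∈ S with |k| ≤ (K₀ : ℤ), (7 * G * (1 + K₀) / M) ^ 2 := by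
          refine sum_le_sum fun k hk => (hle k).trans ?_
          rw [mem_filter] at hk
          have h5 := hLOW Λ f G hΛ hf hf1 hG M hM0 k
          have h6 : |(k : ℝ)| ≤ K₀ := by
            have : ((|k| : ℤ) : ℝ) ≤ ((K₀ : ℤ) : ℝ) := by exact_mod_cast hk.2
            simpa using this
          have h7 : ‖cf Λ f M k‖ ≤ 7 * G * (1 + K₀) / M := by
            refine h5.trans ?_
            gcongr
          gcongr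
      _ = (S.filter fun k => |k| ≤ (K₀ : ℤ)).card * (7 * G * (1 + K₀) / M) ^ 2 := by
          rw [sum_const, nsmul_eq_mul]
      _ ≤ (2 * K₀ + 1) * (7 * G * (1 + K₀) / M) ^ 2 := by
          have hc : (S.filter fun k => |k| ≤ (K₀ : ℤ)).card ≤ 2 * K₀ + 1 := by
            calc _ ≤ (Icc (-(K₀ : ℤ)) K₀).card := by
                  refine card_le_card fun k hk => ?_
                  rw [mem_filter, abs_le] at hk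
                  exact mem_Icc.mpr hk.2
              _ = 2 * K₀ + 1 := by
                  rw [Int.card_Icc]; omega
          have hc' : ((S.filter fun k => |k| ≤ (K₀ : ℤ)).card : ℝ) ≤ 2 * K₀ + 1 := by exact_mod_cast hc
          gcongr
  have hA2 : ∑ k ∈ S with ¬ |k| ≤ (K₀ : ℤ) ∧ |k| ≤ (K : ℤ), ‖cf Λ f M k‖ ^ 2 * ‖bt Λ B I y N k‖ ^ 2 ≤
      2 * E / N + 2 * s * (1 + 2 * D * (1 + Real.log (2 * K))) := by
    refine hLV Λ I y B N K D E s (fun k => ‖cf Λ f M k‖ ^ 2) _ (by linarith) hN hK hI hB hD hE hs0 ?_ hexp ?_ ?_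
    · intro k hk
      rw [mem_filter] at hk
      exact hk.2.2
    · intro k hk
      rw [mem_filter] at hk
      exact ⟨by positivity, hs k (not_le.mp hk.2.1) hk.2.2⟩
    · exact (h1.sum_le_tsum _ (fun k _ => by positivity)).trans h2
  have hA3 : ∑ k ∈ S with ¬ |k| ≤ (K₀ : ℤ) ∧ ¬ |k| ≤ (K : ℤ), ‖cf Λ f M k‖ ^ 2 * ‖bt Λ B I y N k‖ ^ 2 ≤
      C₀ * Cm * M / K := by
    refine (sum_le_sum fun k _ => hle k).trans ?_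
    refine hTAIL f Cm M K hf hf1 hCm hM hmod hK _ fun k hk => ?_
    rw [mem_filter] at hk
    exact not_le.mp hk.2.2
  linarith

end Pool.Agent.Y957.MC
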