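import Pool.Agent.Y957.MC.Det

set_option autoImplicit false

/-! The mean square bound. -/

namespace Pool.Agent.Y957.MC

open MeasureTheory Filter Finset

universe u

/-- monotonicity of the times -/
lemma good_mono {p : ℕ → ℝ} {ε c : ℝ} (hc : 0 < c) {N : ℕ} (hp : 0 < p N)
    (h : ∀ n : ℕ, ε * N ≤ n → n ≤ N →
      c * p N ≤ p n ∧ c * p N / N ≤ p (n + 1) - p n ∧ p (n + 1) - p n ≤ p N / (c * N))
    {n : ℕ} (hn : ε * N ≤ n) (hnN : n ≤ N) : p n ≤ p N := by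
  have key : ∀ j : ℕ, n + j ≤ N → p n ≤ p (n + j) := by
    intro j
    induction j with
    | zero => intro _; simp
    | succ j ih =>
      intro hj
      have h1 := ih (by omega)
      have h2 := (h (n + j) (by push_cast; linarith [Nat.cast_nonneg (α := ℝ) j]) (by omega)).2.1
      have h3 : 0 ≤ c * p N / N := by positivity
      rw [← add_assoc]
      linarith
  have := key (N - n) (by omega)
  rwa [Nat.add_sub_cancel' hnN] at this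

/-- the numerical estimate -/
lemma num_bound {N : ℕ} (hN : 1 ≤ N) {Q : ℕ} {G Ce Λ A C₀ Cm Cs M δ : ℝ} {K₀ K : ℕ} (hCe : 0 < Ce) (hΛ : 1 ≤ Λ) (hA : 0 < A)
    (hC₀ : 0 < C₀) (hCm : 1 ≤ Cm) (hCs : 0 < Cs) (hM : 1 ≤ M) (hG : 0 ≤ G)
    (hK₀ : K₀ = ⌊Real.sqrt M⌋₊) (hK : K = K₀ + ⌈M ^ 2⌉₊ + 1) (hKQ : 2 * (K : ℝ) ≤ (N : ℝ) ^ Q) :
    |2 * Λ * A * ((2 * K₀ + 1) * (7 * G * (1 + K₀) / M) ^ 2 + 2 * (Ce * (N : ℝ) ^ (1 - δ)) / N + C₀ * Cm * M / K)| +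
      |2 * Λ * A * (2 * (1 + 2 * (Ce * Λ) * (1 + Real.log (2 * K))))| * (Cs * (1 / Real.sqrt (K₀ + 1) + 1 / M)) ≤
      2 * Λ * A * (2 * Ce) * (N : ℝ) ^ (-δ) + (2 * Λ * A * (588 * G ^ 2 + C₀ * Cm) + 
        2 * Λ * A * (2 * (1 + 2 * (Ce * Λ) * (1 + Q))) * (2 * Cs)) *
        ((1 + Real.log N) * (1 / Real.sqrt (Real.sqrt M))) := by
  have hN' : (0 : ℝ) < N := by exact_mod_cast hN
  have hN1 : (1 : ℝ) ≤ N := by exact_mod_cast hN
  have hM0 : 0 < M := by linarith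
  set q := Real.sqrt M with hq
  have hq1 : 1 ≤ q := by rw [hq]; exact Real.one_le_sqrt.mpr hM
  have hqq : q * q = M := Real.mul_self_sqrt hM0.le
  set w := Real.sqrt q with hw
  have hw1 : 1 ≤ w := by rw [hw]; exact Real.one_le_sqrt.mpr hq1
  have hww : w * w = q := Real.mul_self_sqrt (by linarith)
  have hK₀le : (K₀ : ℝ) ≤ q := by rw [hK₀]; exact Nat.floor_le (by linarith)
  have hK₀lt : q < K₀ + 1 := by rw [hK₀]; exact Nat.lt_floor_add_one q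
  have hK1 : (1 : ℝ) ≤ K := by
    have : 1 ≤ K := by omega
    exact_mod_cast this
  have hKM : M ^ 2 ≤ K := by
    have h1 : M ^ 2 ≤ ⌈M ^ 2⌉₊ := Nat.le_ceil _
    have h2 : (⌈M ^ 2⌉₊ : ℝ) ≤ K := by
      have : ⌈M ^ 2⌉₊ ≤ K := by omega
      exact_mod_cast this
    linarith
  have hlogN : 0 ≤ Real.log N := Real.log_nonneg hN1
  have hlogK0 : 0 ≤ Real.log (2 * K) := Real.log_nonneg (by linarith)
  have hlogK : Real.log (2 * K) ≤ Q * Real.log N := by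
    have := Real.log_le_log (by positivity) hKQ
    rwa [Real.log_pow] at this
  have e1 : (2 * K₀ + 1) * (7 * G * (1 + K₀) / M) ^ 2 ≤ 588 * G ^ 2 * (1 / w) := by
    have h1 : (2 * (K₀ : ℝ) + 1) ≤ 3 * q := by linarith
    have h2 : 7 * G * (1 + K₀) / M ≤ 14 * G / q := by
      rw [div_le_div_iff₀ hM0 (by linarith)]
      have : 7 * G * (1 + K₀) ≤ 14 * G * q := by nlinarith
      calc 7 * G * (1 + K₀) * q ≤ 14 * G * q * q := by gcongr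
        _ = 14 * G * M := by rw [← hqq]; ring
    calc (2 * (K₀ : ℝ) + 1) * (7 * G * (1 + K₀) / M) ^ 2 ≤ 3 * q * (14 * G / q) ^ 2 := by gcongr
      _ = 588 * G ^ 2 * (1 / q) := by field_simp; ring
      _ ≤ 588 * G ^ 2 * (1 / w) := by
          have : w ≤ q := by nlinarith
          gcongr
  have e2 : C₀ * Cm * M / K ≤ C₀ * Cm * (1 / w) := by
    have h1 : w ≤ M := by nlinarith
    calc C₀ * Cm * M / K ≤ C₀ * Cm * M / M ^ 2 := by gcongr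
      _ = C₀ * Cm * (1 / M) := by field_simp
      _ ≤ _ := by gcongr
  have e3 : 2 * (Ce * (N : ℝ) ^ (1 - δ)) / N = 2 * Ce * (N : ℝ) ^ (-δ) := by
    rw [show (1 : ℝ) - δ = 1 + (-δ) by ring, Real.rpow_add hN', Real.rpow_one]
    field_simp
  have e4 : 1 / Real.sqrt (K₀ + 1) + 1 / M ≤ 2 * (1 / w) := by
    have h1 : w ≤ Real.sqrt (K₀ + 1) := Real.sqrt_le_sqrt hK₀lt.le
    have h2 : w ≤ M := by nlinarith
    have h3 : 1 / Real.sqrt (K₀ + 1) ≤ 1 / w := by gcongr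
    have h4 : 1 / M ≤ 1 / w := by gcongr
    linarith
  have e5 : 1 + 2 * (Ce * Λ) * (1 + Real.log (2 * K)) ≤ (1 + 2 * (Ce * Λ) * (1 + Q)) * (1 + Real.log N) := by
    have h0 : 0 ≤ 2 * (Ce * Λ) := by positivity
    have h1 : 1 + Real.log (2 * K) ≤ (1 + Q) * (1 + Real.log N) := by nlinarith [Nat.cast_nonneg (α := ℝ) Q]
    calc 1 + 2 * (Ce * Λ) * (1 + Real.log (2 * K)) ≤ 1 + 2 * (Ce * Λ) * ((1 + Q) * (1 + Real.log N)) := by gcongr
      _ ≤ (1 + 2 * (Ce * Λ) * (1 + Q)) * (1 + Real.log N) := by nlinarith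
  have hw0 : 0 < 1 / w := by positivity
  have hwl : 1 / w ≤ (1 + Real.log N) * (1 / w) := by nlinarith
  have e6 : |2 * Λ * A * ((2 * K₀ + 1) * (7 * G * (1 + K₀) / M) ^ 2 + 2 * (Ce * (N : ℝ) ^ (1 - δ)) / N +
      C₀ * Cm * M / K)| ≤ 2 * Λ * A * (2 * Ce) * (N : ℝ) ^ (-δ) +
        (2 * Λ * A * (588 * G ^ 2 + C₀ * Cm)) * ((1 + Real.log N) * (1 / w)) := by
    rw [abs_of_nonneg (by positivity), e3]
    calc _ ≤ 2 * Λ * A * (588 * G ^ 2 * (1 / w) + 2 * Ce * (N : ℝ) ^ (-δ) + C₀ * Cm * (1 / w)) := by gcongr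
      _ = 2 * Λ * A * (2 * Ce) * (N : ℝ) ^ (-δ) + (2 * Λ * A * (588 * G ^ 2 + C₀ * Cm)) * (1 / w) := by ring
      _ ≤ _ := by gcongr
  have e7 : |2 * Λ * A * (2 * (1 + 2 * (Ce * Λ) * (1 + Real.log (2 * K))))| *
      (Cs * (1 / Real.sqrt (K₀ + 1) + 1 / M)) ≤
      2 * Λ * A * (2 * (1 + 2 * (Ce * Λ) * (1 + Q))) * (2 * Cs) * ((1 + Real.log N) * (1 / w)) := by
    rw [abs_of_nonneg (by positivity)]
    calc _ ≤ 2 * Λ * A * (2 * ((1 + 2 * (Ce * Λ) * (1 + Q)) * (1 + Real.log N))) * (Cs * (2 * (1 / w))) := by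
          gcongr
      _ = _ := by ring
  calc _ ≤ (2 * Λ * A * (2 * Ce) * (N : ℝ) ^ (-δ) +
        (2 * Λ * A * (588 * G ^ 2 + C₀ * Cm)) * ((1 + Real.log N) * (1 / w))) +
        2 * Λ * A * (2 * (1 + 2 * (Ce * Λ) * (1 + Q))) * (2 * Cs) * ((1 + Real.log N) * (1 / w)) :=
        add_le_add e6 e7
    _ = _ := by ring

/-- the logarithm is absorbed -/
lemma log_bound {N : ℕ} (hN : 1 ≤ N) {a γ M : ℝ} (ha : 0 < a) (hγ : 0 < γ) (hM : a * (N : ℝ) ^ γ ≤ M) :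
    (1 + Real.log N) * (1 / Real.sqrt (Real.sqrt M)) ≤
      (1 + 8 / γ) * (1 / Real.sqrt (Real.sqrt a)) * (N : ℝ) ^ (-(γ / 8)) := by
  have hN' : (0 : ℝ) < N := by exact_mod_cast hN
  have hN1 : (1 : ℝ) ≤ N := by exact_mod_cast hN
  have h1 : Real.sqrt (Real.sqrt (a * (N : ℝ) ^ γ)) = Real.sqrt (Real.sqrt a) * (N : ℝ) ^ (γ / 4) := by
    rw [Real.sqrt_mul ha.le, Real.sqrt_mul (Real.sqrt_nonneg _)]
    congr 1
    rw [Real.sqrt_eq_rpow, Real.sqrt_eq_rpow, ← Real.rpow_mul (by positivity), ← Real.rpow_mul (by positivity)]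
    congr 1; ring
  have h2 : Real.sqrt (Real.sqrt a) * (N : ℝ) ^ (γ / 4) ≤ Real.sqrt (Real.sqrt M) := by
    rw [← h1]
    exact Real.sqrt_le_sqrt (Real.sqrt_le_sqrt hM)
  have hlog0 : 0 ≤ Real.log N := Real.log_nonneg hN1
  have hlog : Real.log N ≤ (N : ℝ) ^ (γ / 8) / (γ / 8) := Real.log_le_rpow_div hN'.le (by positivity)
  have hr1 : (1 : ℝ) ≤ (N : ℝ) ^ (γ / 8) := Real.one_le_rpow hN1 (by positivity)
  have h3 : 1 + Real.log N ≤ (1 + 8 / γ) * (N : ℝ) ^ (γ / 8) := by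
    calc 1 + Real.log N ≤ (N : ℝ) ^ (γ / 8) + (N : ℝ) ^ (γ / 8) / (γ / 8) := by linarith
      _ = _ := by field_simp
  have hsa : 0 < Real.sqrt (Real.sqrt a) := Real.sqrt_pos.mpr (Real.sqrt_pos.mpr ha)
  calc (1 + Real.log N) * (1 / Real.sqrt (Real.sqrt M)) ≤
      ((1 + 8 / γ) * (N : ℝ) ^ (γ / 8)) * (1 / (Real.sqrt (Real.sqrt a) * (N : ℝ) ^ (γ / 4))) := by
        gcongr
    _ = (1 + 8 / γ) * (1 / Real.sqrt (Real.sqrt a)) * ((N : ℝ) ^ (γ / 8) * ((N : ℝ) ^ (γ / 4))⁻¹) := by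
        field_simp
    _ = _ := by
        congr 1
        rw [← Real.rpow_neg hN'.le, ← Real.rpow_add hN']
        congr 1; ring

end Pool.Agent.Y957.MC
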