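import Pool.Agent.Y957.MC.All

set_option autoImplicit false

/-! Several flows. -/

namespace Pool.Agent.Y957.MC

open MeasureTheory Filter Finset

universe u

lemma ae_real {Q : ℝ → Prop} (h1 : ∀ᵐ a : ℝ ∂(volume.restrict (Set.Ioi (0 : ℝ))), Q a)
    (h2 : ∀ᵐ a : ℝ ∂(volume.restrict (Set.Ioi (0 : ℝ))), Q (-a)) : ∀ᵐ a : ℝ, Q a := by
  rw [ae_restrict_iff' measurableSet_Ioi] at h1 h2
  have h3 : ∀ᵐ a : ℝ, -a ∈ Set.Ioi (0 : ℝ) → Q (- -a) :=
    (Measure.measurePreserving_neg (volume : Measure ℝ)).quasiMeasurePreserving.ae h2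
  have h0 : ∀ᵐ a : ℝ, a ≠ 0 := by
    have : volume ({0} : Set ℝ) = 0 := Real.volume_singleton
    rw [ae_iff]; simpa using this
  filter_upwards [h1, h3, h0] with a ha1 ha3 ha0
  rcases lt_or_gt_of_ne ha0 with h | h
  · have := ha3 (by simpa using h)
    rwa [neg_neg] at this
  · exact ha1 h

lemma flowInv_neg {X : Type u} [MeasurableSpace X] (τ : ℝ → X → X) : flowInv (fun t => τ (-t)) = flowInv τ := by
  unfold flowInv
  exact (Equiv.neg ℝ).iInf_comp (g := fun t => MeasurableSpace.invariants (τ t))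

lemma isFlow_neg {X : Type u} [MeasurableSpace X] {μ : Measure X} {τ : ℝ → X → X} (h : IsFlow μ τ) :
    IsFlow μ (fun t => τ (-t)) := by
  refine ⟨?_, fun x => by simp [h.zero], fun s t x => ?_, fun t => h.mp (-t)⟩
  · exact h.meas.comp ((measurable_neg.comp measurable_fst).prodMk measurable_snd)
  · simp only [neg_add]
    exact h.add _ _ _

/-- one flow, one polynomial, both directions of time -/
theorem flow_poly {X : Type u} [MeasurableSpace X] {μ : Measure X} [IsProbabilityMeasure μ] {τ : ℝ → X → X}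
    {g : X → ℝ} (hτ : IsFlow μ τ) (hg : Measurable g) (hgb : ∃ C, ∀ x, |g x| ≤ C) {P : Polynomial ℝ}
    (hP : 0 < P.natDegree) : ∀ᵐ x ∂μ, ∀ B : ℕ → ℂ, (∀ n, ‖B n‖ ≤ 1) → ∀ᵐ a : ℝ,
      Tendsto (fun N : ℕ => (1 / (N : ℂ)) * ∑ n ∈ Icc 1 N, B n *
        (((g (τ (a * P.eval (n : ℝ)) x) - (μ[g | flowInv τ]) x : ℝ)) : ℂ)) atTop (nhds 0) := by
  have key : ∀ P : Polynomial ℝ, 0 < P.natDegree → 0 < P.leadingCoeff → ∀ᵐ x ∂μ, ∀ B : ℕ → ℂ, (∀ n, ‖B n‖ ≤ 1) →
      ∀ᵐ a : ℝ, Tendsto (fun N : ℕ => (1 / (N : ℂ)) * ∑ n ∈ Icc 1 N, B n *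
        (((g (τ (a * P.eval (n : ℝ)) x) - (μ[g | flowInv τ]) x : ℝ)) : ℂ)) atTop (nhds 0) := by
    intro P hP hlc
    have h1 := flw_all (fun n : ℕ => P.eval (n : ℝ)) (good_poly hP hlc) X μ τ g hτ hg hgb
    have h2 := flw_all (fun n : ℕ => P.eval (n : ℝ)) (good_poly hP hlc) X μ (fun t => τ (-t)) g (isFlow_neg hτ) hg hgb
    rw [flowInv_neg] at h2
    filter_upwards [h1, h2] with x hx1 hx2 B hB
    refine ae_real (hx1 B hB) ?_
    filter_upwards [hx2 B hB] with a ha
    simpa only [neg_mul] using ha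
  rcases lt_trichotomy P.leadingCoeff 0 with h | h | h
  · have h1 := key (-P) (by rwa [Polynomial.natDegree_neg]) (by rw [Polynomial.leadingCoeff_neg]; linarith)
    filter_upwards [h1] with x hx B hB
    have h2 := (Measure.measurePreserving_neg (volume : Measure ℝ)).quasiMeasurePreserving.ae (hx B hB)
    filter_upwards [h2] with a ha
    simpa only [Polynomial.eval_neg, mul_neg, neg_mul, neg_neg] using ha
  · rw [Polynomial.leadingCoeff_eq_zero] at h
    rw [h] at hP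
    simp at hP
  · exact key P hP h

/-- truncation -/
noncomputable def trunc (C v : ℝ) : ℝ := max (-C) (min C v)

lemma trunc_bd {C : ℝ} (hC : 0 ≤ C) (v : ℝ) : |trunc C v| ≤ C := by
  unfold trunc
  rw [abs_le]
  exact ⟨le_max_left _ _, max_le (by linarith) (min_le_left _ _)⟩

lemma trunc_eq {C v : ℝ} (h : |v| ≤ C) : trunc C v = v := by
  rw [abs_le] at h
  unfold trunc
  rw [min_eq_right h.2, max_eq_right h.1]

lemma measurable_trunc (C : ℝ) : Measurable (trunc C) :=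
  measurable_const.max (measurable_const.min measurable_id)

lemma flowInv_le {X : Type u} [mX : MeasurableSpace X] (τ : ℝ → X → X) : flowInv τ ≤ mX :=
  (iInf_le _ (0 : ℝ)).trans (MeasurableSpace.invariants_le _)

lemma condExp_bd {X : Type u} {m : MeasurableSpace X} [mX : MeasurableSpace X] {μ : Measure X} [IsProbabilityMeasure μ]
    {g : X → ℝ} {C : ℝ} (hC0 : 0 ≤ C) (hC : ∀ x, |g x| ≤ C) : ∀ᵐ x ∂μ, |(μ[g | m]) x| ≤ C := by
  have h := ae_bdd_condExp_of_ae_bdd (m := m) (μ := μ) (R := ⟨C, hC0⟩) (f := g) (ae_of_all _ hC)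
  exact h

/-- several flows, real functions, one sided averages -/
theorem flows_real {X : Type u} [MeasurableSpace X] {μ : Measure X} [IsProbabilityMeasure μ] {m : ℕ}
    {τ : Fin m → ℝ → X → X} (hτ : ∀ j, IsFlow μ (τ j)) {P : Fin m → Polynomial ℝ} (hP : ∀ j, 0 < (P j).natDegree)
    {f : Fin m → X → ℝ} (hf : ∀ j, Measurable (f j)) (hfb : ∃ C, ∀ j x, |f j x| ≤ C) :
    ∀ᵐ a : Fin m → ℝ, ∀ᵐ x ∂μ, Tendsto (fun N : ℕ => (1 / (N : ℝ)) * ∑ n ∈ Icc 1 N,
      ∏ j, f j (τ j (a j * (P j).eval (n : ℝ)) x)) atTop (nhds (∏ j, (μ[f j | flowInv (τ j)]) x)) := by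
  obtain ⟨C0, hC0⟩ := hfb
  set C : ℝ := max C0 0 with hCdef
  have hCnn : 0 ≤ C := le_max_right _ _
  have hC : ∀ j x, |f j x| ≤ C := fun j x => (hC0 j x).trans (le_max_left _ _)
  set g : Fin m → X → ℝ := fun j x => trunc C ((μ[f j | flowInv (τ j)]) x) with hg
  have hgm : ∀ j, Measurable (g j) := by
    intro j
    have h1 : Measurable (μ[f j | flowInv (τ j)]) :=
      (stronglyMeasurable_condExp.mono (flowInv_le (τ j))).measurable
    exact (measurable_trunc C).comp h1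
  have hgeq : ∀ᵐ x ∂μ, ∀ j, g j x = (μ[f j | flowInv (τ j)]) x := by
    rw [ae_all_iff]
    intro j
    filter_upwards [condExp_bd (m := flowInv (τ j)) (μ := μ) hCnn (hC j)] with x hx
    exact trunc_eq hx
  have hmain := Pool.Agent.Y571.MC.prod X μ m volume (fun j x a n => f j (τ j (a * (P j).eval (n : ℝ)) x)) g
    (fun j n => ?_) hgm ⟨C, fun j x a n => hC j _⟩ ⟨C, fun j x => trunc_bd hCnn _⟩ (fun j => ?_)
  · have hv : (Measure.pi fun _ : Fin m => (volume : Measure ℝ)) = volume := rfl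
    rw [hv] at hmain
    filter_upwards [hmain] with a ha
    filter_upwards [ha, hgeq] with x hx hxg
    simpa only [hxg] using hx
  · have h1 : Measurable fun q : X × ℝ => (q.2 * (P j).eval (n : ℝ), q.1) :=
      (measurable_snd.mul_const _).prodMk measurable_fst
    exact (hf j).comp ((hτ j).meas.comp h1)
  · filter_upwards [flow_poly (hτ j) (hf j) ⟨C, hC j⟩ (hP j), hgeq] with x hx hxg B hB
    filter_upwards [hx B hB] with a ha
    simpa only [hxg j] using ha

end Pool.Agent.Y957.MC
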