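import Pool.Agent.Y957.MC.Fin

set_option autoImplicit false

/-! Several flows: complex functions, two-sided averages. -/

namespace Pool.Agent.Y957.MC

open MeasureTheory Filter Finset

universe u

/-- conditional expectations of complex functions, coordinatewise -/
lemma condExp_re_im {X : Type u} {m : MeasurableSpace X} [mX : MeasurableSpace X] {μ : Measure X}
    [IsProbabilityMeasure μ] {f : X → ℂ} (hf : Integrable f μ) :
    ∀ᵐ x ∂μ, (μ[f | m]) x = (((μ[fun y => (f y).re | m]) x : ℝ) : ℂ) + Complex.I * (((μ[fun y => (f y).im | m]) x : ℝ) : ℂ) := by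
  have h1 : Integrable (fun y => (((f y).re : ℝ) : ℂ)) μ := hf.re.ofReal
  have h2 : Integrable (fun y => (((f y).im : ℝ) : ℂ)) μ := hf.im.ofReal
  have e0 : f = (fun y => (((f y).re : ℝ) : ℂ)) + Complex.I • (fun y => (((f y).im : ℝ) : ℂ)) := by
    funext y
    simp only [Pi.add_apply, Pi.smul_apply, smul_eq_mul]
    rw [mul_comm]
    exact (Complex.re_add_im (f y)).symm
  have e1 : μ[f | m] =ᵐ[μ] μ[(fun y => (((f y).re : ℝ) : ℂ)) | m] + μ[Complex.I • (fun y => (((f y).im : ℝ) : ℂ)) | m] := by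
    conv_lhs => rw [e0]
    exact condExp_add h1 (h2.smul _) m
  have e2 : μ[Complex.I • (fun y => (((f y).im : ℝ) : ℂ)) | m] =ᵐ[μ] Complex.I • μ[(fun y => (((f y).im : ℝ) : ℂ)) | m] :=
    condExp_smul _ _ m
  have e3 : μ[(fun y => (((f y).re : ℝ) : ℂ)) | m] =ᵐ[μ] fun x => (((μ[fun y => (f y).re | m]) x : ℝ) : ℂ) :=
    (Complex.ofRealCLM.comp_condExp_comm hf.re).symm
  have e4 : μ[(fun y => (((f y).im : ℝ) : ℂ)) | m] =ᵐ[μ] fun x => (((μ[fun y => (f y).im | m]) x : ℝ) : ℂ) :=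
    (Complex.ofRealCLM.comp_condExp_comm hf.im).symm
  filter_upwards [e1, e2, e3, e4] with x h1 h2 h3 h4
  rw [h1, Pi.add_apply, h2, Pi.smul_apply, h3, h4, smul_eq_mul]

/-- expansion of a product of complex numbers in products of real and imaginary parts -/
lemma prod_expand {m : ℕ} (r i : Fin m → ℝ) :
    ∏ j, (((r j : ℝ) : ℂ) + Complex.I * ((i j : ℝ) : ℂ)) =
      ∑ t ∈ (univ : Finset (Fin m)).powerset, Complex.I ^ (univ \ t).card *
        ((∏ j, (if j ∈ t then r j else i j) : ℝ) : ℂ) := by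
  rw [Finset.prod_add]
  refine sum_congr rfl fun t _ => ?_
  rw [prod_mul_distrib, prod_const, mul_left_comm]
  congr 1
  push_cast
  rw [← Finset.prod_sdiff (subset_univ t), mul_comm]
  congr 1
  · refine prod_congr rfl fun j hj => ?_
    rw [Finset.mem_sdiff] at hj
    simp [hj.2]
  · refine prod_congr rfl fun j hj => ?_
    simp [hj]

/-- from real to complex functions -/
theorem cx_of_real {X : Type u} [mX : MeasurableSpace X] {μ : Measure X} [IsProbabilityMeasure μ] {m : ℕ}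
    (ν : Measure (Fin m → ℝ)) (w : Fin m → ℝ → ℕ → X → X) (𝓜 : Fin m → MeasurableSpace X)
    (hreal : ∀ f : Fin m → X → ℝ, (∀ j, Measurable (f j)) → (∃ C, ∀ j x, |f j x| ≤ C) →
      ∀ᵐ a ∂ν, ∀ᵐ x ∂μ, Tendsto (fun N : ℕ => (1 / (N : ℝ)) * ∑ n ∈ Icc 1 N, ∏ j, f j (w j (a j) n x)) atTop
        (nhds (∏ j, (μ[f j | 𝓜 j]) x)))
    {f : Fin m → X → ℂ} (hf : ∀ j, Measurable (f j)) (hfb : ∃ C, ∀ j x, ‖f j x‖ ≤ C) :
    ∀ᵐ a ∂ν, ∀ᵐ x ∂μ, Tendsto (fun N : ℕ => (1 / (N : ℂ)) * ∑ n ∈ Icc 1 N, ∏ j, f j (w j (a j) n x)) atTop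
        (nhds (∏ j, (μ[f j | 𝓜 j]) x)) := by
  obtain ⟨C, hC⟩ := hfb
  have hint : ∀ j, Integrable (f j) μ := fun j =>
    Integrable.of_bound (hf j).aestronglyMeasurable C (ae_of_all _ (hC j))
  have h1 : ∀ t : Finset (Fin m), ∀ᵐ a ∂ν, ∀ᵐ x ∂μ, Tendsto (fun N : ℕ => (1 / (N : ℝ)) * ∑ n ∈ Icc 1 N,
      ∏ j, (if j ∈ t then (f j (w j (a j) n x)).re else (f j (w j (a j) n x)).im)) atTop
        (nhds (∏ j, (if j ∈ t then (μ[fun y => (f j y).re | 𝓜 j]) x else (μ[fun y => (f j y).im | 𝓜 j]) x))) := by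
    intro t
    have h2 := hreal (fun j => if j ∈ t then (fun y => (f j y).re) else (fun y => (f j y).im)) ?_ ?_
    · filter_upwards [h2] with a ha
      filter_upwards [ha] with x hx
      have e1 : ∀ j, (μ[(if j ∈ t then (fun y => (f j y).re) else (fun y => (f j y).im)) | 𝓜 j]) x =
          if j ∈ t then (μ[fun y => (f j y).re | 𝓜 j]) x else (μ[fun y => (f j y).im | 𝓜 j]) x := by
        intro j; split_ifs <;> rfl
      have e2 : ∀ j y, (if j ∈ t then (fun y => (f j y).re) else (fun y => (f j y).im)) y =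
          if j ∈ t then (f j y).re else (f j y).im := by
        intro j y; split_ifs <;> rfl
      simp only [e1, e2] at hx
      exact hx
    · intro j
      split_ifs
      · exact Complex.measurable_re.comp (hf j)
      · exact Complex.measurable_im.comp (hf j)
    · refine ⟨C, fun j x => ?_⟩
      split_ifs
      · exact (Complex.abs_re_le_norm _).trans (hC j x)
      · exact (Complex.abs_im_le_norm _).trans (hC j x)
  have h2 : ∀ᵐ a ∂ν, ∀ t : Finset (Fin m), ∀ᵐ x ∂μ, Tendsto (fun N : ℕ => (1 / (N : ℝ)) * ∑ n ∈ Icc 1 N,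
      ∏ j, (if j ∈ t then (f j (w j (a j) n x)).re else (f j (w j (a j) n x)).im)) atTop
        (nhds (∏ j, (if j ∈ t then (μ[fun y => (f j y).re | 𝓜 j]) x else (μ[fun y => (f j y).im | 𝓜 j]) x))) := by
    rw [ae_all_iff]
    exact h1
  have h3 : ∀ᵐ x ∂μ, ∀ j, (μ[f j | 𝓜 j]) x = (((μ[fun y => (f j y).re | 𝓜 j]) x : ℝ) : ℂ) +
      Complex.I * (((μ[fun y => (f j y).im | 𝓜 j]) x : ℝ) : ℂ) := by
    rw [ae_all_iff]
    exact fun j => condExp_re_im (hint j)
  filter_upwards [h2] with a ha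
  have h4 : ∀ᵐ x ∂μ, ∀ t : Finset (Fin m), Tendsto (fun N : ℕ => (1 / (N : ℝ)) * ∑ n ∈ Icc 1 N,
      ∏ j, (if j ∈ t then (f j (w j (a j) n x)).re else (f j (w j (a j) n x)).im)) atTop
        (nhds (∏ j, (if j ∈ t then (μ[fun y => (f j y).re | 𝓜 j]) x else (μ[fun y => (f j y).im | 𝓜 j]) x))) := by
    rw [ae_all_iff]
    exact ha
  filter_upwards [h4, h3] with x hx hx3
  simp only [hx3]
  rw [prod_expand]
  have hf' : ∀ j y, f j y = (((f j y).re : ℝ) : ℂ) + Complex.I * (((f j y).im : ℝ) : ℂ) := by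
    intro j y; rw [mul_comm]; exact (Complex.re_add_im _).symm
  have h5 : (fun N : ℕ => (1 / (N : ℂ)) * ∑ n ∈ Icc 1 N, ∏ j, f j (w j (a j) n x)) = fun N : ℕ =>
      ∑ t ∈ (univ : Finset (Fin m)).powerset, Complex.I ^ (univ \ t).card *
        (((1 / (N : ℝ)) * ∑ n ∈ Icc 1 N,
          ∏ j, (if j ∈ t then (f j (w j (a j) n x)).re else (f j (w j (a j) n x)).im) : ℝ) : ℂ) := by
    funext N
    have e : ∀ n, ∏ j, f j (w j (a j) n x) = ∑ t ∈ (univ : Finset (Fin m)).powerset, Complex.I ^ (univ \ t).card *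
        ((∏ j, (if j ∈ t then (f j (w j (a j) n x)).re else (f j (w j (a j) n x)).im) : ℝ) : ℂ) := by
      intro n
      rw [← prod_expand]
      exact prod_congr rfl fun j _ => hf' j _
    simp only [e]
    rw [sum_comm, mul_sum]
    refine sum_congr rfl fun t _ => ?_
    rw [← mul_sum, mul_left_comm]
    congr 1
    push_cast
    rfl
  rw [h5]
  refine tendsto_finsetSum _ fun t ht => ?_
  refine Tendsto.const_mul _ ?_
  exact (Complex.continuous_ofReal.tendsto _).comp (hx t)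

/-- several flows, complex functions, two-sided averages -/
theorem flows_cx {X : Type u} [MeasurableSpace X] {μ : Measure X} [IsProbabilityMeasure μ] {m : ℕ}
    {τ : Fin m → ℝ → X → X} (hτ : ∀ j, IsFlow μ (τ j)) {P : Fin m → Polynomial ℝ} (hP : ∀ j, 0 < (P j).natDegree)
    {f : Fin m → X → ℂ} (hf : ∀ j, Measurable (f j)) (hfb : ∃ C, ∀ j x, ‖f j x‖ ≤ C) :
    ∀ᵐ a : Fin m → ℝ, ∀ᵐ x ∂μ, Tendsto (fun N : ℕ => (1 / (2 * (N : ℂ) + 1)) * ∑ n ∈ Icc (-(N : ℤ)) N,
      ∏ j, f j (τ j (a j * (P j).eval (n : ℝ)) x)) atTop (nhds (∏ j, (μ[f j | flowInv (τ j)]) x)) := by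
  have h1 := cx_of_real (μ := μ) (volume : Measure (Fin m → ℝ)) (fun j a n => τ j (a * (P j).eval (n : ℝ)))
    (fun j => flowInv (τ j)) (fun g hg hgb => flows_real hτ hP hg hgb) hf hfb
  have h2 := cx_of_real (μ := μ) (volume : Measure (Fin m → ℝ))
    (fun j a n => τ j (a * ((P j).comp (-Polynomial.X)).eval (n : ℝ)))
    (fun j => flowInv (τ j)) (fun g hg hgb => flows_real hτ (P := fun j => (P j).comp (-Polynomial.X)) (fun j => by
      have : ((P j).comp (-Polynomial.X)).natDegree = (P j).natDegree := by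
        rw [Polynomial.natDegree_comp, Polynomial.natDegree_neg, Polynomial.natDegree_X, mul_one]
      rw [this]; exact hP j) hg hgb) hf hfb
  filter_upwards [h1, h2] with a ha1 ha2
  filter_upwards [ha1, ha2] with x hx1 hx2
  set L : ℂ := ∏ j, (μ[f j | flowInv (τ j)]) x with hL
  set φ : ℤ → ℂ := fun n => ∏ j, f j (τ j (a j * (P j).eval (n : ℝ)) x) with hφ
  have e1 : ∀ N : ℕ, ∑ n ∈ Icc (-(N : ℤ)) N, φ n = φ 0 + ∑ n ∈ Icc 1 N, φ (n : ℤ) + ∑ n ∈ Icc 1 N, φ (-(n : ℤ)) := by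
    intro N
    induction N with
    | zero => simp
    | succ N ih =>
      have hI : Icc (-((N + 1 : ℕ) : ℤ)) ((N + 1 : ℕ) : ℤ) =
          insert (-((N + 1 : ℕ) : ℤ)) (insert ((N + 1 : ℕ) : ℤ) (Icc (-(N : ℤ)) N)) := by
        ext z
        simp only [mem_Icc, mem_insert]
        push_cast
        omega
      rw [hI, sum_insert, sum_insert, ih, sum_Icc_succ_top (by omega), sum_Icc_succ_top (by omega)]
      · ring
      · simp only [mem_Icc]; push_cast; omega
      · simp only [mem_Icc, mem_insert]; push_cast; omega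
  have e2 : ∀ n : ℕ, φ (n : ℤ) = ∏ j, f j (τ j (a j * (P j).eval (n : ℝ)) x) := by
    intro n; simp only [hφ]; push_cast; rfl
  have e3 : ∀ n : ℕ, φ (-(n : ℤ)) = ∏ j, f j (τ j (a j * ((P j).comp (-Polynomial.X)).eval (n : ℝ)) x) := by
    intro n; simp only [hφ, Polynomial.eval_comp, Polynomial.eval_neg, Polynomial.eval_X]; push_cast; rfl
  have e4 : ∀ N : ℕ, (1 / (2 * (N : ℂ) + 1)) * ∑ n ∈ Icc (-(N : ℤ)) N, φ n =
      φ 0 * (1 / (2 * (N : ℂ) + 1)) + ((N : ℂ) / (2 * (N : ℂ) + 1)) *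
        ((1 / (N : ℂ)) * ∑ n ∈ Icc 1 N, ∏ j, f j (τ j (a j * (P j).eval (n : ℝ)) x) +
        (1 / (N : ℂ)) * ∑ n ∈ Icc 1 N, ∏ j, f j (τ j (a j * ((P j).comp (-Polynomial.X)).eval (n : ℝ)) x)) := by
    intro N
    rw [e1]
    simp only [e2, e3]
    rcases Nat.eq_zero_or_pos N with rfl | hN
    · simp
    · have hN' : (N : ℂ) ≠ 0 := by exact_mod_cast hN.ne'
      field_simp
      ring
  have h5 : Tendsto (fun N : ℕ => (1 / (2 * (N : ℂ) + 1))) atTop (nhds 0) := by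
    have : Tendsto (fun N : ℕ => (((1 / (2 * (N : ℝ) + 1)) : ℝ) : ℂ)) atTop (nhds ((0 : ℝ) : ℂ)) := by
      refine (Complex.continuous_ofReal.tendsto _).comp ?_
      refine Tendsto.div_atTop tendsto_const_nhds ?_
      exact tendsto_atTop_add_const_right _ _ (Tendsto.const_mul_atTop (by norm_num) tendsto_natCast_atTop_atTop)
    simpa using this
  have h6 : Tendsto (fun N : ℕ => ((N : ℂ) / (2 * (N : ℂ) + 1))) atTop (nhds (1 / 2)) := by
    have e : (fun N : ℕ => ((N : ℂ) / (2 * (N : ℂ) + 1))) = fun N : ℕ => 1 / 2 - 1 / 2 * (1 / (2 * (N : ℂ) + 1)) := by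
      funext N
      have : (2 * (N : ℂ) + 1) ≠ 0 := by
        have : ((2 * (N : ℝ) + 1 : ℝ) : ℂ) ≠ 0 := by
          exact_mod_cast (by positivity : (2 * (N : ℝ) + 1) ≠ 0)
        simpa using this
      rw [div_eq_iff this, sub_mul, mul_assoc (1 / 2 : ℂ) (1 / (2 * (N : ℂ) + 1)), one_div_mul_cancel this]
      ring
    rw [e]
    have := (h5.const_mul (1 / 2 : ℂ)).const_sub (1 / 2 : ℂ)
    simpa using this
  have h7 := (h5.const_mul (φ 0)).add (h6.mul (hx1.add hx2))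
  have e5 : φ 0 * 0 + 1 / 2 * (L + L) = L := by ring
  rw [e5] at h7
  refine h7.congr fun N => ?_
  exact (e4 N).symm

end Pool.Agent.Y957.MC
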