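import Pool.Agent.Y957.MC.Fin2

set_option autoImplicit false

/-! Several flows: essentially bounded functions, and actions of `ℝ ^ d`. -/

namespace Pool.Agent.Y957.MC

open MeasureTheory Filter Finset

universe u

/-- bounded measurable versions -/
lemma exists_version {X : Type u} [MeasurableSpace X] {μ : Measure X} {f : X → ℂ} (hf : AEStronglyMeasurable f μ)
    (hfb : ∃ C : ℝ, ∀ᵐ x ∂μ, ‖f x‖ ≤ C) : ∃ g : X → ℂ, Measurable g ∧ (∃ C : ℝ, ∀ x, ‖g x‖ ≤ C) ∧ f =ᵐ[μ] g := by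
  obtain ⟨C, hC⟩ := hfb
  have hm : Measurable (hf.mk f) := hf.stronglyMeasurable_mk.measurable
  refine ⟨fun x => if ‖hf.mk f x‖ ≤ C then hf.mk f x else 0, ?_, ⟨max C 0, fun x => ?_⟩, ?_⟩
  · exact Measurable.ite (measurableSet_le hm.norm measurable_const) hm measurable_const
  · dsimp only
    split_ifs with h
    · exact h.trans (le_max_left _ _)
    · simp
  · filter_upwards [hC, hf.ae_eq_mk] with x h1 h2
    rw [← h2, if_pos h1]

/-- several flows, essentially bounded functions, two-sided averages -/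
theorem flows_Linf {X : Type u} [MeasurableSpace X] {μ : Measure X} [IsProbabilityMeasure μ] {m : ℕ}
    {τ : Fin m → ℝ → X → X} (hτ : ∀ j, IsFlow μ (τ j)) {P : Fin m → Polynomial ℝ} (hP : ∀ j, 0 < (P j).natDegree)
    {f : Fin m → X → ℂ} (hf : ∀ j, AEStronglyMeasurable (f j) μ) (hfb : ∀ j, ∃ C : ℝ, ∀ᵐ x ∂μ, ‖f j x‖ ≤ C) :
    ∀ᵐ a : Fin m → ℝ, ∀ᵐ x ∂μ, Tendsto (fun N : ℕ => (1 / (2 * (N : ℂ) + 1)) * ∑ n ∈ Icc (-(N : ℤ)) N,
      ∏ j, f j (τ j (a j * (P j).eval (n : ℝ)) x)) atTop (nhds (∏ j, (μ[f j | flowInv (τ j)]) x)) := by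
  choose g hgm hgb hfg using fun j => exists_version (hf j) (hfb j)
  choose C hC using hgb
  have hb : ∃ C' : ℝ, ∀ j x, ‖g j x‖ ≤ C' := by
    refine ⟨∑ j, |C j|, fun j x => (hC j x).trans ((le_abs_self _).trans ?_)⟩
    exact Finset.single_le_sum (f := fun j => |C j|) (fun i _ => abs_nonneg _) (Finset.mem_univ j)
  have h1 := flows_cx (μ := μ) hτ hP hgm hb
  have h2 : ∀ᵐ x ∂μ, ∀ j, (μ[f j | flowInv (τ j)]) x = (μ[g j | flowInv (τ j)]) x := by
    rw [ae_all_iff]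
    exact fun j => condExp_congr_ae (hfg j)
  filter_upwards [h1] with a ha
  have h3 : ∀ᵐ x ∂μ, ∀ (n : ℤ) (j : Fin m), f j (τ j (a j * (P j).eval (n : ℝ)) x) =
      g j (τ j (a j * (P j).eval (n : ℝ)) x) := by
    rw [ae_all_iff]
    intro n
    rw [ae_all_iff]
    intro j
    exact ((hτ j).mp (a j * (P j).eval (n : ℝ))).quasiMeasurePreserving.ae (hfg j)
  filter_upwards [ha, h2, h3] with x hx hx2 hx3
  simpa only [hx2, hx3] using hx

/-- measurable measure preserving actions of `ℝ ^ d` -/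
structure IsAct {X : Type u} [MeasurableSpace X] (μ : Measure X) {d : ℕ} (σ : (Fin d → ℝ) → X → X) : Prop where
  meas : Measurable (fun p : (Fin d → ℝ) × X => σ p.1 p.2)
  zero : ∀ x, σ 0 x = x
  add : ∀ s t x, σ (s + t) x = σ s (σ t x)
  mp : ∀ t, MeasurePreserving (σ t) μ μ

lemma IsAct.flow {X : Type u} [MeasurableSpace X] {μ : Measure X} {d : ℕ} {σ : (Fin d → ℝ) → X → X} (h : IsAct μ σ)
    (v : Fin d → ℝ) : IsFlow μ (fun t => σ (t • v)) := by
  refine ⟨?_, fun x => by rw [zero_smul, h.zero], fun s t x => by rw [add_smul, h.add], fun t => h.mp _⟩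
  exact h.meas.comp ((measurable_fst.smul_const v).prodMk measurable_snd)

/-- from almost every dilation to almost every vector -/
lemma ae_of_dil {m d : ℕ} {Q : (Fin m → Fin d → ℝ) → Prop} (hQ : MeasurableSet {v | Q v})
    (h : ∀ v : Fin m → Fin d → ℝ, ∀ᵐ a : Fin m → ℝ, Q (fun j => a j • v j)) : ∀ᵐ v : Fin m → Fin d → ℝ, Q v := by
  have hmeas : Measurable fun q : (Fin m → ℝ) × (Fin m → Fin d → ℝ) => fun j => q.1 j • q.2 j := by
    refine measurable_pi_lambda _ fun j => ?_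
    exact ((measurable_pi_apply j).comp measurable_fst).smul ((measurable_pi_apply j).comp measurable_snd)
  have h1 : ∀ᵐ a : Fin m → ℝ, ∀ᵐ v : Fin m → Fin d → ℝ, Q (fun j => a j • v j) := by
    have h2 : ∀ᵐ v : Fin m → Fin d → ℝ, ∀ᵐ a : Fin m → ℝ, Q (fun j => a j • v j) := ae_of_all _ h
    have hset : MeasurableSet {q : (Fin m → Fin d → ℝ) × (Fin m → ℝ) | Q (fun j => q.2 j • q.1 j)} := 
      (hmeas.comp measurable_swap) hQ
    exact (Measure.ae_ae_comm hset).mp h2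
  have h0 : ∀ᵐ a : Fin m → ℝ, ∀ j, a j ≠ 0 := by
    rw [ae_all_iff]
    intro j
    have : ∀ᵐ t : ℝ, t ≠ 0 := by
      rw [ae_iff]; simp
    exact (Measure.quasiMeasurePreserving_eval (fun _ : Fin m => (volume : Measure ℝ)) j).ae this
  obtain ⟨a, ha1, ha0⟩ := (h1.and h0).exists
  -- the inverse dilation is linear and invertible
  let e : (Fin m → Fin d → ℝ) ≃ₗ[ℝ] (Fin m → Fin d → ℝ) :=
    LinearEquiv.piCongrRight fun j => LinearEquiv.smulOfNeZero ℝ (Fin d → ℝ) (a j)⁻¹ (inv_ne_zero (ha0 j))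
  have hdet : LinearMap.det (e : (Fin m → Fin d → ℝ) →ₗ[ℝ] (Fin m → Fin d → ℝ)) ≠ 0 :=
    (LinearEquiv.isUnit_det' e).ne_zero
  have hqmp := Measure.LinearMap.quasiMeasurePreserving (μ := (volume : Measure (Fin m → Fin d → ℝ)))
    (e : (Fin m → Fin d → ℝ) →ₗ[ℝ] (Fin m → Fin d → ℝ)) hdet
  have h3 := hqmp.ae ha1
  filter_upwards [h3] with v hv
  have e1 : (fun j => a j • ((e : (Fin m → Fin d → ℝ) →ₗ[ℝ] (Fin m → Fin d → ℝ)) v) j) = v := by
    funext j
    have : ((e : (Fin m → Fin d → ℝ) →ₗ[ℝ] (Fin m → Fin d → ℝ)) v) j = (a j)⁻¹ • v j := rfl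
    rw [this, smul_smul, mul_inv_cancel₀ (ha0 j), one_smul]
  rwa [e1] at hv

/-- actions of `ℝ ^ d`: almost every tuple of vectors, all integer polynomials -/
theorem act_ae {X : Type u} [MeasurableSpace X] {μ : Measure X} [IsProbabilityMeasure μ] {m d : ℕ}
    {σ : (Fin d → ℝ) → X → X} (hσ : IsAct μ σ)
    {f : Fin m → X → ℂ} (hf : ∀ j, AEStronglyMeasurable (f j) μ) (hfb : ∀ j, ∃ C : ℝ, ∀ᵐ x ∂μ, ‖f j x‖ ≤ C) :
    ∀ᵐ v : Fin m → Fin d → ℝ, ∀ P : Fin m → Polynomial ℤ, (∀ j, 0 < (P j).natDegree) → ∀ᵐ x ∂μ, ∃ L : ℂ,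
      Tendsto (fun N : ℕ => (1 / (2 * (N : ℂ) + 1)) * ∑ n ∈ Icc (-(N : ℤ)) N,
        ∏ j, f j (σ ((((P j).eval n : ℤ) : ℝ) • v j) x)) atTop (nhds L) := by
  choose g hgm hgb hfg using fun j => exists_version (hf j) (hfb j)
  have : Countable (Polynomial ℤ) := by
    let φ : Polynomial ℤ → (Σ s : Finset ℕ, (s → ℤ)) := fun p => ⟨p.support, fun i => p.coeff i⟩
    refine Function.Injective.countable (f := φ) fun p q h => ?_
    have h1 : p.support = q.support := congrArg Sigma.fst h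
    ext n
    by_cases hn : n ∈ p.support
    · have h2 : ∀ (s t : Finset ℕ) (a : s → ℤ) (b : t → ℤ) (hn : n ∈ s) (hn' : n ∈ t),
          (⟨s, a⟩ : Σ s : Finset ℕ, (s → ℤ)) = ⟨t, b⟩ → a ⟨n, hn⟩ = b ⟨n, hn'⟩ := by
        intro s t a b hs ht hst
        obtain ⟨rfl, hab⟩ := Sigma.mk.inj_iff.mp hst
        rw [eq_of_heq hab]
      exact h2 _ _ _ _ hn (h1 ▸ hn) h
    · have hn' : n ∉ q.support := h1 ▸ hn
      rw [Polynomial.notMem_support_iff.mp hn, Polynomial.notMem_support_iff.mp hn']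
  rw [ae_all_iff]
  intro P
  by_cases hP : ∀ j, 0 < (P j).natDegree
  swap
  · exact ae_of_all _ fun v h => absurd h hP
  have key : ∀ᵐ v : Fin m → Fin d → ℝ, ∀ᵐ x ∂μ, ∃ L : ℂ,
      Tendsto (fun N : ℕ => (1 / (2 * (N : ℂ) + 1)) * ∑ n ∈ Icc (-(N : ℤ)) N,
        ∏ j, g j (σ ((((P j).eval n : ℤ) : ℝ) • v j) x)) atTop (nhds L) := by
    refine ae_of_dil ?_ ?_
    · have hm : ∀ N : ℕ, Measurable fun q : (Fin m → Fin d → ℝ) × X => (1 / (2 * (N : ℂ) + 1)) *
          ∑ n ∈ Icc (-(N : ℤ)) N, ∏ j, g j (σ ((((P j).eval n : ℤ) : ℝ) • q.1 j) q.2) := by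
        intro N
        refine measurable_const.mul (Finset.measurable_sum _ fun n _ => Finset.measurable_prod _ fun j _ => ?_)
        refine (hgm j).comp (hσ.meas.comp (Measurable.prodMk ?_ measurable_snd))
        have hj : Measurable fun q : (Fin m → Fin d → ℝ) × X => q.1 j := (measurable_pi_apply j).comp measurable_fst
        exact hj.const_smul (((P j).eval n : ℤ) : ℝ)
      have h1 := measurableSet_exists_tendsto (l := atTop) hm
      have h2 : Measurable fun v : Fin m → Fin d → ℝ => μ (Prod.mk v ⁻¹' {q : (Fin m → Fin d → ℝ) × X | ∃ L : ℂ,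
        Tendsto (fun N : ℕ => (1 / (2 * (N : ℂ) + 1)) * ∑ n ∈ Icc (-(N : ℤ)) N,
          ∏ j, g j (σ ((((P j).eval n : ℤ) : ℝ) • q.1 j) q.2)) atTop (nhds L)}ᶜ) :=
        measurable_measure_prodMk_left h1.compl
      exact h2 (measurableSet_singleton 0)
    · intro v
      have h1 := flows_Linf (μ := μ) (τ := fun j t => σ (t • v j)) (fun j => hσ.flow (v j))
        (P := fun j => (P j).map (Int.castRingHom ℝ)) (fun j => by
          rw [Polynomial.natDegree_map_eq_of_injective (RingHom.injective_int (Int.castRingHom ℝ))]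
          exact hP j) (f := g) (fun j => (hgm j).aestronglyMeasurable) (fun j => by
            obtain ⟨C, hC⟩ := hgb j
            exact ⟨C, ae_of_all _ hC⟩)
      filter_upwards [h1] with a ha
      filter_upwards [ha] with x hx
      refine ⟨_, hx.congr fun N => ?_⟩
      congr 1
      refine sum_congr rfl fun n _ => prod_congr rfl fun j _ => ?_
      have e1 : ((P j).map (Int.castRingHom ℝ)).eval (n : ℝ) = (((P j).eval n : ℤ) : ℝ) := by
        rw [Polynomial.eval_map, Polynomial.eval₂_at_intCast]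
        simp
      rw [e1, smul_smul, mul_comm]
  filter_upwards [key] with v hv _
  have h3 : ∀ᵐ x ∂μ, ∀ (n : ℤ) (j : Fin m), f j (σ ((((P j).eval n : ℤ) : ℝ) • v j) x) =
      g j (σ ((((P j).eval n : ℤ) : ℝ) • v j) x) := by
    rw [ae_all_iff]
    intro n
    rw [ae_all_iff]
    intro j
    exact (hσ.mp _).quasiMeasurePreserving.ae (hfg j)
  filter_upwards [hv, h3] with x hx hx3
  simpa only [hx3] using hx

end Pool.Agent.Y957.MC
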