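import Pool.Agent.Y957.MC.Fin5

set_option autoImplicit false

/-! Discrete and continuous multiple averages at almost all times: Besicovitch almost periodic weights. -/

namespace Pool.Agent.Y957.MC

open MeasureTheory Filter Finset

universe u

lemma psav_smul (c : ℂ) {B : ℕ → ℂ} {b : ℂ} (h : PSav B b) : PSav (fun n => c * B n) (c * b) := by
  intro ε Q hε
  obtain ⟨δ, hδ, C, hC, h1⟩ := h ε Q hε
  refine ⟨δ, hδ, (‖c‖ + 1) * C, by positivity, ?_⟩
  filter_upwards [h1] with N hN κ hκ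
  have e : ∑ n ∈ Ioc ⌊ε * N⌋₊ N, (c * B n - c * b) * Complex.exp (((κ * Real.log n : ℝ) : ℂ) * Complex.I) =
      c * ∑ n ∈ Ioc ⌊ε * N⌋₊ N, (B n - b) * Complex.exp (((κ * Real.log n : ℝ) : ℂ) * Complex.I) := by
    rw [mul_sum]
    exact sum_congr rfl fun n _ => by ring
  rw [e, norm_mul]
  calc ‖c‖ * ‖∑ n ∈ Ioc ⌊ε * N⌋₊ N, (B n - b) * Complex.exp (((κ * Real.log n : ℝ) : ℂ) * Complex.I)‖
      ≤ (‖c‖ + 1) * (C * (N : ℝ) ^ (1 - δ)) := by
        refine mul_le_mul (by linarith) (hN κ hκ) (norm_nonneg _) (by positivity)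
    _ = _ := by ring

/-- characters -/
lemma psav_exp (α : ℝ) : ∃ b : ℂ, PSav (fun n => Complex.exp (((2 * Real.pi * α * n : ℝ) : ℂ) * Complex.I)) b := by
  by_cases h : ∀ k : ℤ, α ≠ k
  · exact ⟨0, Pool.Agent.Y220.MC.PS.pse α h⟩
  · push Not at h
    obtain ⟨k, hk⟩ := h
    refine ⟨1, ?_⟩
    have h1 := Pool.Agent.Y220.MC.PS.psav_const 1
    have e : (fun n : ℕ => Complex.exp (((2 * Real.pi * α * n : ℝ) : ℂ) * Complex.I)) = fun _ => (1 : ℂ) := by
      funext n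
      rw [Complex.exp_eq_one_iff]
      refine ⟨k * n, ?_⟩
      rw [hk]
      push_cast
      ring
    rw [e]
    exact h1

/-- trigonometric polynomials -/
lemma psav_trig (s : Finset ℝ) (c : ℝ → ℂ) : ∃ b : ℂ,
    PSav (fun n => ∑ α ∈ s, c α * Complex.exp (((2 * Real.pi * α * n : ℝ) : ℂ) * Complex.I)) b := by
  classical
  induction s using Finset.induction_on with
  | empty =>
    refine ⟨0, ?_⟩
    simpa using Pool.Agent.Y220.MC.PS.psav_const 0
  | insert α s hα ih =>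
    obtain ⟨b, hb⟩ := ih
    obtain ⟨b', hb'⟩ := psav_exp α
    refine ⟨c α * b' + b, ?_⟩
    have h1 := Pool.Agent.Y220.MC.PS.psav_add (psav_smul (c α) hb') hb
    simp only [Finset.sum_insert hα]
    exact h1

/-- Besicovitch almost periodic sequences -/
def Bes (B : ℕ → ℂ) : Prop := ∀ ε : ℝ, 0 < ε → ∃ (s : Finset ℝ) (c : ℝ → ℂ), ∀ᶠ N : ℕ in atTop,
  (1 / (N : ℝ)) * ∑ n ∈ Icc 1 N,
    ‖B n - ∑ α ∈ s, c α * Complex.exp (((2 * Real.pi * α * n : ℝ) : ℂ) * Complex.I)‖ ≤ ε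

/-- the mean of a sequence with power saving -/
lemma psav_mean {B : ℕ → ℂ} {b : ℂ} (hB : PSav B b) (hBb : ∃ C : ℝ, ∀ n, ‖B n‖ ≤ C) :
    Tendsto (fun N : ℕ => (1 / (N : ℂ)) * ∑ n ∈ Icc 1 N, B n) atTop (nhds b) := by
  have h1 := mul_Linf hB hBb (X := Unit) (μ := Measure.dirac ()) (m := 0) (τ := fun j => j.elim0)
    (fun j => j.elim0) (f := fun j => j.elim0) (fun j => j.elim0) (fun j => j.elim0)
  have h2 : (volume : Measure ℝ) (Set.Ioi 0) ≠ 0 := by simp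
  have h3 : ∃ a : ℝ, 0 < a ∧ (0 < a → ∀ᵐ x ∂(Measure.dirac () : Measure Unit),
      Tendsto (fun N : ℕ => (1 / (N : ℂ)) * ∑ n ∈ Icc 1 N, B n * 1 -
        b * ((1 / ((a * N : ℝ) : ℂ)) * ∫ v in (0 : ℝ)..(a * N), (1 : ℂ))) atTop (nhds 0)) := by
    by_contra hne
    push Not at hne
    apply h2
    refine measure_mono_null ?_ (ae_iff.mp h1)
    intro a ha
    have h4 := hne a ha
    simp only [Set.mem_ofPred_eq]
    intro h5
    apply h4.2
    have h6 := h5 h4.1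
    simpa using h6
  obtain ⟨a, ha, h4⟩ := h3
  have h5 := h4 ha
  have h6 : (ae (Measure.dirac () : Measure Unit)).NeBot := inferInstance
  obtain ⟨-, h7⟩ := h5.exists
  have h8 := h7.add_const b
  rw [zero_add] at h8
  refine h8.congr' ?_
  filter_upwards [eventually_gt_atTop 0] with N hN
  have hN' : (0 : ℝ) < N := Nat.cast_pos.2 hN
  have haN : ((a * N : ℝ) : ℂ) ≠ 0 := by
    have : a * (N : ℝ) ≠ 0 := by positivity
    exact_mod_cast this
  have e1 : ∫ v in (0 : ℝ)..(a * N), (1 : ℂ) = ((a * N : ℝ) : ℂ) := by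
    rw [intervalIntegral.integral_const]
    simp
  rw [e1, one_div_mul_cancel haN]
  simp only [mul_one]
  ring

/-- Besicovitch almost periodic weights -/
theorem bes_Linf {B : ℕ → ℂ} {b : ℂ} (hB : Bes B)
    (hmean : Tendsto (fun N : ℕ => (1 / (N : ℂ)) * ∑ n ∈ Icc 1 N, B n) atTop (nhds b)) {X : Type u}
    [MeasurableSpace X] {μ : Measure X} [IsProbabilityMeasure μ] {m : ℕ} {τ : Fin m → ℝ → X → X}
    (hτ : ∀ j, IsFlow μ (τ j)) {f : Fin m → X → ℂ} (hf : ∀ j, AEStronglyMeasurable (f j) μ)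
    (hfb : ∀ j, ∃ C : ℝ, ∀ᵐ x ∂μ, ‖f j x‖ ≤ C) :
    ∀ᵐ a : ℝ, 0 < a → ∀ᵐ x ∂μ,
      Tendsto (fun N : ℕ => (1 / (N : ℂ)) * ∑ n ∈ Icc 1 N, B n * ∏ j, f j (τ j (a * n) x) -
        b * ((1 / ((a * N : ℝ) : ℂ)) * ∫ v in (0 : ℝ)..(a * N), ∏ j, f j (τ j v x))) atTop (nhds 0) := by
  choose C' hC' using hfb
  set K : ℝ := ∏ j, |C' j| with hK
  have hK0 : 0 ≤ K := Finset.prod_nonneg fun j _ => abs_nonneg _
  choose s c hsc using fun k : ℕ => hB (1 / ((k : ℝ) + 1)) (by positivity)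
  set P : ℕ → ℕ → ℂ := fun k n => ∑ α ∈ s k, c k α * Complex.exp (((2 * Real.pi * α * n : ℝ) : ℂ) * Complex.I) with hP
  choose b' hb' using fun k : ℕ => psav_trig (s k) (c k)
  have hPb : ∀ k, ∃ C : ℝ, ∀ n, ‖P k n‖ ≤ C := by
    intro k
    refine ⟨∑ α ∈ s k, ‖c k α‖, fun n => (norm_sum_le _ _).trans (Finset.sum_le_sum fun α _ => ?_)⟩
    rw [norm_mul, Complex.norm_exp_ofReal_mul_I, mul_one]
  have hbb : ∀ k, ‖b' k - b‖ ≤ 1 / ((k : ℝ) + 1) := by
    intro k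
    have h1 := psav_mean (hb' k) (hPb k)
    have h2 := (h1.sub hmean).norm
    refine le_of_tendsto h2 ?_
    filter_upwards [hsc k] with N hN
    rw [← mul_sub, ← Finset.sum_sub_distrib, norm_mul, norm_div, norm_one, Complex.norm_natCast]
    refine le_trans (mul_le_mul_of_nonneg_left (norm_sum_le _ _) (by positivity)) ?_
    refine le_trans (le_of_eq ?_) hN
    congr 1
    exact Finset.sum_congr rfl fun n _ => norm_sub_rev _ _
  have h1 : ∀ k, ∀ᵐ a : ℝ, 0 < a → ∀ᵐ x ∂μ,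
      Tendsto (fun N : ℕ => (1 / (N : ℂ)) * ∑ n ∈ Icc 1 N, P k n * ∏ j, f j (τ j (a * n) x) -
        b' k * ((1 / ((a * N : ℝ) : ℂ)) * ∫ v in (0 : ℝ)..(a * N), ∏ j, f j (τ j v x))) atTop (nhds 0) :=
    fun k => mul_Linf (hb' k) (hPb k) hτ hf (fun j => ⟨C' j, hC' j⟩)
  filter_upwards [ae_all_iff.2 h1] with a ha ha0
  have h2 : ∀ᵐ x ∂μ, ∀ k, Tendsto (fun N : ℕ => (1 / (N : ℂ)) * ∑ n ∈ Icc 1 N, P k n *
        ∏ j, f j (τ j (a * n) x) -
        b' k * ((1 / ((a * N : ℝ) : ℂ)) * ∫ v in (0 : ℝ)..(a * N), ∏ j, f j (τ j v x))) atTop (nhds 0) :=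
    ae_all_iff.2 fun k => ha k ha0
  have h3 : ∀ᵐ x ∂μ, ∀ n : ℕ, ‖∏ j, f j (τ j (a * n) x)‖ ≤ K := by
    rw [ae_all_iff]
    intro n
    have h4 : ∀ᵐ x ∂μ, ∀ j, ‖f j (τ j (a * n) x)‖ ≤ C' j :=
      ae_all_iff.2 fun j => ((hτ j).mp (a * n)).quasiMeasurePreserving.ae (hC' j)
    filter_upwards [h4] with x hx
    rw [norm_prod]
    exact Finset.prod_le_prod (fun j _ => norm_nonneg _) fun j _ => (hx j).trans (le_abs_self _)
  have h4 : ∀ᵐ x ∂μ, ∀ᵐ v : ℝ, ‖∏ j, f j (τ j v x)‖ ≤ K := by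
    have h5 : ∀ j, ∀ᵐ x ∂μ, ∀ᵐ v : ℝ, ‖f j (τ j v x)‖ ≤ C' j := by
      intro j
      obtain ⟨E, hE, hEm, hE0⟩ : ∃ E : Set X, {x | ¬ ‖f j x‖ ≤ C' j} ⊆ E ∧ MeasurableSet E ∧ μ E = 0 :=
        exists_measurable_superset_of_null (ae_iff.mp (hC' j))
      have h5 : ∀ᵐ x ∂μ, ∀ᵐ t : ℝ, τ j t x ∉ E := by
        have hset : MeasurableSet {q : ℝ × X | τ j q.1 q.2 ∉ E} := (hτ j).meas hEm.compl
        rw [← Measure.ae_ae_comm hset]
        refine ae_of_all _ fun t => ?_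
        exact ((hτ j).mp t).quasiMeasurePreserving.ae (show ∀ᵐ x ∂μ, x ∉ E from by rw [ae_iff]; simpa using hE0)
      filter_upwards [h5] with x hx
      filter_upwards [hx] with t ht
      by_contra hne
      exact ht (hE hne)
    filter_upwards [ae_all_iff.2 h5] with x hx
    filter_upwards [ae_all_iff.2 hx] with v hv
    rw [norm_prod]
    exact Finset.prod_le_prod (fun j _ => norm_nonneg _) fun j _ => (hv j).trans (le_abs_self _)
  filter_upwards [h2, h3, h4] with x hx2 hx3 hx4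
  rw [Metric.tendsto_nhds]
  intro ε hε
  obtain ⟨k, hk⟩ := exists_nat_one_div_lt (show 0 < ε / (4 * (K + 1)) by positivity)
  have hk' : 1 / ((k : ℝ) + 1) * (K + 1) < ε / 4 := by
    rw [lt_div_iff₀ (by positivity)] at hk
    linarith
  filter_upwards [(Metric.tendsto_nhds.1 (hx2 k)) (ε / 4) (by positivity), hsc k, eventually_gt_atTop 0]
    with N hN1 hN2 hN0
  rw [dist_zero_right] at hN1 ⊢
  have hN' : (0 : ℝ) < N := Nat.cast_pos.2 hN0
  have haN : 0 < a * N := by positivity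
  set I : ℂ := (1 / ((a * N : ℝ) : ℂ)) * ∫ v in (0 : ℝ)..(a * N), ∏ j, f j (τ j v x) with hI
  have hIn : ‖I‖ ≤ K := by
    rw [hI, norm_mul, norm_div, norm_one, Complex.norm_real, Real.norm_of_nonneg haN.le]
    have h5 : ‖∫ v in (0 : ℝ)..(a * N), ∏ j, f j (τ j v x)‖ ≤ K * |a * N - 0| :=
      intervalIntegral.norm_integral_le_of_norm_le_const_ae (by
        filter_upwards [hx4] with v hv _ using hv)
    rw [sub_zero, abs_of_pos haN] at h5
    rw [one_div, inv_mul_le_iff₀ haN]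
    linarith
  have e1 : (1 / (N : ℂ)) * ∑ n ∈ Icc 1 N, B n * ∏ j, f j (τ j (a * n) x) - b * I =
      ((1 / (N : ℂ)) * ∑ n ∈ Icc 1 N, P k n * ∏ j, f j (τ j (a * n) x) - b' k * I) +
      ((1 / (N : ℂ)) * ∑ n ∈ Icc 1 N, (B n - P k n) * ∏ j, f j (τ j (a * n) x)) + (b' k - b) * I := by
    simp only [sub_mul, Finset.sum_sub_distrib, mul_sub]
    ring
  rw [e1]
  have h5 : ‖(1 / (N : ℂ)) * ∑ n ∈ Icc 1 N, (B n - P k n) * ∏ j, f j (τ j (a * n) x)‖ ≤
      1 / ((k : ℝ) + 1) * K := by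
    rw [norm_mul, norm_div, norm_one, Complex.norm_natCast]
    calc 1 / (N : ℝ) * ‖∑ n ∈ Icc 1 N, (B n - P k n) * ∏ j, f j (τ j (a * n) x)‖
        ≤ 1 / (N : ℝ) * ∑ n ∈ Icc 1 N, ‖B n - P k n‖ * K := by
          refine mul_le_mul_of_nonneg_left ((norm_sum_le _ _).trans (Finset.sum_le_sum fun n _ => ?_)) (by positivity)
          rw [norm_mul]
          exact mul_le_mul_of_nonneg_left (hx3 n) (norm_nonneg _)
      _ = (1 / (N : ℝ) * ∑ n ∈ Icc 1 N, ‖B n - P k n‖) * K := by rw [← Finset.sum_mul, mul_assoc]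
      _ ≤ _ := mul_le_mul_of_nonneg_right hN2 hK0
  have h6 : ‖(b' k - b) * I‖ ≤ 1 / ((k : ℝ) + 1) * K := by
    rw [norm_mul]
    exact mul_le_mul (hbb k) hIn (norm_nonneg _) (by positivity)
  have h7 : 1 / ((k : ℝ) + 1) * K ≤ 1 / ((k : ℝ) + 1) * (K + 1) :=
    mul_le_mul_of_nonneg_left (by linarith) (by positivity)
  refine (norm_add_le _ _).trans_lt ?_
  have h8 := norm_add_le ((1 / (N : ℂ)) * ∑ n ∈ Icc 1 N, P k n * ∏ j, f j (τ j (a * n) x) - b' k * I)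
    ((1 / (N : ℂ)) * ∑ n ∈ Icc 1 N, (B n - P k n) * ∏ j, f j (τ j (a * n) x))
  linarith

/-- from discrete to continuous averages of one function -/
lemma cont_of_disc {G : ℝ → ℂ} {C a : ℝ} {L : ℂ} (ha : 0 < a) (hC : 0 ≤ C) (hG : ∀ᵐ v : ℝ, ‖G v‖ ≤ C)
    (hi : ∀ V W : ℝ, IntervalIntegrable G volume V W)
    (h : Tendsto (fun N : ℕ => (1 / ((a * N : ℝ) : ℂ)) * ∫ v in (0 : ℝ)..(a * N), G v) atTop (nhds L)) :
    Tendsto (fun V : ℝ => (1 / (V : ℂ)) * ∫ v in (0 : ℝ)..V, G v) atTop (nhds L) := by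
  have h1 : Tendsto (fun V : ℝ => ⌊V / a⌋₊) atTop atTop :=
    tendsto_nat_floor_atTop.comp (tendsto_id.atTop_div_const ha)
  have h2 := h.comp h1
  have h3 : Tendsto (fun V : ℝ => (2 * C * a) / V) atTop (nhds 0) := tendsto_const_nhds.div_atTop tendsto_id
  have h4 : Tendsto (fun V : ℝ => (1 / (V : ℂ)) * (∫ v in (0 : ℝ)..V, G v) -
      (1 / ((a * (⌊V / a⌋₊ : ℝ) : ℝ) : ℂ)) * ∫ v in (0 : ℝ)..(a * ⌊V / a⌋₊), G v) atTop (nhds 0) := by
    refine squeeze_zero_norm' ?_ h3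
    filter_upwards [eventually_ge_atTop a] with V hV
    have hV0 : 0 < V := ha.trans_le hV
    set W : ℝ := a * ⌊V / a⌋₊ with hW
    have hW1 : W ≤ V := by
      have := Nat.floor_le (show 0 ≤ V / a by positivity)
      rw [hW]
      calc a * (⌊V / a⌋₊ : ℝ) ≤ a * (V / a) := by gcongr
        _ = V := by field_simp
    have hW2 : V - W ≤ a := by
      have h5 := Nat.lt_floor_add_one (V / a)
      have h6 : V < a * (⌊V / a⌋₊ + 1) := by
        rw [div_lt_iff₀ ha] at h5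
        linarith
      rw [hW]
      linarith
    have hW0 : 0 < W := by
      have h5 : 1 ≤ ⌊V / a⌋₊ := Nat.le_floor (by rw [Nat.cast_one, le_div_iff₀ ha]; linarith)
      have h6 : (1 : ℝ) ≤ ⌊V / a⌋₊ := by exact_mod_cast h5
      rw [hW]
      positivity
    have hVc : (V : ℂ) ≠ 0 := by exact_mod_cast hV0.ne'
    have hWc : (W : ℂ) ≠ 0 := by exact_mod_cast hW0.ne'
    have hsplit : ∫ v in (0 : ℝ)..V, G v = (∫ v in (0 : ℝ)..W, G v) + ∫ v in W..V, G v :=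
      (intervalIntegral.integral_add_adjacent_intervals (hi _ _) (hi _ _)).symm
    have e1 : (1 / (V : ℂ)) * (∫ v in (0 : ℝ)..V, G v) - (1 / (W : ℂ)) * ∫ v in (0 : ℝ)..W, G v =
        (1 / (V : ℂ)) * (∫ v in W..V, G v) - (((V - W : ℝ) : ℂ) / (V * W)) * ∫ v in (0 : ℝ)..W, G v := by
      rw [hsplit]
      push_cast
      field_simp
      ring
    rw [e1]
    have b1 : ‖∫ v in W..V, G v‖ ≤ C * |V - W| :=
      intervalIntegral.norm_integral_le_of_norm_le_const_ae (by filter_upwards [hG] with v hv _ using hv)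
    have b2 : ‖∫ v in (0 : ℝ)..W, G v‖ ≤ C * |W - 0| :=
      intervalIntegral.norm_integral_le_of_norm_le_const_ae (by filter_upwards [hG] with v hv _ using hv)
    rw [abs_of_nonneg (by linarith)] at b1
    rw [sub_zero, abs_of_pos hW0] at b2
    have b3 : ‖(1 / (V : ℂ)) * (∫ v in W..V, G v)‖ ≤ C * a / V := by
      rw [norm_mul, norm_div, norm_one, Complex.norm_real, Real.norm_of_nonneg hV0.le]
      rw [one_div, inv_mul_le_iff₀ hV0]
      calc ‖∫ v in W..V, G v‖ ≤ C * (V - W) := b1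
        _ ≤ C * a := mul_le_mul_of_nonneg_left hW2 hC
        _ = V * (C * a / V) := by field_simp
    have b4 : ‖(((V - W : ℝ) : ℂ) / (V * W)) * ∫ v in (0 : ℝ)..W, G v‖ ≤ C * a / V := by
      rw [norm_mul, norm_div, norm_mul, Complex.norm_real, Complex.norm_real, Complex.norm_real,
        Real.norm_of_nonneg hV0.le, Real.norm_of_nonneg hW0.le, Real.norm_of_nonneg (by linarith : 0 ≤ V - W)]
      calc (V - W) / (V * W) * ‖∫ v in (0 : ℝ)..W, G v‖ ≤ a / (V * W) * (C * W) := by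
            refine mul_le_mul ?_ b2 (norm_nonneg _) (by positivity)
            gcongr
        _ = C * a / V := by field_simp
    refine (norm_sub_le _ _).trans ?_
    calc _ ≤ C * a / V + C * a / V := add_le_add b3 b4
      _ = 2 * C * a / V := by ring
  have h5 := h4.add h2
  rw [zero_add] at h5
  refine h5.congr fun V => ?_
  simp only [Function.comp_apply]
  push_cast
  ring

end Pool.Agent.Y957.MC
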