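import Pool.Agent.Y957.MC.Fin6

set_option autoImplicit false

/-! Discrete and continuous multiple averages at almost all times: convergence. -/

namespace Pool.Agent.Y957.MC

open MeasureTheory Filter Finset

universe u

/-- products along orbits are bounded and integrable -/
lemma orb_good {X : Type u} [MeasurableSpace X] {μ : Measure X} [IsProbabilityMeasure μ] {m : ℕ}
    {τ : Fin m → ℝ → X → X} (hτ : ∀ j, IsFlow μ (τ j)) {f : Fin m → X → ℂ}
    (hf : ∀ j, AEStronglyMeasurable (f j) μ) (hfb : ∀ j, ∃ C : ℝ, ∀ᵐ x ∂μ, ‖f j x‖ ≤ C) :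
    ∀ᵐ x ∂μ, (∃ C : ℝ, 0 ≤ C ∧ ∀ᵐ v : ℝ, ‖∏ j, f j (τ j v x)‖ ≤ C) ∧
      ∀ V W : ℝ, IntervalIntegrable (fun v => ∏ j, f j (τ j v x)) volume V W := by
  choose g hgm hgb hfg using fun j => exists_version (hf j) (hfb j)
  choose C' hC' using hgb
  set K : ℝ := ∏ j, |C' j| with hK
  have hK0 : 0 ≤ K := Finset.prod_nonneg fun j _ => abs_nonneg _
  have h4 : ∀ᵐ x ∂μ, ∀ᵐ v : ℝ, ∀ j, f j (τ j v x) = g j (τ j v x) := by
    have h5 : ∀ j, ∀ᵐ x ∂μ, ∀ᵐ v : ℝ, f j (τ j v x) = g j (τ j v x) := by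
      intro j
      obtain ⟨E, hE, hEm, hE0⟩ : ∃ E : Set X, {x | ¬ f j x = g j x} ⊆ E ∧ MeasurableSet E ∧ μ E = 0 :=
        exists_measurable_superset_of_null (ae_iff.mp (hfg j))
      have h5 : ∀ᵐ x ∂μ, ∀ᵐ t : ℝ, τ j t x ∉ E := by
        have hset : MeasurableSet {q : ℝ × X | τ j q.1 q.2 ∉ E} := (hτ j).meas hEm.compl
        rw [← Measure.ae_ae_comm hset]
        refine ae_of_all _ fun t => ?_
        exact ((hτ j).mp t).quasiMeasurePreserving.ae (show ∀ᵐ x ∂μ, x ∉ E from by rw [ae_iff]; simpa using hE0)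
      filter_upwards [h5] with x hx
      filter_upwards [hx] with t ht
      by_contra hne
      exact ht (hE hne)
    filter_upwards [ae_all_iff.2 h5] with x hx
    exact ae_all_iff.2 hx
  filter_upwards [h4] with x hx
  have hb : ∀ v : ℝ, ‖∏ j, g j (τ j v x)‖ ≤ K := by
    intro v
    rw [norm_prod]
    exact Finset.prod_le_prod (fun j _ => norm_nonneg _) fun j _ => (hC' j _).trans (le_abs_self _)
  have heq : ∀ᵐ v : ℝ, ∏ j, g j (τ j v x) = ∏ j, f j (τ j v x) := by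
    filter_upwards [hx] with v hv
    exact Finset.prod_congr rfl fun j _ => (hv j).symm
  have hm : Measurable fun v : ℝ => ∏ j, g j (τ j v x) :=
    (orb_prod_meas hτ hgm).comp (measurable_id.prodMk measurable_const)
  refine ⟨⟨K, hK0, ?_⟩, fun V W => ?_⟩
  · filter_upwards [heq] with v hv
    rw [← hv]
    exact hb v
  · have h5 : IntervalIntegrable (fun v => ∏ j, g j (τ j v x)) volume V W := by
      rw [intervalIntegrable_iff]
      exact Measure.integrableOn_of_bounded (M := K) (by simp) hm.aestronglyMeasurable (ae_of_all _ fun r => hb r)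
    exact h5.congr_ae (ae_restrict_of_ae heq)

/-- Besicovitch almost periodic weights: the weighted discrete averages and the continuous averages -/
theorem bes_conv {B : ℕ → ℂ} {b : ℂ} (hB : Bes B)
    (hmean : Tendsto (fun N : ℕ => (1 / (N : ℂ)) * ∑ n ∈ Icc 1 N, B n) atTop (nhds b)) {X : Type u}
    [MeasurableSpace X] {μ : Measure X} [IsProbabilityMeasure μ] {m : ℕ} {τ : Fin m → ℝ → X → X}
    (hτ : ∀ j, IsFlow μ (τ j)) {f : Fin m → X → ℂ} (hf : ∀ j, AEStronglyMeasurable (f j) μ)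
    (hfb : ∀ j, ∃ C : ℝ, ∀ᵐ x ∂μ, ‖f j x‖ ≤ C) :
    ∀ᵐ a : ℝ, 0 < a → ∀ᵐ x ∂μ,
      Tendsto (fun N : ℕ => (1 / (N : ℂ)) * ∑ n ∈ Icc 1 N, B n * ∏ j, f j (τ j (a * n) x) -
        b * ((1 / ((a * N : ℝ) : ℂ)) * ∫ v in (0 : ℝ)..(a * N), ∏ j, f j (τ j v x))) atTop (nhds 0) ∧
      (b ≠ 0 → ∀ L : ℂ,
        (Tendsto (fun N : ℕ => (1 / (N : ℂ)) * ∑ n ∈ Icc 1 N, B n * ∏ j, f j (τ j (a * n) x)) atTop
          (nhds (b * L)) ↔
        Tendsto (fun V : ℝ => (1 / (V : ℂ)) * ∫ v in (0 : ℝ)..V, ∏ j, f j (τ j v x)) atTop (nhds L))) := by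
  filter_upwards [bes_Linf hB hmean hτ hf hfb] with a ha ha0
  filter_upwards [ha ha0, orb_good hτ hf hfb] with x hx1 hx2
  obtain ⟨⟨C, hC0, hC⟩, hi⟩ := hx2
  refine ⟨hx1, fun hb L => ⟨fun h => ?_, fun h => ?_⟩⟩
  · have h1 := h.sub hx1
    rw [sub_zero] at h1
    have h2 := h1.const_mul b⁻¹
    rw [inv_mul_cancel_left₀ hb] at h2
    refine cont_of_disc ha0 hC0 hC hi (h2.congr fun N => ?_)
    rw [sub_sub_cancel, inv_mul_cancel_left₀ hb]
  · have hlimN : Tendsto (fun N : ℕ => a * (N : ℝ)) atTop atTop :=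
      tendsto_natCast_atTop_atTop.const_mul_atTop ha0
    have h1 := (h.comp hlimN).const_mul b
    have h2 := hx1.add h1
    rw [zero_add] at h2
    refine h2.congr fun N => ?_
    simp only [Function.comp_apply]
    ring

end Pool.Agent.Y957.MC
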