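import Pool.Agent.Y957.MC.Fin7
import Pool.Agent.Y957.MC.Spec4
import Pool.Agent.Y274.MC.Regc
import Pool.Agent.Y256.MC.Pti

set_option autoImplicit false

/-! The same maps at polynomial times: convergence of the linear averages implies convergence of the polynomial
ones, at almost every time. -/

namespace Pool.Agent.Y957.MC

open MeasureTheory Filter Finset

universe u

theorem pti_all (hD : S_DETG) : S_PTI.{u} :=
  Pool.Agent.Y256.MC.pti hD Pool.Agent.Y274.MC.regc flw2_all Pool.Agent.Y48.MC.flwb fun _ h => good_of_adm h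

/-- one polynomial, bounded measurable functions -/
theorem pti_swap (hD : S_DETG) {X : Type u} [MeasurableSpace X] {μ : Measure X} [IsProbabilityMeasure μ] {m : ℕ}
    {τ : Fin m → ℝ → X → X} (hτ : ∀ j, IsFlow μ (τ j)) {g : Fin m → X → ℂ} (hgm : ∀ j, Measurable (g j))
    (hgb : ∃ C : ℝ, ∀ j x, ‖g j x‖ ≤ C) {p : ℝ → ℝ} (hp : Adm p) (hpm : Measurable p) :
    ∀ᵐ a : ℝ, 0 < a → ∀ᵐ x ∂μ, ∀ L : ℂ,
      Tendsto (fun V : ℝ => (1 / (V : ℂ)) * ∫ v in (0 : ℝ)..V, ∏ j, g j (τ j v x)) atTop (nhds L) →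
      Tendsto (fun N : ℕ => (1 / (N : ℂ)) * ∑ n ∈ Icc 1 N, ∏ j, g j (τ j (a * p n) x)) atTop (nhds L) := by
  obtain ⟨C0, hC0⟩ := hgb
  set C : ℝ := |C0| with hCdef
  have hCnn : 0 ≤ C := abs_nonneg _
  have hC : ∀ j x, ‖g j x‖ ≤ C := fun j x => (hC0 j x).trans (le_abs_self _)
  have hG := orb_prod_meas hτ hgm
  have hGb : ∀ (v : ℝ) (x : X), ‖∏ j, g j (τ j v x)‖ ≤ C ^ m := by
    intro v x
    rw [norm_prod]
    have : ∏ j : Fin m, ‖g j (τ j v x)‖ ≤ ∏ j : Fin m, C :=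
      Finset.prod_le_prod (fun j _ => norm_nonneg _) fun j _ => hC j _
    simpa using this
  have hGx : ∀ x : X, Measurable fun v : ℝ => ∏ j, g j (τ j v x) := fun x =>
    hG.comp (measurable_id.prodMk measurable_const)
  have hGi : ∀ (x : X) (V W : ℝ), IntervalIntegrable (fun v => ∏ j, g j (τ j v x)) volume V W := by
    intro x V W
    rw [intervalIntegrable_iff]
    exact Measure.integrableOn_of_bounded (M := C ^ m) (by simp) (hGx x).aestronglyMeasurable
      (ae_of_all _ fun r => hGb r x)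
  -- the continuous averages at integers
  set c : ℕ → X → ℂ := fun N x => (1 / (N : ℂ)) * ∫ v in Set.Ioc (0 : ℝ) N, ∏ j, g j (τ j v x) with hc
  have hcm : ∀ N, Measurable (c N) := by
    intro N
    refine measurable_const.mul ?_
    have h2 : Measurable fun r : X × ℝ => ∏ j, g j (τ j r.2 r.1) := hG.comp measurable_swap
    exact (h2.stronglyMeasurable.integral_prod_right' (ν := volume.restrict (Set.Ioc (0 : ℝ) N))).measurable
  have hcV : ∀ (x : X) (L : ℂ), Tendsto (fun N => c N x) atTop (nhds L) →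
      Tendsto (fun V : ℝ => (1 / (V : ℂ)) * ∫ v in (0 : ℝ)..V, ∏ j, g j (τ j v x)) atTop (nhds L) := by
    intro x L h
    refine cont_of_disc one_pos (pow_nonneg hCnn m) (ae_of_all _ fun v => hGb v x) (hGi x) (h.congr fun N => ?_)
    simp only [hc, one_mul]
    rw [intervalIntegral.integral_of_le (Nat.cast_nonneg N)]
    simp
  have hVc : ∀ (x : X) (L : ℂ),
      Tendsto (fun V : ℝ => (1 / (V : ℂ)) * ∫ v in (0 : ℝ)..V, ∏ j, g j (τ j v x)) atTop (nhds L) →
      Tendsto (fun N => c N x) atTop (nhds L) := by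
    intro x L h
    refine (h.comp tendsto_natCast_atTop_atTop).congr fun N => ?_
    simp only [hc, Function.comp_apply]
    rw [intervalIntegral.integral_of_le (Nat.cast_nonneg N)]
    simp
  set d : ℕ → ℝ × X → ℂ := fun N q => (1 / (N : ℂ)) * ∑ n ∈ Icc 1 N, ∏ j, g j (τ j (q.1 * p n) q.2) with hd
  have hdm : ∀ N, Measurable (d N) := by
    intro N
    refine measurable_const.mul (Finset.measurable_sum _ fun n _ => ?_)
    exact hG.comp ((measurable_fst.mul_const _).prodMk measurable_snd)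
  set S : Set (ℝ × X) := {q | ∃ L : ℂ, Tendsto (fun N => c N q.2) atTop (nhds L)}ᶜ ∪
    {q | Tendsto (fun N => d N q - c N q.2) atTop (nhds 0)} with hS
  have hSm : MeasurableSet S := by
    refine MeasurableSet.union (MeasurableSet.compl ?_) ?_
    · exact measurableSet_exists_tendsto fun N => (hcm N).comp measurable_snd
    · exact measurableSet_tendsto (nhds (0 : ℂ)) fun N => (hdm N).sub ((hcm N).comp measurable_snd)
  have h1 : ∀ᵐ x ∂μ, ∀ᵐ a : ℝ ∂(volume.restrict (Set.Ioi (0 : ℝ))), (a, x) ∈ S := by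
    filter_upwards [pti_all hD p hp hpm X μ m τ g hτ hgm ⟨C, hC⟩] with x hx
    filter_upwards [hx] with a ha
    by_cases hex : ∃ L : ℂ, Tendsto (fun N => c N x) atTop (nhds L)
    · right
      obtain ⟨L, hL⟩ := hex
      have h2 := (ha L (hcV x L hL)).sub hL
      rw [sub_self] at h2
      exact h2
    · left
      exact hex
  have h3 := (Measure.ae_ae_comm (μ := volume.restrict (Set.Ioi (0 : ℝ))) (ν := μ)
    (p := fun a x => (a, x) ∈ S) hSm).2 h1
  rw [ae_restrict_iff' measurableSet_Ioi] at h3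
  filter_upwards [h3] with a ha ha0
  filter_upwards [ha ha0] with x hx L hL
  have h4 := hVc x L hL
  rcases hx with hx | hx
  · exact absurd ⟨L, h4⟩ hx
  · have h5 := Tendsto.add (show Tendsto (fun N => d N (a, x) - c N x) atTop (nhds 0) from hx) h4
    rw [zero_add] at h5
    refine h5.congr fun N => ?_
    simp only [hd]
    ring

lemma countable_intPoly : Countable (Polynomial ℤ) := by
  let φ : Polynomial ℤ → (Σ s : Finset ℕ, (s → ℤ)) := fun p => ⟨p.support, fun i => p.coeff i⟩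
  refine Function.Injective.countable (f := φ) fun p q h => ?_
  have h1 : p.support = q.support := congrArg Sigma.fst h
  ext n
  by_cases hn : n ∈ p.support
  · have h2 : ∀ (s t : Finset ℕ) (a : s → ℤ) (b : t → ℤ) (hn : n ∈ s) (hn' : n ∈ t),
        (⟨s, a⟩ : Σ s : Finset ℕ, (s → ℤ)) = ⟨t, b⟩ → a ⟨n, hn⟩ = b ⟨n, hn'⟩ := by
      intro s t a b hs ht hst
      obtain ⟨rfl, hab⟩ := Sigma.mk.inj_iff.mp hst
      rw [eq_of_heq hab]
    exact h2 _ _ _ _ hn (h1 ▸ hn) h
  · have hn' : n ∉ q.support := h1 ▸ hn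
    rw [Polynomial.notMem_support_iff.mp hn, Polynomial.notMem_support_iff.mp hn']

/-- all integer polynomials -/
theorem poly_times (hD : S_DETG) {X : Type u} [MeasurableSpace X] {μ : Measure X} [IsProbabilityMeasure μ] {m : ℕ}
    {τ : Fin m → ℝ → X → X} (hτ : ∀ j, IsFlow μ (τ j)) {f : Fin m → X → ℂ}
    (hf : ∀ j, AEStronglyMeasurable (f j) μ) (hfb : ∀ j, ∃ C : ℝ, ∀ᵐ x ∂μ, ‖f j x‖ ≤ C) :
    ∀ᵐ a : ℝ, 0 < a → ∀ᵐ x ∂μ, ∀ L : ℂ,
      Tendsto (fun N : ℕ => (1 / (N : ℂ)) * ∑ n ∈ Icc 1 N, ∏ j, f j (τ j (a * n) x)) atTop (nhds L) →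
      ∀ P : Polynomial ℤ, 0 < P.natDegree → 0 < P.leadingCoeff →
      Tendsto (fun N : ℕ => (1 / (N : ℂ)) * ∑ n ∈ Icc 1 N, ∏ j, f j (τ j (a * ((P.eval (n : ℤ) : ℤ) : ℝ)) x))
        atTop (nhds L) := by
  have := countable_intPoly
  choose g hgm hgb hfg using fun j => exists_version (hf j) (hfb j)
  choose C hC' using hgb
  have hb : ∃ C' : ℝ, ∀ j x, ‖g j x‖ ≤ C' := by
    refine ⟨∑ j, |C j|, fun j x => (hC' j x).trans ((le_abs_self _).trans ?_)⟩
    exact Finset.single_le_sum (f := fun j => |C j|) (fun i _ => abs_nonneg _) (Finset.mem_univ j)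
  have h1 : ∀ᵐ a : ℝ, ∀ P : Polynomial ℤ, 0 < P.natDegree → 0 < P.leadingCoeff → 0 < a → ∀ᵐ x ∂μ, ∀ L : ℂ,
      Tendsto (fun V : ℝ => (1 / (V : ℂ)) * ∫ v in (0 : ℝ)..V, ∏ j, g j (τ j v x)) atTop (nhds L) →
      Tendsto (fun N : ℕ => (1 / (N : ℂ)) * ∑ n ∈ Icc 1 N, ∏ j, g j (τ j (a * ((P.eval (n : ℤ) : ℤ) : ℝ)) x))
        atTop (nhds L) := by
    rw [ae_all_iff]
    intro P
    by_cases h : 0 < P.natDegree ∧ 0 < P.leadingCoeff
    swap
    · exact ae_of_all _ fun a h1 h2 => absurd ⟨h1, h2⟩ h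
    obtain ⟨hP1, hP2⟩ := h
    have hinj := RingHom.injective_int (Int.castRingHom ℝ)
    have hQ1 : 0 < (P.map (Int.castRingHom ℝ)).natDegree := by
      rw [Polynomial.natDegree_map_eq_of_injective hinj]
      exact hP1
    have hQ2 : 0 < (P.map (Int.castRingHom ℝ)).leadingCoeff := by
      rw [Polynomial.leadingCoeff_map_of_injective hinj]
      simpa using hP2
    have h2 := pti_swap hD hτ hgm hb (Pool.Agent.Y571.MC.poly _ hQ1 hQ2)
      (Polynomial.continuous _).measurable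
    have e1 : ∀ n : ℕ, (P.map (Int.castRingHom ℝ)).eval (n : ℝ) = (((P.eval (n : ℤ)) : ℤ) : ℝ) := by
      intro n
      have h3 : (P.map (Int.castRingHom ℝ)).eval (((n : ℤ)) : ℝ) = (((P.eval (n : ℤ)) : ℤ) : ℝ) := by
        rw [Polynomial.eval_map, Polynomial.eval₂_at_intCast]
        simp
      rwa [Int.cast_natCast] at h3
    filter_upwards [h2] with a ha _ _ ha0
    filter_upwards [ha ha0] with x hx L hL
    have h4 := hx L hL
    simpa only [e1] using h4
  have hlin := mul_Linf (μ := μ) (B := fun _ => 1) (b := 1) (Pool.Agent.Y220.MC.PS.psav_const 1)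
    ⟨1, fun _ => by simp⟩ hτ (f := g) (fun j => (hgm j).aestronglyMeasurable)
    (fun j => ⟨C j, ae_of_all _ (hC' j)⟩)
  have hgood := orb_good (μ := μ) hτ (f := g) (fun j => (hgm j).aestronglyMeasurable)
    (fun j => ⟨C j, ae_of_all _ (hC' j)⟩)
  filter_upwards [h1, hlin] with a ha1 ha2 ha0
  have h5 : ∀ᵐ x ∂μ, ∀ (k : ℤ) (j : Fin m), f j (τ j (a * (k : ℝ)) x) = g j (τ j (a * (k : ℝ)) x) := by
    rw [ae_all_iff]
    intro k
    rw [ae_all_iff]
    intro j
    exact ((hτ j).mp (a * k)).quasiMeasurePreserving.ae (hfg j)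
  have h6 : ∀ᵐ x ∂μ, ∀ P : Polynomial ℤ, 0 < P.natDegree → 0 < P.leadingCoeff → ∀ L : ℂ,
      Tendsto (fun V : ℝ => (1 / (V : ℂ)) * ∫ v in (0 : ℝ)..V, ∏ j, g j (τ j v x)) atTop (nhds L) →
      Tendsto (fun N : ℕ => (1 / (N : ℂ)) * ∑ n ∈ Icc 1 N, ∏ j, g j (τ j (a * ((P.eval (n : ℤ) : ℤ) : ℝ)) x))
        atTop (nhds L) := by
    rw [ae_all_iff]
    intro P
    by_cases h : 0 < P.natDegree ∧ 0 < P.leadingCoeff
    · filter_upwards [ha1 P h.1 h.2 ha0] with x hx _ _ using hx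
    · exact ae_of_all _ fun x h1 h2 => absurd ⟨h1, h2⟩ h
  filter_upwards [h5, h6, ha2 ha0, hgood] with x hx5 hx6 hx2 hxg L hL P hP1 hP2
  obtain ⟨⟨C1, hC10, hC1⟩, hi⟩ := hxg
  have h7 : Tendsto (fun N : ℕ => (1 / (N : ℂ)) * ∑ n ∈ Icc 1 N, ∏ j, g j (τ j (a * n) x)) atTop (nhds L) := by
    refine hL.congr fun N => ?_
    congr 1
    refine Finset.sum_congr rfl fun n _ => Finset.prod_congr rfl fun j _ => ?_
    have := hx5 (n : ℤ) j
    rwa [Int.cast_natCast] at this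
  have h8 : Tendsto (fun V : ℝ => (1 / (V : ℂ)) * ∫ v in (0 : ℝ)..V, ∏ j, g j (τ j v x)) atTop (nhds L) := by
    refine cont_of_disc ha0 hC10 hC1 hi ?_
    have h9 := h7.sub hx2
    rw [sub_zero] at h9
    refine h9.congr fun N => ?_
    simp only [one_mul]
    ring
  refine (hx6 P hP1 hP2 L h8).congr fun N => ?_
  congr 1
  exact Finset.sum_congr rfl fun n _ => Finset.prod_congr rfl fun j _ => (hx5 _ j).symm

end Pool.Agent.Y957.MC
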