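import Pool.Agent.Y957.MC.Cx

set_option autoImplicit false

/-! Several maps at Beatty type times. -/

namespace Pool.Agent.Y957.MC

open MeasureTheory Filter Finset

universe u

theorem maps_real {X : Type u} [MeasurableSpace X] {μ : Measure X} [IsProbabilityMeasure μ] {m : ℕ}
    {T : Fin m → X → X} (hT : ∀ j, MeasurePreserving (T j) μ μ) {p : Fin m → ℕ → ℝ} (hp : ∀ j, Good (p j))
    {f : Fin m → X → ℝ} (hf : ∀ j, Measurable (f j)) (hfb : ∃ C, ∀ j x, |f j x| ≤ C) :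
    ∀ᵐ a : Fin m → ℝ ∂(Measure.pi fun _ => (volume : Measure ℝ).restrict (Set.Ioi 0)), ∀ᵐ x ∂μ,
      Tendsto (fun N : ℕ => (1 / (N : ℝ)) * ∑ n ∈ Icc 1 N,
      ∏ j, f j ((T j)^[⌊a j * p j n⌋₊] x)) atTop (nhds (∏ j, (μ[f j | MeasurableSpace.invariants (T j)]) x)) := by
  obtain ⟨C0, hC0⟩ := hfb
  set C : ℝ := max C0 0 with hCdef
  have hCnn : 0 ≤ C := le_max_right _ _
  have hC : ∀ j x, |f j x| ≤ C := fun j x => (hC0 j x).trans (le_max_left _ _)
  set g : Fin m → X → ℝ := fun j x => trunc C ((μ[f j | MeasurableSpace.invariants (T j)]) x) with hg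
  have hgm : ∀ j, Measurable (g j) := by
    intro j
    have h1 : Measurable (μ[f j | MeasurableSpace.invariants (T j)]) :=
      (stronglyMeasurable_condExp.mono (MeasurableSpace.invariants_le (T j))).measurable
    exact (measurable_trunc C).comp h1
  have hgeq : ∀ᵐ x ∂μ, ∀ j, g j x = (μ[f j | MeasurableSpace.invariants (T j)]) x := by
    rw [ae_all_iff]
    intro j
    filter_upwards [condExp_bd (m := MeasurableSpace.invariants (T j)) (μ := μ) hCnn (hC j)] with x hx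
    exact trunc_eq hx
  have hmain := Pool.Agent.Y571.MC.prod X μ m ((volume : Measure ℝ).restrict (Set.Ioi 0))
    (fun j x a n => f j ((T j)^[⌊a * p j n⌋₊] x)) g
    (fun j n => ?_) hgm ⟨C, fun j x a n => hC j _⟩ ⟨C, fun j x => trunc_bd hCnn _⟩ (fun j => ?_)
  · filter_upwards [hmain] with a ha
    filter_upwards [ha, hgeq] with x hx hxg
    simpa only [hxg] using hx
  · have h1 : Measurable fun q : X × ℕ => f j ((T j)^[q.2] q.1) :=
      measurable_from_prod_countable_left fun k => (hf j).comp ((hT j).iterate k).measurable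
    have h2 : Measurable fun q : X × ℝ => (q.1, ⌊q.2 * p j n⌋₊) :=
      measurable_fst.prodMk (Nat.measurable_floor.comp (measurable_snd.mul_const _))
    exact h1.comp h2
  · filter_upwards [bty_all (p j) (hp j) X μ (T j) (f j) (hT j) (hf j) ⟨C, hC j⟩, hgeq] with x hx hxg B hB
    filter_upwards [hx B hB] with a ha
    simpa only [hxg j] using ha

theorem maps_Linf {X : Type u} [MeasurableSpace X] {μ : Measure X} [IsProbabilityMeasure μ] {m : ℕ}
    {T : Fin m → X → X} (hT : ∀ j, MeasurePreserving (T j) μ μ) {p : Fin m → ℕ → ℝ} (hp : ∀ j, Good (p j))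
    {f : Fin m → X → ℂ} (hf : ∀ j, AEStronglyMeasurable (f j) μ) (hfb : ∀ j, ∃ C : ℝ, ∀ᵐ x ∂μ, ‖f j x‖ ≤ C) :
    ∀ᵐ a : Fin m → ℝ, (∀ j, 0 < a j) → ∀ᵐ x ∂μ,
      Tendsto (fun N : ℕ => (1 / (N : ℂ)) * ∑ n ∈ Icc 1 N,
      ∏ j, f j ((T j)^[⌊a j * p j n⌋₊] x)) atTop (nhds (∏ j, (μ[f j | MeasurableSpace.invariants (T j)]) x)) := by
  choose g hgm hgb hfg using fun j => exists_version (hf j) (hfb j)
  choose C hC' using hgb
  have hb : ∃ C' : ℝ, ∀ j x, ‖g j x‖ ≤ C' := by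
    refine ⟨∑ j, |C j|, fun j x => (hC' j x).trans ((le_abs_self _).trans ?_)⟩
    exact Finset.single_le_sum (f := fun j => |C j|) (fun i _ => abs_nonneg _) (Finset.mem_univ j)
  have h1 := cx_gen (μ := μ) (atTop : Filter ℕ) (fun N => Icc 1 N) (fun N => 1 / (N : ℝ))
    (Measure.pi fun _ => (volume : Measure ℝ).restrict (Set.Ioi 0)) (fun j a n x => (T j)^[⌊a * p j n⌋₊] x)
    (fun j => MeasurableSpace.invariants (T j))
    (fun g hg hgb => maps_real hT hp hg hgb) hgm hb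
  have h0 : (Measure.pi fun _ : Fin m => (volume : Measure ℝ).restrict (Set.Ioi 0)) =
      (volume : Measure (Fin m → ℝ)).restrict (Set.univ.pi fun _ => Set.Ioi 0) :=
    (Measure.restrict_pi_pi (fun _ : Fin m => (volume : Measure ℝ)) (fun _ => Set.Ioi (0 : ℝ))).symm
  rw [h0, ae_restrict_iff' (MeasurableSet.univ_pi fun _ => measurableSet_Ioi)] at h1
  have h2 : ∀ᵐ x ∂μ, ∀ j, (μ[f j | MeasurableSpace.invariants (T j)]) x =
      (μ[g j | MeasurableSpace.invariants (T j)]) x := by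
    rw [ae_all_iff]
    exact fun j => condExp_congr_ae (hfg j)
  have h3 : ∀ᵐ x ∂μ, ∀ (k : ℕ) (j : Fin m), f j ((T j)^[k] x) = g j ((T j)^[k] x) := by
    rw [ae_all_iff]
    intro k
    rw [ae_all_iff]
    intro j
    exact ((hT j).iterate k).quasiMeasurePreserving.ae (hfg j)
  filter_upwards [h1] with a ha hpos
  filter_upwards [ha (fun j _ => hpos j), h2, h3] with x hx hx2 hx3
  simp only [hx2, hx3]
  refine hx.congr fun N => ?_
  push_cast
  rfl

/-- one flow, all bounded systems of weights at once -/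
theorem flow_weights {Ω : Type u} [MeasurableSpace Ω] {μ₀ : Measure Ω} [IsProbabilityMeasure μ₀] {S : ℝ → Ω → Ω}
    (hS : IsFlow μ₀ S) {h : Ω → ℂ} (hh : AEStronglyMeasurable h μ₀) (hhb : ∃ C : ℝ, ∀ᵐ x ∂μ₀, ‖h x‖ ≤ C)
    {P : Polynomial ℝ} (hP : 0 < P.natDegree) :
    ∀ᵐ ω ∂μ₀, ∀ B : ℕ → ℂ, (∀ n, ‖B n‖ ≤ 1) → ∀ᵐ a : ℝ,
      Tendsto (fun N : ℕ => (1 / (N : ℂ)) * ∑ n ∈ Icc 1 N, B n *
        (h (S (a * P.eval (n : ℝ)) ω) - (μ₀[h | flowInv S]) ω)) atTop (nhds 0) := by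
  obtain ⟨g, hgm, ⟨C, hC⟩, hfg⟩ := exists_version hh hhb
  have hint : Integrable g μ₀ := Integrable.of_bound hgm.aestronglyMeasurable C (ae_of_all _ hC)
  have hre := flow_poly hS (Complex.measurable_re.comp hgm) ⟨C, fun x => (Complex.abs_re_le_norm _).trans (hC x)⟩ hP
  have him := flow_poly hS (Complex.measurable_im.comp hgm) ⟨C, fun x => (Complex.abs_im_le_norm _).trans (hC x)⟩ hP
  have h2 : ∀ᵐ ω ∂μ₀, (μ₀[h | flowInv S]) ω = (μ₀[g | flowInv S]) ω := condExp_congr_ae hfg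
  have h3 := condExp_re_im (m := flowInv S) hint
  -- the version: for almost every point of the orbit
  have h4 : ∀ᵐ ω ∂μ₀, ∀ᵐ t : ℝ, h (S t ω) = g (S t ω) := by
    obtain ⟨E, hE, hEm, hE0⟩ : ∃ E : Set Ω, {x | ¬ h x = g x} ⊆ E ∧ MeasurableSet E ∧ μ₀ E = 0 :=
      exists_measurable_superset_of_null (ae_iff.mp hfg)
    have h5 : ∀ᵐ ω ∂μ₀, ∀ᵐ t : ℝ, S t ω ∉ E := by
      have hset : MeasurableSet {q : ℝ × Ω | S q.1 q.2 ∉ E} := hS.meas hEm.compl
      rw [← Measure.ae_ae_comm hset]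
      refine ae_of_all _ fun t => ?_
      exact (hS.mp t).quasiMeasurePreserving.ae (show ∀ᵐ x ∂μ₀, x ∉ E from by rw [ae_iff]; simpa using hE0)
    filter_upwards [h5] with ω hω
    filter_upwards [hω] with t ht
    by_contra hne
    exact ht (hE hne)
  have hPne : ∃ n₀ : ℕ, ∀ n : ℕ, n₀ ≤ n → P.eval (n : ℝ) ≠ 0 := by
    have hfin : {x : ℝ | P.eval x = 0}.Finite := by
      have hP0 : P ≠ 0 := by rintro rfl; simp at hP
      exact Polynomial.finite_setOfPred_isRoot hP0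
    obtain ⟨b, hb⟩ := hfin.bddAbove
    refine ⟨⌊b⌋₊ + 1, fun n hn h0 => ?_⟩
    have h1 : (n : ℝ) ≤ b := hb h0
    have h2 : n ≤ ⌊b⌋₊ := Nat.le_floor h1
    omega
  obtain ⟨n₀, hn₀⟩ := hPne
  filter_upwards [hre, him, h2, h3, h4] with ω hω1 hω2 hω3 hω4 hω5 B hB
  have h6 : ∀ᵐ a : ℝ, ∀ n : ℕ, n₀ ≤ n → h (S (a * P.eval (n : ℝ)) ω) = g (S (a * P.eval (n : ℝ)) ω) := by
    rw [ae_all_iff]
    intro n
    by_cases hn : n₀ ≤ n
    · have h7 : ∀ᵐ a : ℝ, h (S (a * P.eval (n : ℝ)) ω) = g (S (a * P.eval (n : ℝ)) ω) := by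
        rw [ae_iff] at hω5 ⊢
        have h8 := Real.volume_preimage_mul_right (hn₀ n hn) {t : ℝ | ¬ h (S t ω) = g (S t ω)}
        rw [hω5, mul_zero] at h8
        exact h8
      filter_upwards [h7] with a ha _
      exact ha
    · exact ae_of_all _ fun a h => absurd h hn
  filter_upwards [hω1 B hB, hω2 B hB, h6] with a ha1 ha2 ha3
  have h8 := ha1.add (ha2.const_mul Complex.I)
  rw [mul_zero, add_zero] at h8
  -- compare
  have h9 : Tendsto (fun N : ℕ => (1 / (N : ℂ)) * ∑ n ∈ Icc 1 N, B n *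
      (g (S (a * P.eval (n : ℝ)) ω) - (μ₀[h | flowInv S]) ω)) atTop (nhds 0) := by
    refine h8.congr fun N => ?_
    rw [← mul_assoc, mul_comm Complex.I, mul_assoc, ← mul_add, mul_sum, ← sum_add_distrib]
    congr 1
    refine sum_congr rfl fun n _ => ?_
    rw [hω3, hω4]
    simp only [Function.comp_apply]
    have e := Complex.re_add_im (g (S (a * P.eval (n : ℝ)) ω))
    conv_rhs => rw [← e]
    push_cast
    simp only [Function.comp_def]
    ring
  have h10 : Tendsto (fun N : ℕ => (1 / (N : ℂ)) * ∑ n ∈ range n₀, (if n ∈ Icc 1 N then B n *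
      (h (S (a * P.eval (n : ℝ)) ω) - g (S (a * P.eval (n : ℝ)) ω)) else 0)) atTop (nhds 0) := by
    refine squeeze_zero_norm (a := fun N : ℕ => (1 / (N : ℝ)) * ∑ n ∈ range n₀, ‖B n *
      (h (S (a * P.eval (n : ℝ)) ω) - g (S (a * P.eval (n : ℝ)) ω))‖) (fun N => ?_) ?_
    · rw [norm_mul, norm_div, norm_one, Complex.norm_natCast]
      refine mul_le_mul_of_nonneg_left ((norm_sum_le _ _).trans (sum_le_sum fun n _ => ?_)) (by positivity)
      split_ifs
      · exact le_rfl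
      · rw [norm_zero]; exact norm_nonneg _
    · have := (tendsto_one_div_atTop_nhds_zero_nat (𝕜 := ℝ)).mul_const (∑ n ∈ range n₀, ‖B n *
        (h (S (a * P.eval (n : ℝ)) ω) - g (S (a * P.eval (n : ℝ)) ω))‖)
      simpa using this
  have h11 := h9.add h10
  rw [add_zero] at h11
  refine h11.congr fun N => ?_
  rw [← mul_add]
  congr 1
  have e1 : ∑ n ∈ range n₀, (if n ∈ Icc 1 N then B n *
      (h (S (a * P.eval (n : ℝ)) ω) - g (S (a * P.eval (n : ℝ)) ω)) else 0) =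
      ∑ n ∈ Icc 1 N, B n * (h (S (a * P.eval (n : ℝ)) ω) - g (S (a * P.eval (n : ℝ)) ω)) := by
    rw [← sum_filter]
    refine sum_subset_zero_on_sdiff (fun n hn => (mem_filter.mp hn).2) (fun n hn => ?_) (fun _ _ => rfl)
    rw [Finset.mem_sdiff, mem_filter, not_and'] at hn
    have : n₀ ≤ n := by
      by_contra hlt
      exact hn.2 hn.1 (mem_range.mpr (by omega))
    rw [ha3 n this, sub_self, mul_zero]
  rw [e1, ← sum_add_distrib]
  refine sum_congr rfl fun n _ => ?_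
  ring

end Pool.Agent.Y957.MC
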