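import Pool.Agent.Y957.MC.Fin8
import Pool.Agent.Y758.MC.ParM
import Pool.Agent.Y708.MC.Psg
import Pool.Agent.Y448.MC.Detg

set_option autoImplicit false

/-! Polynomial times: all steps together. -/

namespace Pool.Agent.Y957.MC

theorem detg_all : S_DETG :=
  Pool.Agent.Y448.MC.detg Pool.Agent.Y758.MC.parm Pool.Agent.Y708.MC.psg Pool.Agent.Y259.MC.tail
    Pool.Agent.Y259.MC.par

end Pool.Agent.Y957.MC
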