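import Pool.Agent.Y957.MC.Maps

set_option autoImplicit false

/-! Return times: one flow against all bounded systems of weights. -/

namespace Pool.Agent.Y957.MC

open MeasureTheory Filter Finset

universe u v

lemma avg_congr {p q : ℕ → ℂ} {n₀ : ℕ} (h : ∀ n, n₀ ≤ n → p n = q n) {L : ℂ}
    (hp : Tendsto (fun N : ℕ => (1 / (N : ℂ)) * ∑ n ∈ Icc 1 N, p n) atTop (nhds L)) :
    Tendsto (fun N : ℕ => (1 / (N : ℂ)) * ∑ n ∈ Icc 1 N, q n) atTop (nhds L) := by
  have h10 : Tendsto (fun N : ℕ => (1 / (N : ℂ)) * ∑ n ∈ range n₀, (if n ∈ Icc 1 N then q n - p n else 0))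
      atTop (nhds 0) := by
    refine squeeze_zero_norm (a := fun N : ℕ => (1 / (N : ℝ)) * ∑ n ∈ range n₀, ‖q n - p n‖) (fun N => ?_) ?_
    · rw [norm_mul, norm_div, norm_one, Complex.norm_natCast]
      refine mul_le_mul_of_nonneg_left ((norm_sum_le _ _).trans (sum_le_sum fun n _ => ?_)) (by positivity)
      split_ifs
      · exact le_rfl
      · rw [norm_zero]; exact norm_nonneg _
    · have := (tendsto_one_div_atTop_nhds_zero_nat (𝕜 := ℝ)).mul_const (∑ n ∈ range n₀, ‖q n - p n‖)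
      simpa using this
  have h11 := hp.add h10
  rw [add_zero] at h11
  refine h11.congr fun N => ?_
  rw [← mul_add]
  congr 1
  have e1 : ∑ n ∈ range n₀, (if n ∈ Icc 1 N then q n - p n else 0) = ∑ n ∈ Icc 1 N, (q n - p n) := by
    rw [← sum_filter]
    refine sum_subset_zero_on_sdiff (fun n hn => (mem_filter.mp hn).2) (fun n hn => ?_) (fun _ _ => rfl)
    rw [Finset.mem_sdiff, mem_filter, not_and'] at hn
    have : n₀ ≤ n := by
      by_contra hlt
      exact hn.2 hn.1 (mem_range.mpr (by omega))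
    rw [h n this, sub_self]
  rw [e1, ← sum_add_distrib]
  refine sum_congr rfl fun n _ => ?_
  ring

/-- for almost every `ω` all bounded systems of weights -/
theorem flow_systems {Ω : Type u} [MeasurableSpace Ω] {μ₀ : Measure Ω} [IsProbabilityMeasure μ₀] {S : ℝ → Ω → Ω}
    (hS : IsFlow μ₀ S) {h : Ω → ℂ} (hh : AEStronglyMeasurable h μ₀) (hhb : ∃ C : ℝ, ∀ᵐ x ∂μ₀, ‖h x‖ ≤ C)
    {P : Polynomial ℝ} (hP : 0 < P.natDegree) :
    ∀ᵐ ω ∂μ₀, ∀ (X : Type v) [MeasurableSpace X] (μ : Measure X) [IsProbabilityMeasure μ] (W : ℕ → X → ℂ),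
      (∀ n, AEStronglyMeasurable (W n) μ) → (∃ C : ℝ, ∀ n, ∀ᵐ x ∂μ, ‖W n x‖ ≤ C) → ∀ᵐ a : ℝ, ∀ᵐ x ∂μ,
      Tendsto (fun N : ℕ => (1 / (N : ℂ)) * ∑ n ∈ Icc 1 N, W n x *
        (h (S (a * P.eval (n : ℝ)) ω) - (μ₀[h | flowInv S]) ω)) atTop (nhds 0) := by
  obtain ⟨g, hgm, ⟨C, hC⟩, hfg⟩ := exists_version hh hhb
  have hw := flow_weights hS hgm.aestronglyMeasurable ⟨C, ae_of_all _ hC⟩ hP
  have h2 : ∀ᵐ ω ∂μ₀, (μ₀[h | flowInv S]) ω = (μ₀[g | flowInv S]) ω := condExp_congr_ae hfg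
  have h4 : ∀ᵐ ω ∂μ₀, ∀ᵐ t : ℝ, h (S t ω) = g (S t ω) := by
    obtain ⟨E, hE, hEm, hE0⟩ : ∃ E : Set Ω, {x | ¬ h x = g x} ⊆ E ∧ MeasurableSet E ∧ μ₀ E = 0 :=
      exists_measurable_superset_of_null (ae_iff.mp hfg)
    have h5 : ∀ᵐ ω ∂μ₀, ∀ᵐ t : ℝ, S t ω ∉ E := by
      have hset : MeasurableSet {q : ℝ × Ω | S q.1 q.2 ∉ E} := hS.meas hEm.compl
      rw [← Measure.ae_ae_comm hset]
      refine ae_of_all _ fun t => ?_
      exact (hS.mp t).quasiMeasurePreserving.ae (show ∀ᵐ x ∂μ₀, x ∉ E from by rw [ae_iff]; simpa using hE0)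
    filter_upwards [h5] with ω hω
    filter_upwards [hω] with t ht
    by_contra hne
    exact ht (hE hne)
  have hPne : ∃ n₀ : ℕ, ∀ n : ℕ, n₀ ≤ n → P.eval (n : ℝ) ≠ 0 := by
    have hfin : {x : ℝ | P.eval x = 0}.Finite := by
      have hP0 : P ≠ 0 := by rintro rfl; simp at hP
      exact Polynomial.finite_setOfPred_isRoot hP0
    obtain ⟨b, hb⟩ := hfin.bddAbove
    refine ⟨⌊b⌋₊ + 1, fun n hn h0 => ?_⟩
    have h1 : (n : ℝ) ≤ b := hb h0
    have h2 : n ≤ ⌊b⌋₊ := Nat.le_floor h1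
    omega
  obtain ⟨n₀, hn₀⟩ := hPne
  filter_upwards [hw, h2, h4] with ω hω1 hω3 hω5
  intro X _ μ _ W hWm hWb
  have h6 : ∀ᵐ a : ℝ, ∀ n : ℕ, n₀ ≤ n → h (S (a * P.eval (n : ℝ)) ω) = g (S (a * P.eval (n : ℝ)) ω) := by
    rw [ae_all_iff]
    intro n
    by_cases hn : n₀ ≤ n
    · have h7 : ∀ᵐ a : ℝ, h (S (a * P.eval (n : ℝ)) ω) = g (S (a * P.eval (n : ℝ)) ω) := by
        rw [ae_iff] at hω5 ⊢
        have h8 := Real.volume_preimage_mul_right (hn₀ n hn) {t : ℝ | ¬ h (S t ω) = g (S t ω)}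
        rw [hω5, mul_zero] at h8
        exact h8
      filter_upwards [h7] with a ha _
      exact ha
    · exact ae_of_all _ fun a h => absurd h hn
  obtain ⟨D0, hD0⟩ := hWb
  set D : ℝ := max D0 1 with hD
  have hD1 : 1 ≤ D := le_max_right _ _
  have hDpos : 0 < D := by linarith
  -- measurable bounded versions of the weights
  have hver : ∀ n, ∃ V : X → ℂ, Measurable V ∧ (∀ x, ‖V x‖ ≤ 1) ∧ (fun x => W n x / D) =ᵐ[μ] V := by
    intro n
    have hm : Measurable ((hWm n).mk (W n)) := (hWm n).stronglyMeasurable_mk.measurable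
    refine ⟨fun x => if ‖(hWm n).mk (W n) x / D‖ ≤ 1 then (hWm n).mk (W n) x / D else 0, ?_, fun x => ?_, ?_⟩
    · exact Measurable.ite (measurableSet_le (hm.div_const _).norm measurable_const) (hm.div_const _) measurable_const
    · dsimp only
      split_ifs with h
      · exact h
      · simp
    · filter_upwards [hD0 n, (hWm n).ae_eq_mk] with x h1 h2
      rw [← h2, if_pos]
      rw [norm_div, Complex.norm_real, Real.norm_of_nonneg hDpos.le, div_le_one hDpos]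
      exact h1.trans (le_max_left _ _)
  choose V hVm hV1 hVW using hver
  have h7 : ∀ᵐ a : ℝ, ∀ᵐ x ∂μ, Tendsto (fun N : ℕ => (1 / (N : ℂ)) * ∑ n ∈ Icc 1 N, V n x *
        (g (S (a * P.eval (n : ℝ)) ω) - (μ₀[g | flowInv S]) ω)) atTop (nhds 0) := by
    have hset : MeasurableSet {q : X × ℝ | Tendsto (fun N : ℕ => (1 / (N : ℂ)) * ∑ n ∈ Icc 1 N, V n q.1 *
        (g (S (q.2 * P.eval (n : ℝ)) ω) - (μ₀[g | flowInv S]) ω)) atTop (nhds 0)} := by
      refine measurableSet_tendsto _ fun N => ?_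
      refine measurable_const.mul (Finset.measurable_sum _ fun n _ => ?_)
      refine ((hVm n).comp measurable_fst).mul (Measurable.sub ?_ measurable_const)
      exact hgm.comp (hS.meas.comp ((measurable_snd.mul_const _).prodMk measurable_const))
    refine (Measure.ae_ae_comm hset).mp (ae_of_all _ fun x => ?_)
    exact hω1 (fun n => V n x) (fun n => hV1 n x)
  have h8 : ∀ᵐ x ∂μ, ∀ n, W n x / D = V n x := by
    rw [ae_all_iff]
    exact hVW
  filter_upwards [h6, h7] with a ha6 ha7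
  filter_upwards [ha7, h8] with x hx hx8
  have h9 := hx.const_mul (D : ℂ)
  rw [mul_zero] at h9
  have h10 : Tendsto (fun N : ℕ => (1 / (N : ℂ)) * ∑ n ∈ Icc 1 N, W n x *
        (g (S (a * P.eval (n : ℝ)) ω) - (μ₀[h | flowInv S]) ω)) atTop (nhds 0) := by
    refine h9.congr fun N => ?_
    rw [← mul_assoc, mul_comm (D : ℂ), mul_assoc, mul_sum]
    congr 1
    refine sum_congr rfl fun n _ => ?_
    rw [← hx8 n, hω3]
    have : (D : ℂ) ≠ 0 := by exact_mod_cast hDpos.ne'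
    field_simp
  exact avg_congr (n₀ := n₀) (fun n hn => by rw [ha6 n hn]) h10

end Pool.Agent.Y957.MC
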